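import Pool.Agent.Helper48.Functional

/-!
A continuous function orthogonal to all polynomials times `(1-|ξ|²)_+^β` vanishes on the ball.
-/

open MeasureTheory

namespace Pool.Agent.Helper48

variable {n : ℕ}

/-- the coordinate functions as continuous maps -/
noncomputable def coordMap (n : ℕ) (i : Fin n) : C(V n, ℝ) :=
  ⟨fun ξ => ξ i, by fun_prop⟩

/-- polynomials as continuous maps -/
noncomputable def polyAlg (n : ℕ) : Subalgebra ℝ C(V n, ℝ) :=
  (MvPolynomial.aeval (R := ℝ) (coordMap n)).range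

lemma aeval_coordMap (Q : MvPolynomial (Fin n) ℝ) (ξ : V n) :
    (MvPolynomial.aeval (R := ℝ) (coordMap n) Q) ξ = pe Q ξ := by
  induction Q using MvPolynomial.induction_on with
  | C a =>
    rw [pe_C, MvPolynomial.aeval_C]
    rfl
  | add p q hp hq =>
    rw [map_add, pe_add, ← hp, ← hq]
    rfl
  | mul_X p i hp =>
    rw [map_mul, pe_mul, pe_X, MvPolynomial.aeval_X, ← hp]
    rfl

lemma polyAlg_separates : (polyAlg n).SeparatesPoints := by
  intro x y hxy
  obtain ⟨i, hi⟩ : ∃ i, x i ≠ y i := by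
    by_contra hcon
    push Not at hcon
    exact hxy (by ext i; exact hcon i)
  refine ⟨coordMap n i, ⟨coordMap n i, ?_, rfl⟩, hi⟩
  exact ⟨MvPolynomial.X i, by simp⟩

/-- uniform approximation by polynomials on the closed ball -/
lemma exists_pe_near {g : V n → ℝ} (hg : Continuous g) {ε : ℝ} (hε : 0 < ε) :
    ∃ Q : MvPolynomial (Fin n) ℝ, ∀ ξ : V n, ‖ξ‖ ≤ 1 → |pe Q ξ - g ξ| < ε := by
  obtain ⟨p, ⟨Q, hQ⟩, hp⟩ :=
    ContinuousMap.exists_mem_subalgebra_near_continuous_of_isCompact_of_separatesPoints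
      (polyAlg_separates (n := n)) ⟨g, hg⟩ (isCompact_closedBall (0 : V n) 1) hε
  refine ⟨Q, fun ξ hξ => ?_⟩
  have h1 := hp ξ (by simpa using hξ)
  rw [← aeval_coordMap]
  rw [← hQ] at h1
  exact h1

lemma eq_zero_of_orth_real {g : V n → ℝ} (hg : Continuous g) {β : ℝ} (hβ : 0 < β)
    (h : ∀ Q : MvPolynomial (Fin n) ℝ, ∫ ξ : V n, (pe Q ξ * rho β ξ) * g ξ = 0) :
    ∀ ξ : V n, ‖ξ‖ ≤ 1 → g ξ = 0 := by
  have hint : ∀ {f : V n → ℝ}, Continuous f → Integrable (fun ξ => rho β ξ * f ξ) := by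
    intro f hf
    exact integrable_rho_smul hβ hf
  -- `∫ ρ g² = 0`
  have hzero : ∫ ξ : V n, rho β ξ * (g ξ) ^ 2 = 0 := by
    set C : ℝ := ∫ ξ : V n, rho β ξ * |g ξ| with hC
    have hC0 : 0 ≤ C := integral_nonneg fun ξ => mul_nonneg (rho_nonneg _ _) (abs_nonneg _)
    have hnn : 0 ≤ ∫ ξ : V n, rho β ξ * (g ξ) ^ 2 :=
      integral_nonneg fun ξ => mul_nonneg (rho_nonneg _ _) (sq_nonneg _)
    have hle : ∀ ε : ℝ, 0 < ε → ∫ ξ : V n, rho β ξ * (g ξ) ^ 2 ≤ ε * C := by
      intro ε hε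
      obtain ⟨Q, hQ⟩ := exists_pe_near hg hε
      have e1 : ∫ ξ : V n, rho β ξ * (g ξ) ^ 2 =
          ∫ ξ : V n, rho β ξ * ((g ξ - pe Q ξ) * g ξ) := by
        have e2 : ∫ ξ : V n, rho β ξ * ((g ξ - pe Q ξ) * g ξ) =
            (∫ ξ : V n, rho β ξ * (g ξ) ^ 2) - ∫ ξ : V n, (pe Q ξ * rho β ξ) * g ξ := by
          have i1 : Integrable (fun ξ : V n => rho β ξ * (g ξ) ^ 2) := hint (hg.pow 2)
          have i2 : Integrable (fun ξ : V n => (pe Q ξ * rho β ξ) * g ξ) := by
            have := hint (hg.mul (pe_continuous Q))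
            refine this.congr ?_
            filter_upwards with ξ
            change rho β ξ * (g ξ * pe Q ξ) = _
            ring
          rw [← integral_sub i1 i2]
          congr 1
          funext ξ
          ring
        rw [e2, h Q, sub_zero]
      rw [e1, hC, ← integral_const_mul]
      apply integral_mono
      · exact hint ((hg.sub (pe_continuous Q)).mul hg)
      · exact (hint hg.abs).const_mul ε
      · intro ξ
        simp only
        rcases lt_or_ge ‖ξ‖ 1 with h1 | h1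
        · have h2 := hQ ξ h1.le
          have h3 : (g ξ - pe Q ξ) * g ξ ≤ ε * |g ξ| := by
            calc (g ξ - pe Q ξ) * g ξ ≤ |(g ξ - pe Q ξ) * g ξ| := le_abs_self _
              _ = |pe Q ξ - g ξ| * |g ξ| := by rw [abs_mul, abs_sub_comm]
              _ ≤ ε * |g ξ| := mul_le_mul_of_nonneg_right h2.le (abs_nonneg _)
          calc rho β ξ * ((g ξ - pe Q ξ) * g ξ) ≤ rho β ξ * (ε * |g ξ|) :=
                mul_le_mul_of_nonneg_left h3 (rho_nonneg _ _)
            _ = _ := by ring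
        · rw [rho_eq_zero hβ.ne' h1]
          simp
    by_contra hne
    have hpos : 0 < ∫ ξ : V n, rho β ξ * (g ξ) ^ 2 := lt_of_le_of_ne hnn (Ne.symm hne)
    have h5 := hle ((∫ ξ : V n, rho β ξ * (g ξ) ^ 2) / (2 * (C + 1))) (by positivity)
    have h6 : (∫ ξ : V n, rho β ξ * (g ξ) ^ 2) / (2 * (C + 1)) * C <
        ∫ ξ : V n, rho β ξ * (g ξ) ^ 2 := by
      rw [div_mul_eq_mul_div, div_lt_iff₀ (by positivity)]
      nlinarith
    linarith
  -- hence `ρ g² = 0` everywhere
  have hcont : Continuous (fun ξ : V n => rho β ξ * (g ξ) ^ 2) :=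
    (rho_continuous hβ.le).mul (hg.pow 2)
  have hall : (fun ξ : V n => rho β ξ * (g ξ) ^ 2) = 0 := by
    have h7 := (integral_eq_zero_iff_of_nonneg
      (fun ξ => mul_nonneg (rho_nonneg _ _) (sq_nonneg _)) (hint (hg.pow 2))).mp hzero
    exact (Continuous.ae_eq_iff_eq volume hcont continuous_zero).mp h7
  have hopen : ∀ ξ ∈ Metric.ball (0 : V n) 1, g ξ = 0 := by
    intro ξ hξ
    have h1 : ‖ξ‖ < 1 := by simpa using hξ
    have h2 := congrFun hall ξ
    simp only [Pi.zero_apply] at h2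
    rcases mul_eq_zero.mp h2 with h3 | h3
    · exact absurd h3 (rho_pos h1).ne'
    · exact pow_eq_zero_iff (two_ne_zero) |>.mp h3
  intro ξ hξ
  have hcl : ξ ∈ closure (Metric.ball (0 : V n) 1) := by
    rw [closure_ball _ one_ne_zero]
    simpa using hξ
  have h8 : Set.EqOn g (fun _ => 0) (closure (Metric.ball (0 : V n) 1)) :=
    Set.EqOn.closure hopen hg continuous_const
  exact h8 hcl

/-- complex version -/
lemma eq_zero_of_orth {g : V n → ℂ} (hg : Continuous g) {β : ℝ} (hβ : 0 < β)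
    (h : ∀ Q : MvPolynomial (Fin n) ℝ, ∫ ξ : V n, (pe Q ξ * rho β ξ) • g ξ = 0) :
    ∀ ξ : V n, ‖ξ‖ ≤ 1 → g ξ = 0 := by
  have hint : ∀ Q : MvPolynomial (Fin n) ℝ, Integrable (fun ξ : V n => (pe Q ξ * rho β ξ) • g ξ) :=
    fun Q => integrable_pe_rho hβ Q hg
  have hre := eq_zero_of_orth_real (g := fun ξ => (g ξ).re) (Complex.continuous_re.comp hg) hβ (by
    intro Q
    have h1 := Complex.reCLM.integral_comp_comm (hint Q)
    rw [h Q] at h1
    simpa using h1)
  have him := eq_zero_of_orth_real (g := fun ξ => (g ξ).im) (Complex.continuous_im.comp hg) hβ (by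
    intro Q
    have h1 := Complex.imCLM.integral_comp_comm (hint Q)
    rw [h Q] at h1
    simpa using h1)
  intro ξ hξ
  exact Complex.ext (hre ξ hξ) (him ξ hξ)

end Pool.Agent.Helper48
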