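import Pool.Agent.Helper48.Eval
import Pool.Agent.Helper48.StoneW

/-!
Sufficiency: measures with the prescribed moments are extremal.
-/

open MeasureTheory

namespace Pool.Agent.Helper48

variable {m : ℕ} {lam : Measure (V (m + 1))} [IsFiniteMeasure lam]

lemma integrableOn_prod (L : List (Fin (m + 1))) {k : ℕ} (hk : 1 ≤ k) :
    IntegrableOn (fun t : V (m + 1) => (L.map (fun j => t j / (Real.pi * k))).prod)
      (Sp (m + 1) k) lam := by
  have hc : 0 < Real.pi * (k : ℝ) := mul_pos Real.pi_pos (by exact_mod_cast hk)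
  apply Measure.integrableOn_of_bounded (M := 1) (measure_ne_top _ _)
  · have hcont : ∀ L : List (Fin (m + 1)),
        Continuous (fun t : V (m + 1) => (L.map (fun j => t j / (Real.pi * k))).prod) := by
      intro L
      induction L with
      | nil => simp only [List.map_nil, List.prod_nil]; exact continuous_const
      | cons j L ih =>
        simp only [List.map_cons, List.prod_cons]
        exact (by fun_prop : Continuous fun t : V (m + 1) => t j / (Real.pi * k)).mul ih
    exact (hcont L).aestronglyMeasurable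
  · rw [ae_restrict_iff' (measurableSet_Sp k)]
    filter_upwards with t ht
    exact abs_prod_le L hc (mem_Sp.mp ht)

/-- contraction of two indices -/
lemma mom_sum (L : List (Fin (m + 1))) {k : ℕ} (hk : 1 ≤ k) :
    mom lam L k = ∑ i, mom lam (i :: i :: L) k := by
  have hc : 0 < Real.pi * (k : ℝ) := mul_pos Real.pi_pos (by exact_mod_cast hk)
  unfold mom
  rw [← integral_finsetSum _ (fun i _ => integrableOn_prod (lam := lam) (i :: i :: L) hk)]
  apply setIntegral_congr_fun (measurableSet_Sp k)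
  intro t ht
  simp only [List.map_cons, List.prod_cons]
  have h1 : ∑ i, (t i / (Real.pi * k)) * (t i / (Real.pi * k)) = 1 := by
    have h2 : ‖t‖ ^ 2 = ∑ i, (t i) ^ 2 := by
      rw [EuclideanSpace.norm_sq_eq]; simp
    have h3 : ∀ i, (t i / (Real.pi * k)) * (t i / (Real.pi * k)) = (t i) ^ 2 / (Real.pi * k) ^ 2 := by
      intro i
      field_simp
    simp_rw [h3]
    rw [← Finset.sum_div, ← h2, mem_Sp.mp ht, div_self (by positivity)]
  simp_rw [← mul_assoc]
  rw [← Finset.sum_mul, h1, one_mul]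

lemma ser_congr {l : ℕ} {a b : ℕ → ℝ} (h : ∀ k : ℕ, 1 ≤ k → a k = b k) (s : ℝ) :
    ser l a s = ser l b s := by
  unfold ser
  congr 1
  funext k
  unfold tm
  rw [h (k + 1) (by omega)]

lemma ser_smul {l : ℕ} (c : ℝ) (a : ℕ → ℝ) (s : ℝ) : ser l (fun k => c * a k) s = c * ser l a s := by
  unfold ser
  rw [← tsum_mul_left]
  congr 1
  funext k
  unfold tm
  ring

section

variable (h2 : ∀ i j : Fin (m + 1), ∀ k : ℕ, 1 ≤ k →
    mom lam [i, j] k = (if i = j then 1 else 0) * m0 k)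
include h2

lemma mom_nil {k : ℕ} (hk : 1 ≤ k) : mom lam [] k = ((m : ℝ) + 1) * m0 k := by
  rw [mom_sum [] hk]
  simp_rw [h2 _ _ k hk]
  simp

lemma total_mass (hsupp : lam {t | ∀ k : ℕ, ‖t‖ ≠ Real.pi * k} = 0)
    (h0 : lam.real {0} = ((m : ℝ) + 1) / 3) : lam.real Set.univ = (m : ℝ) + 1 := by
  have hs := hasSum_spheres hsupp (G := fun _ => (1 : ℝ)) (integrable_const 1)
  have hs1 := (hasSum_m0.mul_left ((m : ℝ) + 1))
  have e1 : ∀ k : ℕ, ((m : ℝ) + 1) * m0 (k + 1) = ∫ t in Sp (m + 1) (k + 1), (1 : ℝ) ∂lam := by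
    intro k
    rw [← mom_nil h2 (by omega)]
    simp [mom]
  rw [funext e1] at hs1
  have hs2 := (hasSum_nat_add_iff (f := fun k => ∫ t in Sp (m + 1) k, (1 : ℝ) ∂lam) 1).mp hs1
  have hs3 := hs.unique hs2
  rw [Finset.sum_range_one, Sp_zero] at hs3
  simp only [integral_const, smul_eq_mul, mul_one, MeasurableSet.univ,
    measureReal_restrict_apply, Set.univ_inter] at hs3
  rw [hs3, h0]
  ring

variable (h3 : ∀ L : List (Fin (m + 1)), 3 ≤ L.length →
    ∃ q : Polynomial ℝ, Adm L.length (L.length - 2) q ∧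
      ∀ k : ℕ, 1 ≤ k → mom lam L k = q.eval ((k : ℝ)⁻¹))
include h3

omit h2 in
lemma mom_one (j : Fin (m + 1)) {k : ℕ} (hk : 1 ≤ k) : mom lam [j] k = 0 := by
  rw [mom_sum [j] hk]
  apply Finset.sum_eq_zero
  intro i _
  obtain ⟨q, hq, hqk⟩ := h3 [i, i, j] (by simp)
  have hq0 : q = 0 := by
    ext a
    by_contra hne
    have h1 := hq a (by simpa using hne)
    simp at h1
    omega
  rw [hqk k hk, hq0, Polynomial.eval_zero]

/-- the functional vanishes for `Q = 1` -/
lemma DD_one_zero {h : V (m + 1) → ℂ} (hm : Measurable h) (hb : ∀ t, ‖h t‖ ≤ 1)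
    (hsupp : lam {t | ∀ k : ℕ, ‖t‖ ≠ Real.pi * k} = 0)
    (hh : ∀ᵐ t ∂lam, h t = -((Real.cos ‖t‖ : ℝ) : ℂ))
    (h0 : lam.real {0} = ((m : ℝ) + 1) / 3) (L : List (Fin (m + 1))) (M : ℕ)
    (hLM : (L.length : ℝ) < (M : ℝ) - m / 2) : DD lam h L 1 ((M : ℝ) - m / 2) = 0 := by
  have hL0 : (0 : ℝ) ≤ L.length := Nat.cast_nonneg _
  have hm0 : (0 : ℝ) ≤ (m : ℝ) / 2 := by positivity
  have hM' : (m : ℝ) / 2 < M := by linarith
  have hlM : L.length ≤ M := by
    have : (L.length : ℝ) ≤ M := by linarith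
    exact_mod_cast this
  rw [DD_one_eq hm hb hsupp hh L hLM]
  match L, hLM, hL0, hlM with
  | [], _, _, _ =>
    rw [integral_AL_nil hM']
    simp only [List.length_nil, if_true, pow_zero, one_mul]
    have e1 : ∫ s in (-1 : ℝ)..1, ser 0 (mom lam []) s * (Dp 0 M).eval s =
        ∫ s in (-1 : ℝ)..1, (((m : ℝ) + 1) * ((Wp M).eval s * s ^ 2) -
          (((m : ℝ) + 1) / 3) * (Wp M).eval s) := by
      apply integral_congr_Icc
      intro s hs
      rw [ser_congr (fun k hk => mom_nil h2 hk), ser_smul, ser_zero_m0 hs, Dp_zero]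
      ring
    have hc := (Wp M).continuous
    rw [e1, intervalIntegral.integral_sub, intervalIntegral.integral_const_mul,
      intervalIntegral.integral_const_mul, h0, ← Complex.ofReal_add, Complex.ofReal_eq_zero]
    · ring
    · exact (continuous_const.mul (hc.mul (continuous_pow 2))).intervalIntegrable _ _
    · exact (continuous_const.mul hc).intervalIntegrable _ _
  | [j], _, _, _ =>
    rw [integral_AL_one hM' j]
    have e1 : ∀ s : ℝ, ser 1 (mom lam [j]) s = 0 := by
      intro s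
      have e2 : ser 1 (mom lam [j]) s = ser 1 (fun _ => 0) s :=
        ser_congr (fun k hk => mom_one h3 j hk) s
      rw [e2]
      simp [ser, tm]
    simp [e1]
  | [i, j], _, _, hl =>
    rw [integral_AL_two hM' i j]
    have hl2 : 2 ≤ M := by simpa using hl
    have e1 : ∫ s in (-1 : ℝ)..1, ser 2 (mom lam [i, j]) s * (Dp 2 M).eval s =
        (if i = j then 1 else 0) * -(2 * ∫ s in (-1 : ℝ)..1, (Wp M).eval s) := by
      rw [← integral_ser_two_m0 hl2, ← intervalIntegral.integral_const_mul]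
      congr 1
      funext s
      rw [ser_congr (fun k hk => h2 i j k hk), ser_smul]
      ring
    have e3 : [i, j].length = 2 := rfl
    rw [e3, e1, ← Complex.ofReal_add, Complex.ofReal_eq_zero]
    simp only [reduceCtorEq, if_false, mul_zero, zero_add, even_two, Even.neg_pow, one_pow, one_mul]
    ring
  | (i :: j :: k :: L), _, _, hl =>
    have hlen : 3 ≤ (i :: j :: k :: L).length := by simp
    rw [integral_AL_ge hlen, add_zero]
    obtain ⟨q, hq, hqk⟩ := h3 _ hlen
    rw [orthogonal_of_coeff (by omega) hq hqk hl]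
    simp

/-- the Fourier transform on the ball -/
theorem hat_eq {h : V (m + 1) → ℂ} (hm : Measurable h) (hb : ∀ t, ‖h t‖ ≤ 1)
    (hsupp : lam {t | ∀ k : ℕ, ‖t‖ ≠ Real.pi * k} = 0)
    (hh : ∀ᵐ t ∂lam, h t = -((Real.cos ‖t‖ : ℝ) : ℂ))
    (h0 : lam.real {0} = ((m : ℝ) + 1) / 3) :
    ∀ ξ : V (m + 1), ‖ξ‖ ≤ 1 → hat lam h ξ = -((‖ξ‖ ^ 2 : ℝ) : ℂ) := by
  have hβ : (0 : ℝ) < ((m + 1 : ℕ) : ℝ) - m / 2 := by
    have hm0 : (0 : ℝ) ≤ (m : ℝ) / 2 := by positivity
    push_cast
    linarith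
  have h5 := DD_eq_zero_of_one (lam := lam) hm hb ((m : ℝ) / 2)
    (DD_one_zero h2 h3 hm hb hsupp hh h0)
  have h6 := eq_zero_of_orth (g := fun ξ : V (m + 1) => hat lam h ξ + ((‖ξ‖ ^ 2 : ℝ) : ℂ))
    ((hat_continuous hm hb).add (by fun_prop)) hβ (by
      intro Q
      rw [← DD_nil hm hb Q hβ]
      exact h5 Q [] (m + 1) (by simpa using hβ))
  intro ξ hξ
  exact eq_neg_of_add_eq_zero_left (h6 ξ hξ)

end

end Pool.Agent.Helper48
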