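import Mathlib

/-!
The weights `(1 - |ξ|²)_+^β` on the unit ball: differentiation, integration by parts and
one-dimensional marginals.
-/

open MeasureTheory

namespace Pool.Agent.Helper48

/-- Euclidean space -/
abbrev V (n : ℕ) : Type := EuclideanSpace ℝ (Fin n)

/-- the weight `(1 - |ξ|²)_+^β` -/
noncomputable def rho {n : ℕ} (β : ℝ) (ξ : V n) : ℝ := (max 0 (1 - ‖ξ‖ ^ 2)) ^ β

variable {n : ℕ}

lemma rho_continuous {β : ℝ} (hβ : 0 ≤ β) : Continuous (rho β : V n → ℝ) := by
  unfold rho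
  apply Continuous.rpow_const
  · fun_prop
  · intro x
    right
    exact hβ

lemma rho_nonneg (β : ℝ) (ξ : V n) : 0 ≤ rho β ξ := Real.rpow_nonneg (le_max_left _ _) _

lemma rho_eq_zero {β : ℝ} (hβ : β ≠ 0) {ξ : V n} (h : 1 ≤ ‖ξ‖) : rho β ξ = 0 := by
  unfold rho
  have : max 0 (1 - ‖ξ‖ ^ 2) = 0 := by
    apply max_eq_left
    nlinarith
  rw [this, Real.zero_rpow hβ]

lemma rho_pos {β : ℝ} {ξ : V n} (h : ‖ξ‖ < 1) : 0 < rho β ξ := by
  unfold rho
  apply Real.rpow_pos_of_pos
  apply lt_max_of_lt_right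
  nlinarith [norm_nonneg ξ]

lemma rho_le_one {β : ℝ} (hβ : 0 ≤ β) (ξ : V n) : rho β ξ ≤ 1 := by
  unfold rho
  apply Real.rpow_le_one (le_max_left _ _) _ hβ
  apply max_le zero_le_one
  nlinarith [norm_nonneg ξ]

lemma rho_hasCompactSupport {β : ℝ} (hβ : β ≠ 0) : HasCompactSupport (rho β : V n → ℝ) := by
  apply HasCompactSupport.intro (isCompact_closedBall (0 : V n) 1)
  intro x hx
  rw [mem_closedBall_zero_iff] at hx
  exact rho_eq_zero hβ (le_of_lt (not_le.mp hx))

/-- integrability of continuous functions times the weight -/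
lemma integrable_rho_smul {F : Type*} [NormedAddCommGroup F] [NormedSpace ℝ F] {β : ℝ}
    (hβ : 0 < β) {f : V n → F} (hf : Continuous f) : Integrable (fun ξ => rho β ξ • f ξ) := by
  apply Continuous.integrable_of_hasCompactSupport
  · exact (rho_continuous hβ.le).smul hf
  · exact (rho_hasCompactSupport hβ.ne').smul_right

/-- derivative of the truncated power -/
lemma hasDerivAt_trunc {β : ℝ} (hβ : 0 < β) (y : ℝ) :
    HasDerivAt (fun y : ℝ => (max 0 y) ^ (β + 1)) ((β + 1) * (max 0 y) ^ β) y := by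
  rcases lt_trichotomy y 0 with h | h | h
  · rw [max_eq_left h.le, Real.zero_rpow hβ.ne', mul_zero]
    have : (fun y : ℝ => (max 0 y) ^ (β + 1)) =ᶠ[nhds y] fun _ => 0 := by
      filter_upwards [Iio_mem_nhds h] with x hx
      rw [max_eq_left (le_of_lt hx), Real.zero_rpow (by linarith)]
    exact (hasDerivAt_const y (0 : ℝ)).congr_of_eventuallyEq this
  · subst h
    rw [max_self, Real.zero_rpow hβ.ne', mul_zero]
    rw [hasDerivAt_iff_isLittleO_nhds_zero]
    simp only [zero_add, max_self, smul_zero, sub_zero]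
    rw [Real.zero_rpow (by linarith : β + 1 ≠ 0)]
    simp only [sub_zero]
    rw [Asymptotics.isLittleO_iff]
    intro c hc
    have h0 : Filter.Tendsto (fun h : ℝ => |h| ^ β) (nhds 0) (nhds 0) := by
      have : Continuous fun h : ℝ => |h| ^ β := by
        apply Continuous.rpow_const continuous_abs
        intro x
        right
        exact hβ.le
      have h1 := this.tendsto 0
      simpa [Real.zero_rpow hβ.ne'] using h1
    filter_upwards [h0.eventually (gt_mem_nhds hc)] with h hh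
    rw [Real.norm_eq_abs, Real.norm_eq_abs, abs_of_nonneg (Real.rpow_nonneg (le_max_left _ _) _)]
    have h2 : max 0 h ≤ |h| := max_le (abs_nonneg _) (le_abs_self _)
    calc (max 0 h) ^ (β + 1) ≤ |h| ^ (β + 1) :=
          Real.rpow_le_rpow (le_max_left _ _) h2 (by linarith)
      _ = |h| ^ β * |h| := by
          rw [Real.rpow_add_one' (abs_nonneg _) (by linarith)]
      _ ≤ c * |h| := mul_le_mul_of_nonneg_right hh.le (abs_nonneg _)
  · rw [max_eq_right h.le]
    have h1 := Real.hasDerivAt_rpow_const (x := y) (p := β + 1) (Or.inl h.ne')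
    have h2 : β + 1 - 1 = β := by ring
    rw [h2] at h1
    refine h1.congr_of_eventuallyEq ?_
    filter_upwards [Ioi_mem_nhds h] with x hx
    rw [max_eq_right (le_of_lt hx)]

/-- line derivative of the weight in a coordinate direction -/
lemma hasLineDerivAt_rho {β : ℝ} (hβ : 0 < β) (ξ : V n) (j : Fin n) :
    HasLineDerivAt ℝ (rho (β + 1) : V n → ℝ) (-(2 * (β + 1) * (ξ j * rho β ξ))) ξ
      (EuclideanSpace.single j 1) := by
  have h1 : HasFDerivAt (fun ξ : V n => 1 - ‖ξ‖ ^ 2) (-(2 • (innerSL ℝ ξ))) ξ := by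
    have := (hasStrictFDerivAt_norm_sq ξ).hasFDerivAt.const_sub 1
    exact this
  have h2 := (hasDerivAt_trunc hβ (1 - ‖ξ‖ ^ 2)).comp_hasFDerivAt ξ h1
  have h3 := h2.hasLineDerivAt (EuclideanSpace.single j (1 : ℝ))
  have h4 : (((β + 1) * max 0 (1 - ‖ξ‖ ^ 2) ^ β) • (-(2 • (innerSL ℝ ξ))))
      (EuclideanSpace.single j (1 : ℝ)) = -(2 * (β + 1) * (ξ j * rho β ξ)) := by
    unfold rho
    simp [EuclideanSpace.inner_single_right]
    ring
  rw [h4] at h3
  exact h3

/-- evaluation of a polynomial at a point of Euclidean space -/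
noncomputable def pe (Q : MvPolynomial (Fin n) ℝ) (ξ : V n) : ℝ := MvPolynomial.eval (fun i => ξ i) Q

lemma pe_C (a : ℝ) (ξ : V n) : pe (MvPolynomial.C a) ξ = a := by simp [pe]
lemma pe_X (i : Fin n) (ξ : V n) : pe (MvPolynomial.X i) ξ = ξ i := by simp [pe]
lemma pe_add (P Q : MvPolynomial (Fin n) ℝ) (ξ : V n) : pe (P + Q) ξ = pe P ξ + pe Q ξ := by
  simp [pe]
lemma pe_mul (P Q : MvPolynomial (Fin n) ℝ) (ξ : V n) : pe (P * Q) ξ = pe P ξ * pe Q ξ := by
  simp [pe]
lemma pe_one (ξ : V n) : pe 1 ξ = 1 := by simp [pe]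
lemma pe_zero (ξ : V n) : pe 0 ξ = 0 := by simp [pe]

lemma pe_continuous (Q : MvPolynomial (Fin n) ℝ) : Continuous (pe Q) := by
  unfold pe
  have h1 : Continuous (fun x : Fin n → ℝ => MvPolynomial.eval x Q) := MvPolynomial.continuous_eval Q
  have h2 : Continuous (fun ξ : V n => (fun i => ξ i : Fin n → ℝ)) := by fun_prop
  exact h1.comp h2

lemma hasLineDerivAt_coord (i j : Fin n) (ξ : V n) :
    HasLineDerivAt ℝ (fun ξ : V n => ξ i) (if i = j then 1 else 0) ξ
      (EuclideanSpace.single j 1) := by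
  have h1 : HasFDerivAt (fun ξ : V n => ξ i) (EuclideanSpace.proj i : V n →L[ℝ] ℝ) ξ :=
    (EuclideanSpace.proj i : V n →L[ℝ] ℝ).hasFDerivAt
  have h2 := h1.hasLineDerivAt (EuclideanSpace.single j (1 : ℝ))
  have h3 : (EuclideanSpace.proj i : V n →L[ℝ] ℝ) (EuclideanSpace.single j (1 : ℝ)) =
      if i = j then 1 else 0 := by
    simp
  rw [h3] at h2
  exact h2

lemma hasLineDerivAt_mul {f g : V n → ℝ} {f' g' : ℝ} {x v : V n}
    (hf : HasLineDerivAt ℝ f f' x v) (hg : HasLineDerivAt ℝ g g' x v) :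
    HasLineDerivAt ℝ (fun y => f y * g y) (f' * g x + f x * g') x v := by
  have h := HasDerivAt.mul hf hg
  simp only [zero_smul, add_zero] at h
  exact h

lemma hasLineDerivAt_pe (Q : MvPolynomial (Fin n) ℝ) (j : Fin n) (ξ : V n) :
    HasLineDerivAt ℝ (pe Q) (pe (MvPolynomial.pderiv j Q) ξ) ξ (EuclideanSpace.single j 1) := by
  induction Q using MvPolynomial.induction_on with
  | C a =>
    have : (pe (MvPolynomial.C a) : V n → ℝ) = fun _ => a := by funext ξ; exact pe_C a ξ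
    rw [this, MvPolynomial.pderiv_C, pe_zero]
    exact hasDerivAt_const _ _
  | add P Q hP hQ =>
    have : (pe (P + Q) : V n → ℝ) = fun ξ => pe P ξ + pe Q ξ := by funext ξ; exact pe_add P Q ξ
    rw [this, map_add, pe_add]
    exact HasDerivAt.add hP hQ
  | mul_X P i hP =>
    have : (pe (P * MvPolynomial.X i) : V n → ℝ) = fun ξ => pe P ξ * ξ i := by
      funext ξ; rw [pe_mul, pe_X]
    rw [this]
    have h1 := hasLineDerivAt_mul hP (hasLineDerivAt_coord i j ξ)
    have h2 : pe (MvPolynomial.pderiv j (P * MvPolynomial.X i)) ξ =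
        pe (MvPolynomial.pderiv j P) ξ * ξ i + pe P ξ * (if i = j then 1 else 0) := by
      rw [MvPolynomial.pderiv_mul, pe_add, pe_mul, pe_mul, pe_X, MvPolynomial.pderiv_X]
      congr 1
      by_cases hij : i = j
      · subst hij; simp [pe_one]
      · simp [hij, pe_zero]
    rw [h2]
    exact h1

/-- **Integration by parts** with the weight `Q(ξ) (1-|ξ|²)_+^{β+1}`. -/
theorem ibp_rho {β : ℝ} (hβ : 0 < β) (Q : MvPolynomial (Fin n) ℝ) (j : Fin n)
    {φ φ' : V n → ℂ} (hφ : Continuous φ) (hφ' : Continuous φ')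
    (hd : ∀ x, HasLineDerivAt ℝ φ (φ' x) x (EuclideanSpace.single j 1)) :
    ∫ ξ, (pe Q ξ * rho (β + 1) ξ) • φ' ξ =
      - ∫ ξ, (pe (MvPolynomial.pderiv j Q) ξ * rho (β + 1) ξ -
          2 * (β + 1) * (pe (MvPolynomial.X j * Q) ξ * rho β ξ)) • φ ξ := by
  have hb1 : (0 : ℝ) < β + 1 := by linarith
  have hint : ∀ {γ : ℝ} (hγ : 0 < γ) (P : MvPolynomial (Fin n) ℝ) {ψ : V n → ℂ},
      Continuous ψ → Integrable (fun ξ => (pe P ξ * rho γ ξ) • ψ ξ) := by
    intro γ hγ P ψ hψ
    have h1 := integrable_rho_smul hγ (n := n) (f := fun ξ => pe P ξ • ψ ξ)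
      ((pe_continuous P).smul hψ)
    have h2 : (fun ξ => (pe P ξ * rho γ ξ) • ψ ξ) = fun ξ => rho γ ξ • pe P ξ • ψ ξ := by
      funext ξ
      rw [smul_smul, mul_comm]
    rw [h2]
    exact h1
  have h := integral_bilinear_hasLineDerivAt_right_eq_neg_left_of_integrable (μ := volume)
    (f := fun ξ : V n => pe Q ξ * rho (β + 1) ξ)
    (f' := fun ξ : V n => pe (MvPolynomial.pderiv j Q) ξ * rho (β + 1) ξ -
          2 * (β + 1) * (pe (MvPolynomial.X j * Q) ξ * rho β ξ))
    (g := φ) (g' := φ') (v := EuclideanSpace.single j (1 : ℝ))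
    (B := ContinuousLinearMap.lsmul ℝ ℝ) ?_ ?_ ?_ ?_ ?_
  · exact h
  · simp only [ContinuousLinearMap.lsmul_apply, sub_smul]
    apply Integrable.sub
    · exact hint hb1 _ hφ
    · simp_rw [mul_smul (2 * (β + 1))]
      exact (hint hβ (MvPolynomial.X j * Q) hφ).smul (2 * (β + 1))
  · simp only [ContinuousLinearMap.lsmul_apply]
    exact hint hb1 _ hφ'
  · simp only [ContinuousLinearMap.lsmul_apply]
    exact hint hb1 _ hφ
  · intro ξ _
    have h1 := hasLineDerivAt_mul (hasLineDerivAt_pe Q j ξ) (hasLineDerivAt_rho hβ ξ j)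
    have h2 : pe (MvPolynomial.pderiv j Q) ξ * rho (β + 1) ξ -
          2 * (β + 1) * (pe (MvPolynomial.X j * Q) ξ * rho β ξ) =
        pe (MvPolynomial.pderiv j Q) ξ * rho (β + 1) ξ +
          pe Q ξ * (-(2 * (β + 1) * (ξ j * rho β ξ))) := by
      rw [pe_mul, pe_X]; ring
    rw [h2]
    exact h1
  · intro ξ _
    exact hd ξ

end Pool.Agent.Helper48
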