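import Pool.Agent.Helper48.Struct

/-!
Evaluation of `∫ P_L F h dλ` when `h = -cos |t|` and `λ` is carried by the spheres `|t| = πk`.
-/

open MeasureTheory

namespace Pool.Agent.Helper48

variable {m : ℕ} {lam : Measure (V (m + 1))} [IsFiniteMeasure lam] {h : V (m + 1) → ℂ}

omit [IsFiniteMeasure lam] in
lemma setIntegral_Sp_PR {k : ℕ} (hk : 1 ≤ k) (L : List (Fin (m + 1))) :
    ∫ t in Sp (m + 1) k, PR L t ∂lam = (Real.pi * k) ^ L.length * mom lam L k := by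
  have hc : (Real.pi * (k : ℝ)) ≠ 0 :=
    mul_ne_zero Real.pi_ne_zero (by exact_mod_cast (by omega : k ≠ 0))
  unfold mom
  simp_rw [prod_div]
  rw [integral_div]
  field_simp

omit [IsFiniteMeasure lam] in
lemma setIntegral_Sp_zero_PR [IsFiniteMeasure lam] (L : List (Fin (m + 1))) :
    ∫ t in Sp (m + 1) 0, PR L t ∂lam = if L = [] then lam.real {0} else 0 := by
  rw [Sp_zero, integral_singleton]
  cases L with
  | nil => simp [PR]
  | cons j L => simp [PR]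

/-- the value of the integral -/
theorem integral_PL_FF (hm : Measurable h) (hb : ∀ t, ‖h t‖ ≤ 1)
    (hsupp : lam {t | ∀ k : ℕ, ‖t‖ ≠ Real.pi * k} = 0)
    (hh : ∀ᵐ t ∂lam, h t = -((Real.cos ‖t‖ : ℝ) : ℂ)) (L : List (Fin (m + 1))) {M : ℕ}
    (hM : (L.length : ℝ) < (M : ℝ) - m / 2) :
    ∫ t, PL L t * FF 1 ((M : ℝ) - m / 2) t * h t ∂lam =
      ((-(Cst m ((M : ℝ) - m / 2) * ((∫ s in (-1 : ℝ)..1, (Wp M).eval s) *
        (if L = [] then lam.real {0} else 0) +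
        (-1) ^ L.length * ∫ s in (-1 : ℝ)..1, ser L.length (mom lam L) s *
          (Dp L.length M).eval s)) : ℝ) : ℂ) := by
  have hL0 : (0 : ℝ) ≤ L.length := Nat.cast_nonneg _
  have hm0 : (0 : ℝ) ≤ (m : ℝ) / 2 := by positivity
  have hM' : (m : ℝ) / 2 < M := by linarith
  have hlM : L.length ≤ M := by
    have : (L.length : ℝ) ≤ M := by linarith
    exact_mod_cast this
  have hint := integrable_PL_FF (lam := lam) hm hb L 1 hM
  have hs1 := hasSum_spheres hsupp hint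
  -- the terms
  set r : ℕ → ℝ := fun k => -((-1) ^ k * Cst m ((M : ℝ) - m / 2) * FM M (Real.pi * k) *
    ∫ t in Sp (m + 1) k, PR L t ∂lam) with hr
  have hterm : ∀ k : ℕ, ∫ t in Sp (m + 1) k, PL L t * FF 1 ((M : ℝ) - m / 2) t * h t ∂lam =
      ((r k : ℝ) : ℂ) := by
    intro k
    have e1 : ∫ t in Sp (m + 1) k, PL L t * FF 1 ((M : ℝ) - m / 2) t * h t ∂lam =
        ∫ t in Sp (m + 1) k, (((-((-1) ^ k * Cst m ((M : ℝ) - m / 2) * FM M (Real.pi * k))) *
          PR L t : ℝ) : ℂ) ∂lam := by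
      apply setIntegral_congr_ae (measurableSet_Sp k)
      filter_upwards [hh] with t ht htS
      rw [mem_Sp] at htS
      rw [ht, PL_eq, FF_one hM', htS]
      have : Real.cos (Real.pi * k) = (-1) ^ k := by
        rw [mul_comm]; exact Real.cos_nat_mul_pi k
      rw [this]
      push_cast
      ring
    rw [e1, cint, integral_const_mul, hr]
    congr 1
    ring
  rw [funext hterm] at hs1
  -- the real series
  have hs2 := (hasSum_Dp (l := L.length) (summable_mom (lam := lam) L) hlM).mul_left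
    (-(Cst m ((M : ℝ) - m / 2) * (-1) ^ L.length))
  have hterm2 : ∀ k : ℕ, -(Cst m ((M : ℝ) - m / 2) * (-1) ^ L.length) *
      ((-1) ^ (k + 1) * mom lam L (k + 1) * ((-(Real.pi * ((k + 1 : ℕ) : ℝ))) ^ L.length *
        ∫ s in (-1 : ℝ)..1, Real.cos (Real.pi * ((k + 1 : ℕ) : ℝ) * s) * (Wp M).eval s)) =
      r (k + 1) := by
    intro k
    rw [hr]
    simp only
    rw [setIntegral_Sp_PR (by omega) L]
    have e2 : (∫ s in (-1 : ℝ)..1, Real.cos (Real.pi * ((k + 1 : ℕ) : ℝ) * s) * (Wp M).eval s) =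
      FM M (Real.pi * ((k + 1 : ℕ) : ℝ)) := rfl
    rw [e2, neg_pow (Real.pi * ((k + 1 : ℕ) : ℝ))]
    have hsq : ((-1 : ℝ) ^ L.length) * (-1) ^ L.length = 1 := by
      rw [← mul_pow]; norm_num
    linear_combination (-(Cst m ((M : ℝ) - m / 2) * (-1) ^ (k + 1) * mom lam L (k + 1) *
      (Real.pi * ((k + 1 : ℕ) : ℝ)) ^ L.length * FM M (Real.pi * ((k + 1 : ℕ) : ℝ)))) * hsq
  rw [funext hterm2] at hs2
  have hs3 := (hasSum_nat_add_iff 1).mp hs2
  have hs4 := hs1.unique ((Complex.hasSum_ofReal).mpr hs3)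
  rw [hs4]
  congr 1
  rw [Finset.sum_range_one, hr]
  simp only
  rw [setIntegral_Sp_zero_PR]
  have e3 : FM M (Real.pi * ((0 : ℕ) : ℝ)) = ∫ s in (-1 : ℝ)..1, (Wp M).eval s := by
    unfold FM
    simp
  rw [e3]
  ring

/-- consequences of `D(L,1,M-m/2) = 0` and conversely -/
lemma DD_one_eq (hm : Measurable h) (hb : ∀ t, ‖h t‖ ≤ 1)
    (hsupp : lam {t | ∀ k : ℕ, ‖t‖ ≠ Real.pi * k} = 0)
    (hh : ∀ᵐ t ∂lam, h t = -((Real.cos ‖t‖ : ℝ) : ℂ)) (L : List (Fin (m + 1))) {M : ℕ}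
    (hM : (L.length : ℝ) < (M : ℝ) - m / 2) :
    DD lam h L 1 ((M : ℝ) - m / 2) = ((-(Cst m ((M : ℝ) - m / 2) *
      ((∫ s in (-1 : ℝ)..1, (Wp M).eval s) * (if L = [] then lam.real {0} else 0) +
        (-1) ^ L.length * ∫ s in (-1 : ℝ)..1, ser L.length (mom lam L) s *
          (Dp L.length M).eval s)) : ℝ) : ℂ) +
      ∫ ξ : V (m + 1), (pe 1 ξ * rho ((M : ℝ) - m / 2) ξ) • AL L ξ := by
  unfold DD
  rw [integral_PL_FF hm hb hsupp hh L hM]

end Pool.Agent.Helper48
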