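import Pool.Agent.Helper48.OneDimPoly

/-!
Explicit one-dimensional series and integrals.
-/

open Polynomial MeasureTheory intervalIntegral

namespace Pool.Agent.Helper48

/-- the basic coefficients `4/(π²k²)` -/
noncomputable def m0 (k : ℕ) : ℝ := 4 / (Real.pi ^ 2 * (k : ℝ) ^ 2)

lemma m0_nonneg (k : ℕ) : 0 ≤ m0 k := by unfold m0; positivity

lemma hasSum_m0 : HasSum (fun k : ℕ => m0 (k + 1)) (2 / 3) := by
  have h1 := (hasSum_nat_add_iff' 1).mpr hasSum_zeta_two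
  have h2 := h1.mul_left (4 / Real.pi ^ 2)
  have hpi := Real.pi_pos
  have hterm : ∀ k : ℕ, m0 (k + 1) = 4 / Real.pi ^ 2 * (1 / ((k + 1 : ℕ) : ℝ) ^ 2) := by
    intro k
    unfold m0
    field_simp
  have hval : (2 / 3 : ℝ) = 4 / Real.pi ^ 2 * (Real.pi ^ 2 / 6 -
      ∑ i ∈ Finset.range 1, 1 / ((i : ℕ) : ℝ) ^ 2) := by
    simp only [Finset.range_one, Finset.sum_singleton, Nat.cast_zero, ne_eq, OfNat.ofNat_ne_zero,
      not_false_eq_true, zero_pow, div_zero, sub_zero]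
    field_simp
    norm_num
  rw [funext hterm, hval]
  exact h2

lemma summable_m0 : Summable fun k : ℕ => |m0 (k + 1)| := by
  simp_rw [abs_of_nonneg (m0_nonneg _)]
  exact hasSum_m0.summable

lemma bernoulli_two_eval (x : ℝ) :
    ((Polynomial.bernoulli 2).map (algebraMap ℚ ℝ)).eval x = x ^ 2 - x + 1 / 6 := by
  have h : Polynomial.bernoulli 2 = C (1 / 6 : ℚ) - X + X ^ 2 := by
    rw [Polynomial.bernoulli]
    have h1 : _root_.bernoulli 2 = 1 / 6 := by
      rw [bernoulli_eq_bernoulli'_of_ne_one (by decide : 2 ≠ 1), bernoulli'_two]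
    have h2 : (C (-1 / 2 : ℚ) : ℚ[X]) * 2 = -1 := by
      rw [show (2 : ℚ[X]) = C 2 from rfl, ← C_mul]
      norm_num
    simp [Finset.sum_range_succ, _root_.bernoulli_one, h1, ← C_mul_X_pow_eq_monomial]
    linear_combination X * h2
  rw [h]
  simp
  ring

lemma ser_zero_m0 {s : ℝ} (hs : s ∈ Set.Icc (-1 : ℝ) 1) : ser 0 m0 s = s ^ 2 - 1 / 3 := by
  unfold ser
  apply HasSum.tsum_eq
  have hx : (1 + s) / 2 ∈ Set.Icc (0 : ℝ) 1 := by
    constructor <;> linarith [hs.1, hs.2]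
  have h1 := hasSum_one_div_nat_pow_mul_cos one_ne_zero hx
  have h2 := (hasSum_nat_add_iff' 1).mpr h1
  have h3 := h2.mul_left (4 / Real.pi ^ 2)
  have hpi := Real.pi_pos
  have hterm : ∀ k : ℕ, tm 0 m0 (k + 1) s = 4 / Real.pi ^ 2 *
      (1 / ((k + 1 : ℕ) : ℝ) ^ (2 * 1) *
        Real.cos (2 * Real.pi * ((k + 1 : ℕ) : ℝ) * ((1 + s) / 2))) := by
    intro k
    unfold tm cs m0
    have e1 : 2 * Real.pi * ((k + 1 : ℕ) : ℝ) * ((1 + s) / 2) =
        Real.pi * ((k + 1 : ℕ) : ℝ) * s + ((k + 1 : ℕ) : ℝ) * Real.pi := by ring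
    rw [e1, Real.cos_add_nat_mul_pi]
    simp only [CharP.cast_eq_zero, zero_mul, sub_zero, mul_one]
    field_simp
  rw [funext hterm]
  have hval : (4 / Real.pi ^ 2 * ((-1 : ℝ) ^ (1 + 1) * (2 * Real.pi) ^ (2 * 1) / 2 /
      ((2 * 1).factorial : ℝ) * (Polynomial.map (algebraMap ℚ ℝ)
        (Polynomial.bernoulli (2 * 1))).eval ((1 + s) / 2) -
      ∑ k ∈ Finset.range 1, 1 / ((k : ℕ) : ℝ) ^ (2 * 1) *
        Real.cos (2 * Real.pi * ((k : ℕ) : ℝ) * ((1 + s) / 2)))) = s ^ 2 - 1 / 3 := by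
    simp only [Finset.range_one, Finset.sum_singleton, Nat.cast_zero, ne_eq, OfNat.ofNat_ne_zero,
      not_false_eq_true, zero_pow, div_zero, zero_mul, sub_zero, mul_one, bernoulli_two_eval]
    simp only [Nat.factorial]
    push_cast
    field_simp
    ring
  rw [hval] at h3
  exact h3

lemma cs_two (k : ℕ) (s : ℝ) : cs 2 k s = -cs 0 k s := by
  unfold cs
  have : Real.pi * (k : ℝ) * s - ((2 : ℕ) : ℝ) * (Real.pi / 2) = Real.pi * k * s - Real.pi := by
    push_cast; ring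
  rw [this, Real.cos_sub_pi]
  simp

lemma ser_two_m0 {s : ℝ} (hs : s ∈ Set.Icc (-1 : ℝ) 1) : ser 2 m0 s = -(s ^ 2 - 1 / 3) := by
  rw [← ser_zero_m0 hs]
  unfold ser
  rw [← tsum_neg]
  congr 1
  funext k
  unfold tm
  rw [cs_two]
  ring

lemma integral_congr_Icc {f g : ℝ → ℝ} (h : ∀ s ∈ Set.Icc (-1 : ℝ) 1, f s = g s) :
    ∫ s in (-1 : ℝ)..1, f s = ∫ s in (-1 : ℝ)..1, g s := by
  apply intervalIntegral.integral_congr
  intro s hs
  rw [Set.uIcc_of_le (by norm_num)] at hs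
  exact h s hs

/-- `∫ s² D² W_M = 2 ∫ W_M` -/
lemma integral_sq_Dp_two {M : ℕ} (hM : 2 ≤ M) :
    ∫ s in (-1 : ℝ)..1, s ^ 2 * (Dp 2 M).eval s = 2 * ∫ s in (-1 : ℝ)..1, (Wp M).eval s := by
  have h1 := ibp (f := fun s => s ^ 2) (f' := fun s => 2 * s) (p := Dp 1 M)
    (fun x => by simpa using hasDerivAt_pow 2 x) (by fun_prop) (Dp_eval_one (by omega))
    (Dp_eval_neg_one (by omega))
  have h2 := ibp (f := fun s => 2 * s) (f' := fun _ => 2) (p := Dp 0 M)
    (fun x => by simpa using (hasDerivAt_id x).const_mul 2) (by fun_prop) (Dp_eval_one (by omega))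
    (Dp_eval_neg_one (by omega))
  rw [← Dp_succ] at h1 h2
  simp only [Nat.reduceAdd, zero_add] at h1 h2
  rw [h1, h2, neg_neg, intervalIntegral.integral_const_mul, Dp_zero]

/-- `∫ ser 2 m0 D² W_M = -2 ∫ W_M` -/
lemma integral_ser_two_m0 {M : ℕ} (hM : 2 ≤ M) :
    ∫ s in (-1 : ℝ)..1, ser 2 m0 s * (Dp 2 M).eval s = -(2 * ∫ s in (-1 : ℝ)..1, (Wp M).eval s) := by
  have h1 : ∫ s in (-1 : ℝ)..1, ser 2 m0 s * (Dp 2 M).eval s =
      ∫ s in (-1 : ℝ)..1, ((1 / 3) * (Dp 2 M).eval s - s ^ 2 * (Dp 2 M).eval s) := by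
    apply integral_congr_Icc
    intro s hs
    rw [ser_two_m0 hs]
    ring
  have h2 := integral_poly_Dp hM (C (1 / 3)) (by
    refine lt_of_le_of_lt degree_C_le ?_
    norm_num)
  simp only [eval_C] at h2
  rw [h1, intervalIntegral.integral_sub, h2, integral_sq_Dp_two hM, zero_sub]
  · apply Continuous.intervalIntegrable; fun_prop
  · apply Continuous.intervalIntegrable; fun_prop

/-- scaling and subtraction of the series -/
lemma ser_sub_smul {l : ℕ} {m m' : ℕ → ℝ} (hm : Summable fun k : ℕ => |m (k + 1)|)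
    (hm' : Summable fun k : ℕ => |m' (k + 1)|) (c : ℝ) (s : ℝ) :
    ser l (fun k => m k - c * m' k) s = ser l m s - c * ser l m' s := by
  unfold ser
  rw [← tsum_mul_left, ← (summable_tm hm s).tsum_sub ((summable_tm hm' s).mul_left c)]
  congr 1
  funext k
  unfold tm
  ring

lemma integral_ser_sub {l : ℕ} {m : ℕ → ℝ} (hm : Summable fun k : ℕ => |m (k + 1)|)
    {m' : ℕ → ℝ} (hm' : Summable fun k : ℕ => |m' (k + 1)|) (c : ℝ) (p : ℝ[X]) :
    ∫ s in (-1 : ℝ)..1, ser l (fun k => m k - c * m' k) s * p.eval s =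
      (∫ s in (-1 : ℝ)..1, ser l m s * p.eval s) -
        c * ∫ s in (-1 : ℝ)..1, ser l m' s * p.eval s := by
  have h1 : ∀ s : ℝ, ser l (fun k => m k - c * m' k) s * p.eval s =
      ser l m s * p.eval s - c * (ser l m' s * p.eval s) := by
    intro s
    rw [ser_sub_smul hm hm']
    ring
  have c1 : Continuous (fun s => ser l m s * p.eval s) := (ser_continuous hm).mul p.continuous
  have c2 : Continuous (fun s => ser l m' s * p.eval s) := (ser_continuous hm').mul p.continuous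
  rw [funext h1]
  rw [intervalIntegral.integral_sub (c1.intervalIntegrable _ _)
    ((c2.const_mul c).intervalIntegrable _ _), intervalIntegral.integral_const_mul]

/-- **Degree two.** -/
theorem coeff_two {N : ℕ} {m : ℕ → ℝ} (hm : Summable fun k : ℕ => |m (k + 1)|) (c : ℝ)
    (horth : ∀ M : ℕ, N + 2 ≤ M → ∫ s in (-1 : ℝ)..1, ser 2 m s * (Dp 2 M).eval s =
      -(2 * c * ∫ s in (-1 : ℝ)..1, (Wp M).eval s)) (k : ℕ) (hk : 1 ≤ k) :
    m k = c * m0 k := by
  obtain ⟨m', hm'def⟩ : ∃ m' : ℕ → ℝ, m' = fun k => m k - c * m0 k := ⟨_, rfl⟩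
  have hm' : Summable fun k : ℕ => |m' (k + 1)| := by
    rw [hm'def]
    apply Summable.abs
    exact (hm.of_abs).sub ((summable_m0.of_abs).mul_left c)
  have horth' : ∀ M : ℕ, N + 2 ≤ M →
      ∫ s in (-1 : ℝ)..1, ser 2 m' s * (Dp 2 M).eval s = 0 := by
    intro M hM
    have h1 := integral_ser_sub (l := 2) hm summable_m0 c (Dp 2 M)
    rw [← hm'def] at h1
    rw [h1, horth M hM, integral_ser_two_m0 (by omega)]
    ring
  obtain ⟨q, hq, hqk⟩ := coeff_of_orthogonal hm' horth'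
  have hq0 : q = 0 := by
    ext a
    by_contra hne
    have h1 := hq a (by simpa using hne)
    omega
  have h2 := hqk k hk
  rw [hq0, eval_zero, hm'def] at h2
  exact sub_eq_zero.mp h2

end Pool.Agent.Helper48
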