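import Pool.Agent.Helper48.Eval

/-!
Necessity: the structure of an extremal measure.
-/

open MeasureTheory

namespace Pool.Agent.Helper48

variable {m : ℕ} {lam : Measure (V (m + 1))} [IsFiniteMeasure lam] {h : V (m + 1) → ℂ}

lemma integrable_cos_re (hm : Measurable h) (hb : ∀ t, ‖h t‖ = 1) (s : ℝ) :
    Integrable (fun t => Real.cos (‖t‖ * s) * (h t).re) lam := by
  apply Integrable.of_bound (C := 1)
  · apply Measurable.aestronglyMeasurable
    exact (by fun_prop : Measurable fun t : V (m + 1) => Real.cos (‖t‖ * s)).mul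
      (Complex.measurable_re.comp hm)
  · filter_upwards with t
    rw [norm_mul]
    calc ‖Real.cos (‖t‖ * s)‖ * ‖(h t).re‖ ≤ 1 * 1 := by
          apply mul_le_mul _ _ (norm_nonneg _) zero_le_one
          · exact Real.abs_cos_le_one _
          · rw [← hb t]; exact Complex.abs_re_le_norm _
      _ = 1 := one_mul 1

/-- the function `s ↦ ∫ cos(|t| s) Re h dλ` -/
noncomputable def gg (lam : Measure (V (m + 1))) (h : V (m + 1) → ℂ) (s : ℝ) : ℝ :=
  ∫ t, Real.cos (‖t‖ * s) * (h t).re ∂lam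

lemma gg_continuous (hm : Measurable h) (hb : ∀ t, ‖h t‖ = 1) : Continuous (gg lam h) := by
  unfold gg
  apply continuous_of_dominated (bound := fun _ => 1)
  · intro s
    exact (integrable_cos_re hm hb s).aestronglyMeasurable
  · intro s
    filter_upwards with t
    rw [norm_mul]
    calc ‖Real.cos (‖t‖ * s)‖ * ‖(h t).re‖ ≤ 1 * 1 := by
          apply mul_le_mul _ _ (norm_nonneg _) zero_le_one
          · exact Real.abs_cos_le_one _
          · rw [← hb t]; exact Complex.abs_re_le_norm _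
      _ = 1 := one_mul 1
  · exact integrable_const 1
  · filter_upwards with t
    fun_prop

lemma fubini_cos (hm : Measurable h) (hb : ∀ t, ‖h t‖ = 1) (M : ℕ) :
    ∫ s in (-1 : ℝ)..1, gg lam h s * (Wp M).eval s = ∫ t, FM M ‖t‖ * (h t).re ∂lam := by
  have h1 : ∀ s : ℝ, gg lam h s * (Wp M).eval s =
      ∫ t, Real.cos (‖t‖ * s) * (Wp M).eval s * (h t).re ∂lam := by
    intro s
    unfold gg
    rw [← integral_mul_const]
    congr 1
    funext t
    ring
  have h2 : ∀ t : V (m + 1), FM M ‖t‖ * (h t).re =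
      ∫ s in Set.Ioc (-1 : ℝ) 1, Real.cos (‖t‖ * s) * (Wp M).eval s * (h t).re := by
    intro t
    unfold FM
    rw [intervalIntegral.integral_of_le (by norm_num), ← integral_mul_const]
  rw [intervalIntegral.integral_of_le (by norm_num), funext h2]
  simp_rw [h1]
  apply integral_integral_swap
  have hW : Integrable (fun s : ℝ => |(Wp M).eval s|) (volume.restrict (Set.Ioc (-1 : ℝ) 1)) := by
    have := ((Wp M).continuous.abs.intervalIntegrable (μ := volume) (-1) 1)
    rwa [intervalIntegrable_iff_integrableOn_Ioc_of_le (by norm_num)] at this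
  have hprod : Integrable (fun p : ℝ × V (m + 1) => |(Wp M).eval p.1| * (1 : ℝ))
      ((volume.restrict (Set.Ioc (-1 : ℝ) 1)).prod lam) :=
    Integrable.mul_prod hW (integrable_const (1 : ℝ))
  refine hprod.mono' ?_ ?_
  · apply Measurable.aestronglyMeasurable
    have c1 : Continuous (fun p : ℝ × V (m + 1) => Real.cos (‖p.2‖ * p.1) * (Wp M).eval p.1) := by
      have := (Wp M).continuous
      fun_prop
    exact c1.measurable.mul ((Complex.measurable_re.comp hm).comp measurable_snd)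
  · filter_upwards with p
    change ‖Real.cos (‖p.2‖ * p.1) * (Wp M).eval p.1 * (h p.2).re‖ ≤ |(Wp M).eval p.1| * 1
    rw [norm_mul, norm_mul]
    have b1 : ‖Real.cos (‖p.2‖ * p.1)‖ ≤ 1 := Real.abs_cos_le_one _
    have b2 : ‖(h p.2).re‖ ≤ 1 := by rw [← hb p.2]; exact Complex.abs_re_le_norm _
    have b3 : ‖Real.cos (‖p.2‖ * p.1)‖ * ‖(Wp M).eval p.1‖ ≤ 1 * ‖(Wp M).eval p.1‖ :=
      mul_le_mul_of_nonneg_right b1 (norm_nonneg _)
    rw [one_mul] at b3
    exact mul_le_mul b3 b2 (norm_nonneg _) (abs_nonneg _)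

/-- `∫ cos(|t| s) Re h dλ = -n s²` on `[-1,1]` -/
lemma gg_eq (hm : Measurable h) (hb : ∀ t, ‖h t‖ = 1)
    (hhat : ∀ ξ : V (m + 1), ‖ξ‖ ≤ 1 → hat lam h ξ = -((‖ξ‖ ^ 2 : ℝ) : ℂ)) :
    ∀ s ∈ Set.Icc (-1 : ℝ) 1, gg lam h s = -((m + 1) * s ^ 2) := by
  have hcont := gg_continuous (lam := lam) hm hb
  have key : ∀ M : ℕ, (m + 1) + 0 ≤ M →
      ∫ s in (-1 : ℝ)..1, (gg lam h s + (m + 1) * s ^ 2) * (Dp 0 M).eval s = 0 := by
    intro M hM
    have hM' : (m : ℝ) / 2 < M := by
      have h1 : ((m : ℝ) + 1) ≤ M := by exact_mod_cast hM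
      have h2 : (0 : ℝ) ≤ m := Nat.cast_nonneg m
      linarith
    have hβ : (0 : ℝ) < (M : ℝ) - m / 2 := by linarith
    have hDD := DD_eq_zero (lam := lam) hm (fun t => (hb t).le) (fun ξ hξ => hhat ξ hξ.le) []
      1 ((M : ℝ) - m / 2) (by simpa using hβ)
    unfold DD at hDD
    rw [integral_AL_nil hM'] at hDD
    have hpl : ∀ t : V (m + 1), PL [] t * FF 1 ((M : ℝ) - m / 2) t * h t =
        ((Cst m ((M : ℝ) - m / 2) : ℝ) : ℂ) * ((FM M ‖t‖ : ℝ) * h t) := by
      intro t
      have : PL ([] : List (Fin (m + 1))) t = 1 := rfl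
      rw [this, one_mul, FF_one hM']
      push_cast
      ring
    rw [funext hpl, integral_const_mul] at hDD
    have hC := Cst_pos (m := m) hβ
    -- real part
    have hFMc : Continuous (fun t : V (m + 1) => FM M ‖t‖) := by
      have h0 := FF_continuous (n := m + 1) hβ 1
      have h1 : (fun t : V (m + 1) => FM M ‖t‖) = fun t => (FF 1 ((M : ℝ) - m / 2) t).re /
          Cst m ((M : ℝ) - m / 2) := by
        funext t
        rw [FF_one hM', Complex.ofReal_re, mul_div_cancel_left₀ _ hC.ne']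
      rw [h1]
      exact (Complex.continuous_re.comp h0).div_const _
    have hint : Integrable (fun t => ((FM M ‖t‖ : ℝ) : ℂ) * h t) lam := by
      have h0 := integrable_PL_FF (lam := lam) hm (fun t => (hb t).le) [] 1
        (β := (M : ℝ) - m / 2) (by simpa using hβ)
      rw [funext hpl] at h0
      have h1 := h0.const_mul (((Cst m ((M : ℝ) - m / 2))⁻¹ : ℝ) : ℂ)
      refine h1.congr ?_
      filter_upwards with t
      rw [← mul_assoc, ← Complex.ofReal_mul, inv_mul_cancel₀ hC.ne', Complex.ofReal_one, one_mul]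
    have hre : (∫ t, ((FM M ‖t‖ : ℝ) : ℂ) * h t ∂lam).re = ∫ t, FM M ‖t‖ * (h t).re ∂lam := by
      have h1 := Complex.reCLM.integral_comp_comm hint
      rw [← Complex.reCLM_apply, ← h1]
      congr 1
      funext t
      simp
    have h3 := congrArg Complex.re hDD
    rw [Complex.add_re, Complex.re_ofReal_mul, hre, Complex.ofReal_re, Complex.zero_re] at h3
    have h4 : ∫ t, FM M ‖t‖ * (h t).re ∂lam +
        (m + 1) * ∫ s in (-1 : ℝ)..1, (Wp M).eval s * s ^ 2 = 0 := by
      have h5 : Cst m ((M : ℝ) - m / 2) * (∫ t, FM M ‖t‖ * (h t).re ∂lam +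
        (m + 1) * ∫ s in (-1 : ℝ)..1, (Wp M).eval s * s ^ 2) = 0 := by
        rw [← h3]; ring
      rcases mul_eq_zero.mp h5 with h6 | h6
      · exact absurd h6 hC.ne'
      · exact h6
    have h7 : ∀ s : ℝ, (gg lam h s + (m + 1) * s ^ 2) * (Dp 0 M).eval s =
        gg lam h s * (Wp M).eval s + (m + 1) * ((Wp M).eval s * s ^ 2) := by
      intro s
      rw [Dp_zero]
      ring
    rw [funext h7, intervalIntegral.integral_add, intervalIntegral.integral_const_mul,
      fubini_cos hm hb]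
    · exact h4
    · exact (hcont.mul (Wp M).continuous).intervalIntegrable _ _
    · exact (continuous_const.mul ((Wp M).continuous.mul (continuous_pow 2))).intervalIntegrable _ _
  obtain ⟨c, hc⟩ := exists_pol_of_orthogonal (l := 0) (N := m + 1)
    (g := fun s => gg lam h s + (m + 1) * s ^ 2)
    ((hcont.add (continuous_const.mul (continuous_pow 2))).continuousOn) (by
      intro s _
      simp only [pow_zero, one_mul]
      unfold gg
      simp) key
  intro s hs
  have h1 := hc s hs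
  rw [pol_eval] at h1
  have : IsEmpty (Idx 0) := ⟨fun j => (j : Fin 0).elim0⟩
  rw [Finset.univ_eq_empty, Finset.sum_empty] at h1
  linarith

/-- `h = -cos |t|` and the support -/
lemma ae_structure (hm : Measurable h) (hb : ∀ t, ‖h t‖ = 1) (hmass : lam.real Set.univ = m + 1)
    (hhat : ∀ ξ : V (m + 1), ‖ξ‖ ≤ 1 → hat lam h ξ = -((‖ξ‖ ^ 2 : ℝ) : ℂ)) :
    (∀ᵐ t ∂lam, h t = -((Real.cos ‖t‖ : ℝ) : ℂ)) ∧ lam {t | ∀ k : ℕ, ‖t‖ ≠ Real.pi * k} = 0 := by
  have h1 := gg_eq (lam := lam) hm hb hhat 1 ⟨by norm_num, le_rfl⟩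
  have hi := integrable_cos_re (lam := lam) hm hb 1
  have h2 : ∫ t, (1 + Real.cos (‖t‖ * 1) * (h t).re) ∂lam = 0 := by
    rw [integral_add (integrable_const 1) hi]
    unfold gg at h1
    rw [h1]
    simp [hmass]
  have hbd : ∀ t, |Real.cos (‖t‖ * 1) * (h t).re| ≤ 1 := by
    intro t
    rw [abs_mul]
    calc |Real.cos (‖t‖ * 1)| * |(h t).re| ≤ 1 * 1 := by
          apply mul_le_mul _ _ (abs_nonneg _) zero_le_one
          · exact Real.abs_cos_le_one _
          · rw [← hb t]; exact Complex.abs_re_le_norm _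
      _ = 1 := one_mul 1
  have h3 := (integral_eq_zero_iff_of_nonneg (μ := lam)
    (f := fun t => 1 + Real.cos (‖t‖ * 1) * (h t).re)
    (fun t => by have := (abs_le.mp (hbd t)).1; simp only [Pi.zero_apply]; linarith)
    ((integrable_const 1).add hi)).mp h2
  have h4 : ∀ᵐ t ∂lam, Real.cos ‖t‖ ^ 2 = 1 ∧ h t = -((Real.cos ‖t‖ : ℝ) : ℂ) := by
    filter_upwards [h3] with t ht
    simp only [mul_one, Pi.zero_apply] at ht
    have h5 : Real.cos ‖t‖ * (h t).re = -1 := by linarith
    have h6 : (h t).re ^ 2 + (h t).im ^ 2 = 1 := by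
      have h7 := Complex.sq_norm (h t)
      rw [hb t, Complex.normSq_apply] at h7
      nlinarith
    have h8 : Real.cos ‖t‖ ^ 2 ≤ 1 := Real.cos_sq_le_one _
    have h9 : Real.cos ‖t‖ ^ 2 * (h t).re ^ 2 = 1 := by
      rw [← mul_pow, h5]; norm_num
    have h10 : (h t).re ^ 2 ≤ 1 := by nlinarith [sq_nonneg (h t).im]
    have h11 : Real.cos ‖t‖ ^ 2 = 1 := by nlinarith [sq_nonneg (Real.cos ‖t‖), sq_nonneg (h t).re]
    have h12 : (h t).re ^ 2 = 1 := by rw [h11, one_mul] at h9; exact h9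
    have h13 : (h t).im = 0 := by
      have : (h t).im ^ 2 = 0 := by linarith
      exact pow_eq_zero_iff two_ne_zero |>.mp this
    have h14 : (h t).re = -Real.cos ‖t‖ := by
      have : Real.cos ‖t‖ * (Real.cos ‖t‖ * (h t).re) = -Real.cos ‖t‖ := by rw [h5]; ring
      rw [← mul_assoc, ← sq, h11, one_mul] at this
      exact this
    refine ⟨h11, ?_⟩
    apply Complex.ext
    · rw [h14, Complex.neg_re, Complex.ofReal_re]
    · rw [h13, Complex.neg_im, Complex.ofReal_im, neg_zero]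
  refine ⟨h4.mono fun t ht => ht.2, ?_⟩
  have h5 : ∀ᵐ t ∂lam, ∃ k : ℕ, ‖t‖ = Real.pi * k := by
    filter_upwards [h4] with t ht
    have hs : Real.sin ‖t‖ = 0 := by
      have := Real.sin_sq_add_cos_sq ‖t‖
      rw [ht.1] at this
      have h6 : Real.sin ‖t‖ ^ 2 = 0 := by linarith
      exact pow_eq_zero_iff two_ne_zero |>.mp h6
    obtain ⟨z, hz⟩ := Real.sin_eq_zero_iff.mp hs
    have hz0 : 0 ≤ z := by
      by_contra hneg
      push Not at hneg
      have h7 : (z : ℝ) < 0 := by exact_mod_cast hneg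
      have h8 : (z : ℝ) * Real.pi < 0 := mul_neg_of_neg_of_pos h7 Real.pi_pos
      rw [hz] at h8
      exact absurd (norm_nonneg t) (not_le.mpr h8)
    refine ⟨z.toNat, ?_⟩
    rw [← hz]
    have : ((z.toNat : ℕ) : ℝ) = (z : ℝ) := by
      have h9 : ((z.toNat : ℕ) : ℤ) = z := Int.toNat_of_nonneg hz0
      exact_mod_cast congrArg (fun x : ℤ => (x : ℝ)) h9
    rw [this]
    ring
  rw [ae_iff] at h5
  convert h5 using 2
  ext t
  simp

/-- mass at the origin -/
lemma mass_zero (hm : Measurable h) (hb : ∀ t, ‖h t‖ = 1)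
    (hhat : ∀ ξ : V (m + 1), ‖ξ‖ ≤ 1 → hat lam h ξ = -((‖ξ‖ ^ 2 : ℝ) : ℂ))
    (hh : ∀ᵐ t ∂lam, h t = -((Real.cos ‖t‖ : ℝ) : ℂ))
    (hsupp : lam {t | ∀ k : ℕ, ‖t‖ ≠ Real.pi * k} = 0) : lam.real {0} = ((m : ℝ) + 1) / 3 := by
  have h1 := fubini_cos (lam := lam) hm hb 0
  have h2 : ∫ s in (-1 : ℝ)..1, gg lam h s * (Wp 0).eval s = -(((m : ℝ) + 1) * (2 / 3)) := by
    have : ∫ s in (-1 : ℝ)..1, gg lam h s * (Wp 0).eval s =
        ∫ s in (-1 : ℝ)..1, -(((m : ℝ) + 1) * s ^ 2) := by
      apply integral_congr_Icc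
      intro s hs
      rw [gg_eq hm hb hhat s hs]
      simp [Wp]
    rw [this, intervalIntegral.integral_neg, intervalIntegral.integral_const_mul, integral_pow]
    norm_num
  have h3 : ∫ t, FM 0 ‖t‖ * (h t).re ∂lam = ∫ t, Set.indicator {0} (fun _ => (-2 : ℝ)) t ∂lam := by
    apply integral_congr_ae
    have h4 : ∀ᵐ t ∂lam, ∃ k : ℕ, ‖t‖ = Real.pi * k := by
      rw [ae_iff]
      convert hsupp using 2
      ext t
      simp
    filter_upwards [hh, h4] with t ht1 ht2
    obtain ⟨k, hk⟩ := ht2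
    by_cases h0 : t = 0
    · subst h0
      rw [ht1]
      simp [FM, Wp]
      norm_num
    · rw [Set.indicator_of_notMem (by simpa using h0)]
      have hk1 : k ≠ 0 := by
        rintro rfl
        rw [Nat.cast_zero, mul_zero, norm_eq_zero] at hk
        exact h0 hk
      have : FM 0 ‖t‖ = 0 := by
        unfold FM
        have e1 : ∀ s : ℝ, Real.cos (‖t‖ * s) * (Wp 0).eval s = Real.cos (Real.pi * k * s + 0) := by
          intro s
          rw [hk]
          simp [Wp]
        have hc : (Real.pi * (k : ℝ)) ≠ 0 :=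
          mul_ne_zero Real.pi_ne_zero (by exact_mod_cast hk1)
        rw [funext e1, integral_cos_affine hc]
        have s1 : Real.sin (Real.pi * k + 0) = 0 := by
          rw [add_zero, mul_comm]; exact Real.sin_nat_mul_pi k
        have s2 : Real.sin (-(Real.pi * k) + 0) = 0 := by
          rw [add_zero, Real.sin_neg, mul_comm, Real.sin_nat_mul_pi, neg_zero]
        rw [s1, s2]
        simp
      rw [this, zero_mul]
  rw [h1, h3, integral_indicator (measurableSet_singleton 0), integral_const] at h2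
  simp only [MeasurableSet.univ, measureReal_restrict_apply, Set.univ_inter, smul_eq_mul] at h2
  linarith

/-- moments -/
lemma moments (hm : Measurable h) (hb : ∀ t, ‖h t‖ = 1)
    (hhat : ∀ ξ : V (m + 1), ‖ξ‖ ≤ 1 → hat lam h ξ = -((‖ξ‖ ^ 2 : ℝ) : ℂ))
    (hh : ∀ᵐ t ∂lam, h t = -((Real.cos ‖t‖ : ℝ) : ℂ))
    (hsupp : lam {t | ∀ k : ℕ, ‖t‖ ≠ Real.pi * k} = 0) :
    (∀ i j : Fin (m + 1), ∀ k : ℕ, 1 ≤ k →
      mom lam [i, j] k = (if i = j then 1 else 0) * m0 k) ∧
    (∀ L : List (Fin (m + 1)), 3 ≤ L.length → ∃ q : Polynomial ℝ, Adm L.length (L.length - 2) q ∧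
      ∀ k : ℕ, 1 ≤ k → mom lam L k = q.eval ((k : ℝ)⁻¹)) := by
  have hM : ∀ (L : List (Fin (m + 1))) (M : ℕ), (m + 1) + L.length ≤ M →
      (L.length : ℝ) < (M : ℝ) - m / 2 ∧ (m : ℝ) / 2 < M := by
    intro L M hM
    have h1 : ((m : ℝ) + 1) + L.length ≤ M := by exact_mod_cast hM
    have h2 : (0 : ℝ) ≤ m := Nat.cast_nonneg m
    have h3 : (0 : ℝ) ≤ L.length := Nat.cast_nonneg _
    constructor <;> linarith
  have hDD : ∀ (L : List (Fin (m + 1))) (M : ℕ), (L.length : ℝ) < (M : ℝ) - m / 2 →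
      DD lam h L 1 ((M : ℝ) - m / 2) = 0 := fun L M hLM =>
    DD_eq_zero hm (fun t => (hb t).le) (fun ξ hξ => hhat ξ hξ.le) L 1 _ hLM
  constructor
  · intro i j k hk
    apply coeff_two (N := m + 1) (summable_mom (lam := lam) [i, j]) _ _ k hk
    intro M hM2
    obtain ⟨h1, h2⟩ := hM [i, j] M hM2
    have h3 := hDD [i, j] M h1
    rw [DD_one_eq hm (fun t => (hb t).le) hsupp hh [i, j] h1, integral_AL_two h2] at h3
    have hC := Cst_pos (m := m) (β := (M : ℝ) - m / 2) (by linarith)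
    rw [← Complex.ofReal_add] at h3
    have h4 := Complex.ofReal_eq_zero.mp h3
    simp only [reduceCtorEq, if_false, mul_zero, zero_add, List.length_cons, List.length_nil,
      Nat.reduceAdd, even_two, Even.neg_pow, one_pow, one_mul] at h4
    have h5 : Cst m ((M : ℝ) - m / 2) * ((∫ s in (-1 : ℝ)..1, ser 2 (mom lam [i, j]) s *
        (Dp 2 M).eval s) + 2 * (if i = j then 1 else 0) * ∫ s in (-1 : ℝ)..1, (Wp M).eval s) = 0 := by
      linarith
    rcases mul_eq_zero.mp h5 with h6 | h6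
    · exact absurd h6 hC.ne'
    · linarith
  · intro L hL
    apply coeff_of_orthogonal (N := m + 1) (summable_mom (lam := lam) L)
    intro M hM2
    obtain ⟨h1, h2⟩ := hM L M hM2
    have h3 := hDD L M h1
    rw [DD_one_eq hm (fun t => (hb t).le) hsupp hh L h1, integral_AL_ge hL, add_zero] at h3
    have hC := Cst_pos (m := m) (β := (M : ℝ) - m / 2) (by linarith)
    have h4 := Complex.ofReal_eq_zero.mp h3
    have hne : L ≠ [] := by rintro rfl; simp at hL
    rw [if_neg hne, mul_zero, zero_add, neg_eq_zero] at h4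
    rcases mul_eq_zero.mp h4 with h6 | h6
    · exact absurd h6 hC.ne'
    · rcases mul_eq_zero.mp h6 with h7 | h7
      · exact absurd h7 (pow_ne_zero _ (by norm_num))
      · exact h7

end Pool.Agent.Helper48
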