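import Pool.Agent.Helper48.Marginal

/-!
The Fourier side: the functions `t ↦ ∫ Q(ξ) (1-|ξ|²)_+^β e^{-i⟨t,ξ⟩} dξ`, and the identities
`D(L,Q,β) = 0`.
-/

open MeasureTheory

namespace Pool.Agent.Helper48

variable {n : ℕ}

/-- the exponential `e^{-i⟨t,ξ⟩}` -/
noncomputable def ex (t ξ : V n) : ℂ := Complex.exp (-(Complex.I * ((inner ℝ t ξ : ℝ) : ℂ)))

lemma norm_ex (t ξ : V n) : ‖ex t ξ‖ = 1 := by
  unfold ex
  rw [Complex.norm_exp]
  simp

lemma ex_continuous : Continuous (fun p : V n × V n => ex p.1 p.2) := by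
  unfold ex
  fun_prop

lemma ex_continuous_right (t : V n) : Continuous (fun ξ : V n => ex t ξ) := by
  unfold ex
  fun_prop

lemma ex_continuous_left (ξ : V n) : Continuous (fun t : V n => ex t ξ) := by
  unfold ex
  fun_prop

lemma hasLineDerivAt_ex (t ξ : V n) (j : Fin n) :
    HasLineDerivAt ℝ (fun ξ : V n => ex t ξ) (-(Complex.I * (t j : ℂ)) * ex t ξ) ξ
      (EuclideanSpace.single j 1) := by
  unfold HasLineDerivAt
  have h1 : ∀ s : ℝ, inner ℝ t (ξ + s • EuclideanSpace.single j (1 : ℝ)) =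
      inner ℝ t ξ + s * t j := by
    intro s
    rw [inner_add_right, inner_smul_right, EuclideanSpace.inner_single_right]
    simp
  have h2 : (fun s : ℝ => ex t (ξ + s • EuclideanSpace.single j (1 : ℝ))) =
      fun s : ℝ => Complex.exp (-(Complex.I * (((inner ℝ t ξ : ℝ) : ℂ) + (s : ℂ) * (t j : ℂ)))) := by
    funext s
    unfold ex
    rw [h1]
    push_cast
    rfl
  rw [h2]
  have h3 : HasDerivAt (fun s : ℝ => (s : ℂ)) 1 0 := Complex.ofRealCLM.hasDerivAt
  have h4 : HasDerivAt (fun s : ℝ => -(Complex.I * (((inner ℝ t ξ : ℝ) : ℂ) + (s : ℂ) * (t j : ℂ))))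
      (-(Complex.I * (1 * (t j : ℂ)))) 0 :=
    (((h3.mul_const (t j : ℂ)).const_add _).const_mul _).neg
  have h5 := h4.cexp
  have h6 : Complex.exp (-(Complex.I * (((inner ℝ t ξ : ℝ) : ℂ) + ((0 : ℝ) : ℂ) * (t j : ℂ)))) *
      -(Complex.I * (1 * (t j : ℂ))) = -(Complex.I * (t j : ℂ)) * ex t ξ := by
    unfold ex
    simp only [Complex.ofReal_zero, zero_mul, add_zero, one_mul]
    ring
  rw [h6] at h5
  exact h5

/-- the Fourier transform of `Q(ξ) (1-|ξ|²)_+^β` -/
noncomputable def FF (Q : MvPolynomial (Fin n) ℝ) (β : ℝ) (t : V n) : ℂ :=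
  ∫ ξ : V n, (pe Q ξ * rho β ξ) • ex t ξ

lemma integrable_pe_rho {γ : ℝ} (hγ : 0 < γ) (P : MvPolynomial (Fin n) ℝ) {ψ : V n → ℂ}
    (hψ : Continuous ψ) : Integrable (fun ξ => (pe P ξ * rho γ ξ) • ψ ξ) := by
  have h1 := integrable_rho_smul hγ (n := n) (f := fun ξ => pe P ξ • ψ ξ)
    ((pe_continuous P).smul hψ)
  have h2 : (fun ξ => (pe P ξ * rho γ ξ) • ψ ξ) = fun ξ => rho γ ξ • pe P ξ • ψ ξ := by
    funext ξ
    rw [smul_smul, mul_comm]
  rw [h2]
  exact h1

lemma integrable_pe_rho_real {γ : ℝ} (hγ : 0 < γ) (P : MvPolynomial (Fin n) ℝ) :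
    Integrable (fun ξ : V n => pe P ξ * rho γ ξ) := by
  have h1 := integrable_rho_smul hγ (n := n) (f := fun ξ => pe P ξ) (pe_continuous P)
  have h2 : (fun ξ : V n => pe P ξ * rho γ ξ) = fun ξ => rho γ ξ • pe P ξ := by
    funext ξ
    rw [smul_eq_mul, mul_comm]
  rw [h2]
  exact h1

lemma FF_bound {β : ℝ} (Q : MvPolynomial (Fin n) ℝ) (t : V n) :
    ‖FF Q β t‖ ≤ ∫ ξ : V n, |pe Q ξ * rho β ξ| := by
  unfold FF
  refine (norm_integral_le_integral_norm _).trans (le_of_eq ?_)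
  congr 1
  funext ξ
  rw [norm_smul, norm_ex, mul_one, Real.norm_eq_abs]

lemma FF_continuous {β : ℝ} (hβ : 0 < β) (Q : MvPolynomial (Fin n) ℝ) : Continuous (FF Q β) := by
  unfold FF
  apply continuous_of_dominated (bound := fun ξ => |pe Q ξ * rho β ξ|)
  · intro t
    exact (integrable_pe_rho hβ Q (ex_continuous_right t)).aestronglyMeasurable
  · intro t
    filter_upwards with ξ
    rw [norm_smul, norm_ex, mul_one, Real.norm_eq_abs]
  · exact (integrable_pe_rho_real hβ Q).abs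
  · filter_upwards with ξ
    exact Continuous.const_smul (ex_continuous_left ξ) (pe Q ξ * rho β ξ)

/-- the basic recursion -/
lemma FF_rec {β : ℝ} (hβ : 0 < β) (Q : MvPolynomial (Fin n) ℝ) (j : Fin n) (t : V n) :
    (t j : ℂ) * FF Q (β + 1) t = -Complex.I * FF (MvPolynomial.pderiv j Q) (β + 1) t +
      2 * (β + 1) * Complex.I * FF (MvPolynomial.X j * Q) β t := by
  have hb1 : (0 : ℝ) < β + 1 := by linarith
  have h := ibp_rho hβ Q j (φ := fun ξ => ex t ξ) (φ' := fun ξ => -(Complex.I * (t j : ℂ)) * ex t ξ)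
    (ex_continuous_right t) ((ex_continuous_right t).const_mul _) (fun ξ => hasLineDerivAt_ex t ξ j)
  have e1 : ∫ ξ : V n, (pe Q ξ * rho (β + 1) ξ) • (-(Complex.I * (t j : ℂ)) * ex t ξ) =
      -(Complex.I * (t j : ℂ)) * FF Q (β + 1) t := by
    unfold FF
    rw [← integral_const_mul]
    congr 1
    funext ξ
    rw [mul_smul_comm]
  have e2 : ∫ ξ : V n, (pe (MvPolynomial.pderiv j Q) ξ * rho (β + 1) ξ -
          2 * (β + 1) * (pe (MvPolynomial.X j * Q) ξ * rho β ξ)) • ex t ξ =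
      FF (MvPolynomial.pderiv j Q) (β + 1) t - 2 * (β + 1) * FF (MvPolynomial.X j * Q) β t := by
    unfold FF
    simp_rw [sub_smul]
    rw [integral_sub (integrable_pe_rho hb1 _ (ex_continuous_right t))]
    · congr 1
      simp_rw [mul_smul (2 * (β + 1))]
      rw [integral_smul]
      rw [Complex.real_smul]
      push_cast
      ring
    · simp_rw [mul_smul (2 * (β + 1))]
      exact (integrable_pe_rho hβ _ (ex_continuous_right t)).smul (2 * (β + 1))
  rw [e1, e2] at h
  have hI : Complex.I * Complex.I = -1 := Complex.I_mul_I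
  linear_combination (Complex.I) * h + (t j : ℂ) * FF Q (β + 1) t * hI

/-- the monomial attached to a list of indices -/
noncomputable def PL : List (Fin n) → V n → ℂ
  | [], _ => 1
  | (j :: L), t => (t j : ℂ) * PL L t

lemma PL_continuous (L : List (Fin n)) : Continuous (PL L : V n → ℂ) := by
  induction L with
  | nil => exact continuous_const
  | cons j L ih =>
    have : (PL (j :: L) : V n → ℂ) = fun t => (t j : ℂ) * PL L t := rfl
    rw [this]
    fun_prop

/-- boundedness of `P_L(t) F_{Q,β}(t)` for `β > |L|` -/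
lemma PL_FF_bound (L : List (Fin n)) : ∀ (Q : MvPolynomial (Fin n) ℝ) (β : ℝ),
    (L.length : ℝ) < β → ∃ C : ℝ, ∀ t : V n, ‖PL L t * FF Q β t‖ ≤ C := by
  induction L with
  | nil =>
    intro Q β _
    refine ⟨∫ ξ : V n, |pe Q ξ * rho β ξ|, fun t => ?_⟩
    have : PL ([] : List (Fin n)) t = 1 := rfl
    rw [this, one_mul]
    exact FF_bound Q t
  | cons j L ih =>
    intro Q β hβ
    have hlen : ((j :: L).length : ℝ) = L.length + 1 := by simp
    rw [hlen] at hβ
    have hL0 : (0 : ℝ) ≤ L.length := Nat.cast_nonneg _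
    obtain ⟨C1, hC1⟩ := ih (MvPolynomial.pderiv j Q) β (by linarith)
    obtain ⟨C2, hC2⟩ := ih (MvPolynomial.X j * Q) (β - 1) (by linarith)
    refine ⟨C1 + 2 * β * C2, fun t => ?_⟩
    have hrec := FF_rec (β := β - 1) (by linarith) Q j t
    have hb : β - 1 + 1 = β := by ring
    rw [hb] at hrec
    have e : PL (j :: L) t * FF Q β t = -Complex.I * (PL L t * FF (MvPolynomial.pderiv j Q) β t) +
      2 * (β : ℂ) * Complex.I * (PL L t * FF (MvPolynomial.X j * Q) (β - 1) t) := by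
      have : PL (j :: L) t = (t j : ℂ) * PL L t := rfl
      rw [this]
      push_cast at hrec
      linear_combination (PL L t) * hrec
    rw [e]
    refine (norm_add_le _ _).trans ?_
    have n1 : ‖-Complex.I‖ = 1 := by rw [norm_neg, Complex.norm_I]
    have n2 : ‖2 * (β : ℂ) * Complex.I‖ = 2 * β := by
      rw [norm_mul, norm_mul, Complex.norm_I, mul_one, Complex.norm_real, Real.norm_eq_abs,
        abs_of_pos (by linarith : (0 : ℝ) < β)]
      simp
    rw [norm_mul (-Complex.I), norm_mul (2 * (β : ℂ) * Complex.I), n1, n2, one_mul]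
    have h4 := hC1 t
    have h5 := mul_le_mul_of_nonneg_left (hC2 t) (by linarith : (0 : ℝ) ≤ 2 * β)
    linarith

/-- the iterated derivatives `(i∂)^L |ξ|²` -/
noncomputable def AL : List (Fin n) → V n → ℂ
  | [], ξ => ((‖ξ‖ ^ 2 : ℝ) : ℂ)
  | [j], ξ => 2 * Complex.I * (ξ j : ℂ)
  | [i, j], _ => if i = j then -2 else 0
  | _, _ => 0

lemma AL_continuous (L : List (Fin n)) : Continuous (AL L : V n → ℂ) := by
  match L with
  | [] =>
    have : (AL [] : V n → ℂ) = fun ξ => ((‖ξ‖ ^ 2 : ℝ) : ℂ) := rfl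
    rw [this]; fun_prop
  | [j] =>
    have : (AL [j] : V n → ℂ) = fun ξ => 2 * Complex.I * (ξ j : ℂ) := rfl
    rw [this]; fun_prop
  | [i, j] => exact continuous_const
  | (i :: j :: k :: L) => exact continuous_const

lemma hasLineDerivAt_AL (L : List (Fin n)) (j : Fin n) (ξ : V n) :
    HasLineDerivAt ℝ (AL L : V n → ℂ) (-Complex.I * AL (j :: L) ξ) ξ
      (EuclideanSpace.single j 1) := by
  have hI : Complex.I * Complex.I = -1 := Complex.I_mul_I
  match L with
  | [] =>
    have h1 : HasLineDerivAt ℝ (fun ξ : V n => ‖ξ‖ ^ 2) (2 * ξ j) ξ (EuclideanSpace.single j 1) := by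
      have h2 := (hasStrictFDerivAt_norm_sq ξ).hasFDerivAt.hasLineDerivAt
        (EuclideanSpace.single j (1 : ℝ))
      have h3 : (2 • (innerSL ℝ ξ)) (EuclideanSpace.single j (1 : ℝ)) = 2 * ξ j := by
        simp [EuclideanSpace.inner_single_right]
      rw [h3] at h2
      exact h2
    have h4 : HasLineDerivAt ℝ (fun ξ : V n => ((‖ξ‖ ^ 2 : ℝ) : ℂ)) (((2 * ξ j : ℝ)) : ℂ) ξ
        (EuclideanSpace.single j 1) := HasDerivAt.ofReal_comp h1
    have h5 : -Complex.I * AL [j] ξ = ((2 * ξ j : ℝ) : ℂ) := by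
      have : AL [j] ξ = 2 * Complex.I * (ξ j : ℂ) := rfl
      rw [this]
      push_cast
      linear_combination (-2 * (ξ j : ℂ)) * hI
    rw [h5]
    exact h4
  | [i] =>
    have h1 := hasLineDerivAt_coord i j ξ
    have h4 : HasLineDerivAt ℝ (fun ξ : V n => ((ξ i : ℝ) : ℂ)) (((if i = j then 1 else 0 : ℝ)) : ℂ) ξ
        (EuclideanSpace.single j 1) := HasDerivAt.ofReal_comp h1
    have h5 : HasLineDerivAt ℝ (fun ξ : V n => 2 * Complex.I * ((ξ i : ℝ) : ℂ))
        (2 * Complex.I * (((if i = j then 1 else 0 : ℝ)) : ℂ)) ξ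
        (EuclideanSpace.single j 1) := HasDerivAt.const_mul _ h4
    have h6 : -Complex.I * AL [j, i] ξ = 2 * Complex.I * (((if i = j then 1 else 0 : ℝ)) : ℂ) := by
      have : AL [j, i] ξ = if j = i then -2 else 0 := rfl
      rw [this]
      by_cases hij : i = j
      · subst hij; simp; ring
      · have : ¬ j = i := fun h => hij h.symm
        simp [hij, this]
    rw [h6]
    exact h5
  | [i, k] =>
    have h6 : -Complex.I * AL [j, i, k] ξ = 0 := by
      have : AL [j, i, k] ξ = 0 := rfl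
      rw [this, mul_zero]
    rw [h6]
    exact hasDerivAt_const _ _
  | (i :: k :: k' :: L) =>
    have h6 : -Complex.I * AL (j :: i :: k :: k' :: L) ξ = 0 := by
      have : AL (j :: i :: k :: k' :: L) ξ = 0 := rfl
      rw [this, mul_zero]
    rw [h6]
    exact hasDerivAt_const _ _

/-- recursion on the polynomial side -/
lemma AL_rec {β : ℝ} (hβ : 0 < β) (Q : MvPolynomial (Fin n) ℝ) (j : Fin n) (L : List (Fin n)) :
    ∫ ξ : V n, (pe Q ξ * rho (β + 1) ξ) • AL (j :: L) ξ =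
      -Complex.I * (∫ ξ : V n, (pe (MvPolynomial.pderiv j Q) ξ * rho (β + 1) ξ) • AL L ξ) +
      2 * (β + 1) * Complex.I * ∫ ξ : V n, (pe (MvPolynomial.X j * Q) ξ * rho β ξ) • AL L ξ := by
  have hb1 : (0 : ℝ) < β + 1 := by linarith
  have h := ibp_rho hβ Q j (φ := AL L) (φ' := fun ξ => -Complex.I * AL (j :: L) ξ)
    (AL_continuous L) ((AL_continuous (j :: L)).const_mul _) (fun ξ => hasLineDerivAt_AL L j ξ)
  have e1 : ∫ ξ : V n, (pe Q ξ * rho (β + 1) ξ) • (-Complex.I * AL (j :: L) ξ) =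
      -Complex.I * ∫ ξ : V n, (pe Q ξ * rho (β + 1) ξ) • AL (j :: L) ξ := by
    rw [← integral_const_mul]
    congr 1
    funext ξ
    rw [mul_smul_comm]
  have e2 : ∫ ξ : V n, (pe (MvPolynomial.pderiv j Q) ξ * rho (β + 1) ξ -
          2 * (β + 1) * (pe (MvPolynomial.X j * Q) ξ * rho β ξ)) • AL L ξ =
      (∫ ξ : V n, (pe (MvPolynomial.pderiv j Q) ξ * rho (β + 1) ξ) • AL L ξ) -
        2 * (β + 1) * ∫ ξ : V n, (pe (MvPolynomial.X j * Q) ξ * rho β ξ) • AL L ξ := by
    simp_rw [sub_smul]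
    rw [integral_sub (integrable_pe_rho hb1 _ (AL_continuous L))]
    · congr 1
      simp_rw [mul_smul (2 * (β + 1))]
      rw [integral_smul]
      rw [Complex.real_smul]
      push_cast
      ring
    · simp_rw [mul_smul (2 * (β + 1))]
      exact (integrable_pe_rho hβ _ (AL_continuous L)).smul (2 * (β + 1))
  rw [e1, e2] at h
  have hI : Complex.I * Complex.I = -1 := Complex.I_mul_I
  linear_combination (Complex.I) * h +
    (∫ ξ : V n, (pe Q ξ * rho (β + 1) ξ) • AL (j :: L) ξ) * hI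

end Pool.Agent.Helper48
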