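import Pool.Agent.Helper48.FourierSide

/-!
The functional `D(L,Q,β)` attached to a measure `h·λ` and the two inductions.
-/

open MeasureTheory

namespace Pool.Agent.Helper48

variable {n : ℕ}

/-- `∫ P_L(t) F_{Q,β}(t) h(t) dλ(t) + ∫ Q(ξ) (1-|ξ|²)_+^β A_L(ξ) dξ` -/
noncomputable def DD (lam : Measure (V n)) (h : V n → ℂ) (L : List (Fin n))
    (Q : MvPolynomial (Fin n) ℝ) (β : ℝ) : ℂ :=
  (∫ t, PL L t * FF Q β t * h t ∂lam) + ∫ ξ : V n, (pe Q ξ * rho β ξ) • AL L ξ

/-- the Fourier transform of `h·λ` -/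
noncomputable def hat (lam : Measure (V n)) (h : V n → ℂ) (ξ : V n) : ℂ :=
  ∫ t, ex t ξ * h t ∂lam

section

variable {lam : Measure (V n)} [IsFiniteMeasure lam] {h : V n → ℂ}

lemma integrable_PL_FF (hm : Measurable h) (hb : ∀ t, ‖h t‖ ≤ 1) (L : List (Fin n))
    (Q : MvPolynomial (Fin n) ℝ) {β : ℝ} (hβ : (L.length : ℝ) < β) :
    Integrable (fun t => PL L t * FF Q β t * h t) lam := by
  have hβ0 : 0 < β := lt_of_le_of_lt (Nat.cast_nonneg _) hβ
  obtain ⟨C, hC⟩ := PL_FF_bound L Q β hβ
  apply Integrable.of_bound (C := C)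
  · exact (((PL_continuous L).mul (FF_continuous hβ0 Q)).aestronglyMeasurable).mul
      hm.aestronglyMeasurable
  · filter_upwards with t
    rw [norm_mul]
    calc ‖PL L t * FF Q β t‖ * ‖h t‖ ≤ ‖PL L t * FF Q β t‖ * 1 :=
          mul_le_mul_of_nonneg_left (hb t) (norm_nonneg _)
      _ ≤ C := by rw [mul_one]; exact hC t

lemma DD_rec (hm : Measurable h) (hb : ∀ t, ‖h t‖ ≤ 1) (L : List (Fin n))
    (Q : MvPolynomial (Fin n) ℝ) (j : Fin n) {β : ℝ} (hβ : (L.length : ℝ) < β) :
    DD lam h (j :: L) Q (β + 1) = -Complex.I * DD lam h L (MvPolynomial.pderiv j Q) (β + 1) +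
      2 * (β + 1) * Complex.I * DD lam h L (MvPolynomial.X j * Q) β := by
  have hβ0 : 0 < β := lt_of_le_of_lt (Nat.cast_nonneg _) hβ
  unfold DD
  rw [AL_rec hβ0 Q j L]
  have h1 : ∀ t : V n, PL (j :: L) t * FF Q (β + 1) t * h t =
      -Complex.I * (PL L t * FF (MvPolynomial.pderiv j Q) (β + 1) t * h t) +
      2 * ((β : ℂ) + 1) * Complex.I * (PL L t * FF (MvPolynomial.X j * Q) β t * h t) := by
    intro t
    have h2 := FF_rec hβ0 Q j t
    have h3 : PL (j :: L) t = (t j : ℂ) * PL L t := rfl
    rw [h3]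
    linear_combination (PL L t * h t) * h2
  simp_rw [h1]
  rw [integral_add ((integrable_PL_FF hm hb L _ (by linarith)).const_mul _)
    ((integrable_PL_FF hm hb L _ hβ).const_mul _), integral_const_mul, integral_const_mul]
  ring

/-- additivity in the polynomial -/
lemma DD_add (hm : Measurable h) (hb : ∀ t, ‖h t‖ ≤ 1) (L : List (Fin n))
    (P Q : MvPolynomial (Fin n) ℝ) {β : ℝ} (hβ : (L.length : ℝ) < β) :
    DD lam h L (P + Q) β = DD lam h L P β + DD lam h L Q β := by
  have hβ0 : 0 < β := lt_of_le_of_lt (Nat.cast_nonneg _) hβ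
  have hF : ∀ t : V n, FF (P + Q) β t = FF P β t + FF Q β t := by
    intro t
    unfold FF
    rw [← integral_add (integrable_pe_rho hβ0 P (ex_continuous_right t))
      (integrable_pe_rho hβ0 Q (ex_continuous_right t))]
    congr 1
    funext ξ
    rw [pe_add, add_mul, add_smul]
  unfold DD
  have h1 : ∀ t : V n, PL L t * FF (P + Q) β t * h t =
      PL L t * FF P β t * h t + PL L t * FF Q β t * h t := by
    intro t; rw [hF]; ring
  have h2 : ∀ ξ : V n, (pe (P + Q) ξ * rho β ξ) • AL L ξ =
      (pe P ξ * rho β ξ) • AL L ξ + (pe Q ξ * rho β ξ) • AL L ξ := by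
    intro ξ; rw [pe_add, add_mul, add_smul]
  simp_rw [h1, h2]
  rw [integral_add (integrable_PL_FF hm hb L _ hβ) (integrable_PL_FF hm hb L _ hβ),
    integral_add (integrable_pe_rho hβ0 P (AL_continuous L))
      (integrable_pe_rho hβ0 Q (AL_continuous L))]
  ring

omit [IsFiniteMeasure lam] in
lemma DD_C_mul (L : List (Fin n)) (a : ℝ) (Q : MvPolynomial (Fin n) ℝ) (β : ℝ) :
    DD lam h L (MvPolynomial.C a * Q) β = a * DD lam h L Q β := by
  have hF : ∀ t : V n, FF (MvPolynomial.C a * Q) β t = a * FF Q β t := by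
    intro t
    unfold FF
    rw [← Complex.real_smul, ← integral_smul]
    congr 1
    funext ξ
    rw [pe_mul, pe_C, smul_smul]
    ring_nf
  unfold DD
  have h1 : ∀ t : V n, PL L t * FF (MvPolynomial.C a * Q) β t * h t =
      (a : ℂ) * (PL L t * FF Q β t * h t) := by
    intro t; rw [hF]; ring
  have h2 : ∀ ξ : V n, (pe (MvPolynomial.C a * Q) ξ * rho β ξ) • AL L ξ =
      (a : ℝ) • ((pe Q ξ * rho β ξ) • AL L ξ) := by
    intro ξ; rw [pe_mul, pe_C, smul_smul]; ring_nf
  simp_rw [h1, h2]
  rw [integral_const_mul, integral_smul, Complex.real_smul]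
  ring

omit [IsFiniteMeasure lam] in
lemma DD_zero (L : List (Fin n)) (β : ℝ) : DD lam h L 0 β = 0 := by
  have := DD_C_mul (lam := lam) (h := h) L 0 0 β
  simpa using this

lemma hat_continuous (hm : Measurable h) (hb : ∀ t, ‖h t‖ ≤ 1) : Continuous (hat lam h) := by
  unfold hat
  apply continuous_of_dominated (bound := fun _ => 1)
  · intro ξ
    exact ((ex_continuous_left ξ).aestronglyMeasurable).mul hm.aestronglyMeasurable
  · intro ξ
    filter_upwards with t
    rw [norm_mul, norm_ex, one_mul]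
    exact hb t
  · exact integrable_const 1
  · filter_upwards with t
    exact (ex_continuous_right t).mul continuous_const

/-- Fubini -/
lemma integral_FF (hm : Measurable h) (hb : ∀ t, ‖h t‖ ≤ 1) (Q : MvPolynomial (Fin n) ℝ) {β : ℝ}
    (hβ : 0 < β) :
    ∫ t, FF Q β t * h t ∂lam = ∫ ξ : V n, (pe Q ξ * rho β ξ) • hat lam h ξ := by
  unfold FF hat
  have h1 : ∀ t : V n, (∫ ξ : V n, (pe Q ξ * rho β ξ) • ex t ξ) * h t =
      ∫ ξ : V n, (pe Q ξ * rho β ξ) • (ex t ξ * h t) := by
    intro t
    rw [← integral_mul_const]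
    congr 1
    funext ξ
    rw [smul_mul_assoc]
  have h2 : ∀ ξ : V n, (pe Q ξ * rho β ξ) • (∫ t, ex t ξ * h t ∂lam) =
      ∫ t, (pe Q ξ * rho β ξ) • (ex t ξ * h t) ∂lam := by
    intro ξ
    rw [integral_smul]
  simp_rw [h1, h2]
  apply integral_integral_swap
  -- integrability on the product
  have hprod : Integrable (fun p : V n × V n => (1 : ℝ) * |pe Q p.2 * rho β p.2|)
      (lam.prod volume) :=
    Integrable.mul_prod (integrable_const (1 : ℝ)) (integrable_pe_rho_real hβ Q).abs
  have hms : AEStronglyMeasurable (fun p : V n × V n =>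
      (pe Q p.2 * rho β p.2) • (ex p.1 p.2 * h p.1)) (lam.prod volume) := by
    have a1 : AEStronglyMeasurable (fun p : V n × V n => (pe Q p.2 * rho β p.2))
        (lam.prod volume) := by
      apply Continuous.aestronglyMeasurable
      exact ((pe_continuous Q).comp continuous_snd).mul ((rho_continuous hβ.le).comp continuous_snd)
    have a2 : AEStronglyMeasurable (fun p : V n × V n => ex p.1 p.2 * h p.1)
        (lam.prod volume) :=
      (ex_continuous.aestronglyMeasurable).mul
        ((hm.comp measurable_fst).aestronglyMeasurable)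
    exact a1.smul a2
  refine hprod.mono' hms ?_
  filter_upwards with p
  change ‖(pe Q p.2 * rho β p.2) • (ex p.1 p.2 * h p.1)‖ ≤ _
  rw [norm_smul, norm_mul (ex p.1 p.2) (h p.1), norm_ex, one_mul, one_mul, Real.norm_eq_abs]
  calc |pe Q p.2 * rho β p.2| * ‖h p.1‖ ≤ |pe Q p.2 * rho β p.2| * 1 :=
        mul_le_mul_of_nonneg_left (hb _) (abs_nonneg _)
    _ = _ := mul_one _

lemma DD_nil (hm : Measurable h) (hb : ∀ t, ‖h t‖ ≤ 1) (Q : MvPolynomial (Fin n) ℝ) {β : ℝ}
    (hβ : 0 < β) :
    DD lam h [] Q β = ∫ ξ : V n, (pe Q ξ * rho β ξ) • (hat lam h ξ + ((‖ξ‖ ^ 2 : ℝ) : ℂ)) := by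
  unfold DD
  have h1 : ∀ t : V n, PL [] t * FF Q β t * h t = FF Q β t * h t := by
    intro t
    have : PL ([] : List (Fin n)) t = 1 := rfl
    rw [this, one_mul]
  simp_rw [h1]
  rw [integral_FF hm hb Q hβ]
  simp_rw [smul_add]
  rw [integral_add (integrable_pe_rho hβ Q (hat_continuous hm hb))
    (integrable_pe_rho hβ Q (by fun_prop))]
  rfl

/-- forward induction -/
theorem DD_eq_zero (hm : Measurable h) (hb : ∀ t, ‖h t‖ ≤ 1)
    (hhat : ∀ ξ : V n, ‖ξ‖ < 1 → hat lam h ξ = -((‖ξ‖ ^ 2 : ℝ) : ℂ)) (L : List (Fin n)) :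
    ∀ (Q : MvPolynomial (Fin n) ℝ) (β : ℝ), (L.length : ℝ) < β → DD lam h L Q β = 0 := by
  induction L with
  | nil =>
    intro Q β hβ
    have hβ0 : 0 < β := by simpa using hβ
    rw [DD_nil hm hb Q hβ0]
    have : ∀ ξ : V n, (pe Q ξ * rho β ξ) • (hat lam h ξ + ((‖ξ‖ ^ 2 : ℝ) : ℂ)) = 0 := by
      intro ξ
      rcases lt_or_ge ‖ξ‖ 1 with h1 | h1
      · rw [hhat ξ h1, neg_add_cancel, smul_zero]
      · rw [rho_eq_zero hβ0.ne' h1, mul_zero, zero_smul]
    rw [show (fun ξ : V n => (pe Q ξ * rho β ξ) • (hat lam h ξ + ((‖ξ‖ ^ 2 : ℝ) : ℂ))) =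
      fun _ => 0 from funext this]
    exact integral_zero _ _
  | cons j L ih =>
    intro Q β hβ
    have hlen : ((j :: L).length : ℝ) = L.length + 1 := by simp
    rw [hlen] at hβ
    have h1 := DD_rec (lam := lam) hm hb L Q j (β := β - 1) (by linarith)
    have hb' : β - 1 + 1 = β := by ring
    rw [hb'] at h1
    rw [h1, ih _ _ (by linarith), ih _ _ (by linarith)]
    ring

/-- backward induction on the degree of monomials -/
theorem DD_eq_zero_of_one (hm : Measurable h) (hb : ∀ t, ‖h t‖ ≤ 1) (c : ℝ)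
    (hone : ∀ (L : List (Fin n)) (M : ℕ), (L.length : ℝ) < (M : ℝ) - c →
      DD lam h L 1 ((M : ℝ) - c) = 0) :
    ∀ (Q : MvPolynomial (Fin n) ℝ) (L : List (Fin n)) (M : ℕ), (L.length : ℝ) < (M : ℝ) - c →
      DD lam h L Q ((M : ℝ) - c) = 0 := by
  -- monomials of degree `d`
  have hmon : ∀ d : ℕ, ∀ α : Fin n →₀ ℕ, α.degree = d → ∀ (L : List (Fin n)) (M : ℕ),
      (L.length : ℝ) < (M : ℝ) - c → DD lam h L (MvPolynomial.monomial α 1) ((M : ℝ) - c) = 0 := by
    intro d
    induction d using Nat.strong_induction_on with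
    | _ d ih =>
      intro α hα L M hM
      by_cases h0 : α = 0
      · subst h0
        exact hone L M hM
      · obtain ⟨j, hj⟩ : ∃ j, α j ≠ 0 := by
          by_contra hcon
          push Not at hcon
          exact h0 (Finsupp.ext hcon)
        set α' : Fin n →₀ ℕ := α - Finsupp.single j 1 with hα'
        have hle : Finsupp.single j 1 ≤ α := by
          rw [Finsupp.single_le_iff]
          omega
        have hadd : α' + Finsupp.single j 1 = α := tsub_add_cancel_of_le hle
        have hdeg : α'.degree + 1 = d := by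
          rw [← hα, ← hadd, map_add, Finsupp.degree_single]
        have hX : (MvPolynomial.monomial α (1 : ℝ)) =
            MvPolynomial.X j * MvPolynomial.monomial α' 1 := by
          rw [mul_comm, MvPolynomial.X, MvPolynomial.monomial_mul, hadd, mul_one]
        have hrec := DD_rec (lam := lam) hm hb L (MvPolynomial.monomial α' 1) j hM
        have hM1 : ((M : ℝ) - c) + 1 = ((M + 1 : ℕ) : ℝ) - c := by push_cast; ring
        -- the term for `j :: L`
        have t1 : DD lam h (j :: L) (MvPolynomial.monomial α' 1) (((M : ℝ) - c) + 1) = 0 := by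
          rw [hM1]
          apply ih α'.degree (by omega) α' rfl
          have hlen : ((j :: L).length : ℝ) = L.length + 1 := by simp
          rw [hlen]; push_cast; linarith
        -- the derivative
        have t2 : DD lam h L (MvPolynomial.pderiv j (MvPolynomial.monomial α' 1))
            (((M : ℝ) - c) + 1) = 0 := by
          rw [MvPolynomial.pderiv_monomial, hM1]
          by_cases hj0 : α' j = 0
          · rw [hj0]
            simp only [Nat.cast_zero, mul_zero, MvPolynomial.monomial_zero]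
            exact DD_zero L _
          · have e : (MvPolynomial.monomial (α' - Finsupp.single j 1) ((1 : ℝ) * (α' j : ℝ))) =
                MvPolynomial.C (α' j : ℝ) * MvPolynomial.monomial (α' - Finsupp.single j 1) 1 := by
              rw [MvPolynomial.C_mul_monomial, mul_one, one_mul]
            rw [e, DD_C_mul, ih (α' - Finsupp.single j 1).degree _ _ rfl, mul_zero]
            · push_cast; linarith
            · have hle' : Finsupp.single j 1 ≤ α' := by
                rw [Finsupp.single_le_iff]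
                omega
              have hadd' : (α' - Finsupp.single j 1) + Finsupp.single j 1 = α' :=
                tsub_add_cancel_of_le hle'
              have : (α' - Finsupp.single j 1).degree + 1 = α'.degree := by
                conv_rhs => rw [← hadd', map_add, Finsupp.degree_single]
              omega
        rw [t1, t2, mul_zero, zero_add] at hrec
        have hne : (2 * ((((M : ℝ) - c : ℝ) : ℂ) + 1) * Complex.I) ≠ 0 := by
          apply mul_ne_zero _ Complex.I_ne_zero
          apply mul_ne_zero two_ne_zero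
          have h3 : (0 : ℝ) < ((M : ℝ) - c) + 1 := by
            have : (0 : ℝ) ≤ L.length := Nat.cast_nonneg _
            linarith
          have h4 : ((((M : ℝ) - c : ℝ) : ℂ) + 1) = ((((M : ℝ) - c) + 1 : ℝ) : ℂ) := by push_cast; ring
          rw [h4]
          exact_mod_cast h3.ne'
        rw [hX]
        rcases mul_eq_zero.mp hrec.symm with h5 | h5
        · exact absurd h5 hne
        · exact h5
  intro Q L M hM
  induction Q using MvPolynomial.induction_on' with
  | monomial α a =>
    have e : (MvPolynomial.monomial α a) = MvPolynomial.C a * MvPolynomial.monomial α 1 := by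
      rw [MvPolynomial.C_mul_monomial, mul_one]
    rw [e, DD_C_mul, hmon α.degree α rfl L M hM, mul_zero]
  | add P Q hP hQ => rw [DD_add hm hb L P Q hM, hP, hQ, add_zero]

end

end Pool.Agent.Helper48
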