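import Mathlib

/-!
One-dimensional part of the description of the extremal measures of the Laplacian:
orthogonality to the derivatives of `(1 - s^2)^M`.
-/

open Polynomial MeasureTheory intervalIntegral

namespace Pool.Agent.Helper48

/-- the polynomial `(1 - X^2)^M` -/
noncomputable def Wp (M : ℕ) : ℝ[X] := (1 - X ^ 2) ^ M

/-- its `l`-th derivative -/
noncomputable def Dp (l M : ℕ) : ℝ[X] := derivative^[l] (Wp M)

lemma Dp_zero (M : ℕ) : Dp 0 M = Wp M := rfl

lemma Dp_succ (l M : ℕ) : Dp (l + 1) M = derivative (Dp l M) := by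
  unfold Dp
  rw [Function.iterate_succ_apply']

lemma pow_dvd_Dp (l M : ℕ) : (1 - X ^ 2 : ℝ[X]) ^ (M - l) ∣ Dp l M :=
  Polynomial.pow_sub_dvd_iterate_derivative_of_pow_dvd l dvd_rfl

lemma Dp_eval_one {l M : ℕ} (h : l < M) : (Dp l M).eval 1 = 0 := by
  obtain ⟨q, hq⟩ := pow_dvd_Dp l M
  rw [hq, eval_mul, eval_pow]
  simp [Nat.sub_ne_zero_of_lt h]

lemma Dp_eval_neg_one {l M : ℕ} (h : l < M) : (Dp l M).eval (-1) = 0 := by
  obtain ⟨q, hq⟩ := pow_dvd_Dp l M
  rw [hq, eval_mul, eval_pow]
  simp [Nat.sub_ne_zero_of_lt h]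

/-- integration by parts against a polynomial vanishing at `±1` -/
lemma ibp {f f' : ℝ → ℝ} (hf : ∀ x, HasDerivAt f (f' x) x) (hf' : Continuous f') {p : ℝ[X]}
    (h1 : p.eval 1 = 0) (h2 : p.eval (-1) = 0) :
    ∫ s in (-1 : ℝ)..1, f s * (derivative p).eval s = - ∫ s in (-1 : ℝ)..1, f' s * p.eval s := by
  have h := intervalIntegral.integral_mul_deriv_eq_deriv_mul (a := (-1 : ℝ)) (b := 1)
    (u := f) (v := fun s => p.eval s) (u' := f') (v' := fun s => (derivative p).eval s)
    (fun x _ => hf x) (fun x _ => p.hasDerivAt x) (hf'.intervalIntegrable _ _)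
    ((derivative p).continuous.intervalIntegrable _ _)
  rw [h, h1, h2]
  simp

lemma hasDerivAt_cos_shift (c : ℝ) (l : ℕ) (s : ℝ) :
    HasDerivAt (fun s : ℝ => Real.cos (c * s - (l + 1 : ℕ) * (Real.pi / 2)))
      (c * Real.cos (c * s - (l : ℕ) * (Real.pi / 2))) s := by
  have h1 : HasDerivAt (fun s : ℝ => c * s - ((l + 1 : ℕ) : ℝ) * (Real.pi / 2)) c s := by
    simpa using ((hasDerivAt_id s).const_mul c).sub_const (((l + 1 : ℕ) : ℝ) * (Real.pi / 2))
  have h2 := h1.cos
  convert h2 using 1
  have : c * s - ((l + 1 : ℕ) : ℝ) * (Real.pi / 2) = (c * s - l * (Real.pi / 2)) - Real.pi / 2 := by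
    push_cast; ring
  rw [this, Real.sin_sub_pi_div_two]
  ring

/-- `∫ cos(c s - lπ/2) (D^l W_M)(s) ds = (-c)^l ∫ cos(c s) W_M(s) ds` for `l ≤ M`. -/
lemma integral_cos_Dp (c : ℝ) {l M : ℕ} (h : l ≤ M) :
    ∫ s in (-1 : ℝ)..1, Real.cos (c * s - l * (Real.pi / 2)) * (Dp l M).eval s =
      (-c) ^ l * ∫ s in (-1 : ℝ)..1, Real.cos (c * s) * (Wp M).eval s := by
  induction l with
  | zero => simp [Dp_zero]
  | succ l ih =>
    rw [Dp_succ, ibp (hasDerivAt_cos_shift c l) (by fun_prop) (Dp_eval_one (by omega))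
      (Dp_eval_neg_one (by omega))]
    have : ∀ s : ℝ, c * Real.cos (c * s - (l : ℕ) * (Real.pi / 2)) * (Dp l M).eval s =
        c * (Real.cos (c * s - (l : ℕ) * (Real.pi / 2)) * (Dp l M).eval s) := fun s => by ring
    simp_rw [this]
    rw [intervalIntegral.integral_const_mul, ih (by omega), pow_succ]
    ring

/-- polynomials of degree less than `l` are orthogonal to `D^l W_M` for `l ≤ M`. -/
lemma integral_poly_Dp {l M : ℕ} (h : l ≤ M) (q : ℝ[X]) (hq : q.degree < l) :
    ∫ s in (-1 : ℝ)..1, q.eval s * (Dp l M).eval s = 0 := by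
  induction l generalizing q with
  | zero =>
    have : q = 0 := by
      by_contra hne
      have h3 := Polynomial.zero_le_degree_iff.mpr hne
      exact absurd (lt_of_le_of_lt h3 hq) (by simp)
    simp [this]
  | succ l ih =>
    rw [Dp_succ, ibp (fun x => q.hasDerivAt x) (derivative q).continuous
      (Dp_eval_one (by omega)) (Dp_eval_neg_one (by omega))]
    rw [ih (by omega) (derivative q) ?_, neg_zero]
    by_cases h0 : q = 0
    · rw [h0]; simp
    · have h1 := Polynomial.degree_derivative_lt h0
      rw [Polynomial.degree_eq_natDegree h0] at hq h1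
      have hq' : q.natDegree < l + 1 := by exact_mod_cast hq
      refine lt_of_lt_of_le h1 ?_
      exact_mod_cast Nat.lt_succ_iff.mp hq'

lemma Wp_natDegree (M : ℕ) : (Wp M).natDegree = 2 * M := by
  unfold Wp
  have h1 : (1 - X ^ 2 : ℝ[X]).natDegree = 2 := by
    have : (1 - X ^ 2 : ℝ[X]) = -(X ^ 2 - C 1) := by simp
    rw [this, natDegree_neg, natDegree_X_pow_sub_C]
  rw [natDegree_pow, h1]
  ring

lemma Wp_coeff_ne_zero (M : ℕ) : (Wp M).coeff (2 * M) ≠ 0 := by
  have h : (Wp M).coeff (2 * M) = (Wp M).leadingCoeff := by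
    rw [leadingCoeff, Wp_natDegree]
  rw [h]
  apply leadingCoeff_ne_zero.mpr
  unfold Wp
  apply pow_ne_zero
  intro h0
  have := congrArg (eval 0) h0
  simp at this

lemma Dp_coeff_ne_zero {l M : ℕ} (h : l ≤ 2 * M) : (Dp l M).coeff (2 * M - l) ≠ 0 := by
  unfold Dp
  rw [Polynomial.coeff_iterate_derivative, Nat.sub_add_cancel h, nsmul_eq_mul]
  apply mul_ne_zero _ (Wp_coeff_ne_zero M)
  have : (2 * M).descFactorial l ≠ 0 := by
    intro h0
    rw [Nat.descFactorial_eq_zero_iff_lt] at h0
    omega
  exact_mod_cast this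

lemma Dp_natDegree_le (l M : ℕ) : (Dp l M).natDegree ≤ 2 * M - l := by
  unfold Dp
  refine (Polynomial.natDegree_iterate_derivative _ _).trans ?_
  rw [Wp_natDegree]

/-! ### The uniqueness lemma -/

/-- `D^l W_M = (1 - X²)^N * r` with `r` of exact degree `l + 2i`, for `M = N + l + i`. -/
lemma exists_factor (l N i : ℕ) :
    ∃ r : ℝ[X], Dp l (N + l + i) = (1 - X ^ 2) ^ N * r ∧ r.natDegree = l + 2 * i ∧ r ≠ 0 := by
  have h1 : (1 - X ^ 2 : ℝ[X]) ^ N ∣ Dp l (N + l + i) := by
    refine dvd_trans (pow_dvd_pow _ ?_) (pow_dvd_Dp l (N + l + i))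
    omega
  obtain ⟨r, hr⟩ := h1
  have hD : Dp l (N + l + i) ≠ 0 := by
    intro h0
    have := Dp_coeff_ne_zero (l := l) (M := N + l + i) (by omega)
    rw [h0] at this
    simp at this
  have hr0 : r ≠ 0 := by
    rintro rfl
    rw [mul_zero] at hr
    exact hD hr
  refine ⟨r, hr, ?_, hr0⟩
  have hdeg : (Dp l (N + l + i)).natDegree = 2 * (N + l + i) - l := by
    apply le_antisymm (Dp_natDegree_le _ _)
    exact le_natDegree_of_ne_zero (Dp_coeff_ne_zero (by omega))
  have hW : ((1 - X ^ 2 : ℝ[X]) ^ N).natDegree = 2 * N := Wp_natDegree N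
  have hW0 : ((1 - X ^ 2 : ℝ[X]) ^ N) ≠ 0 := by
    intro h0
    rw [h0, zero_mul] at hr
    exact hD hr
  rw [hr, natDegree_mul hW0 hr0, hW] at hdeg
  omega

/-- If a continuous function on `[-1,1]` is orthogonal to all polynomials then it vanishes. -/
lemma eq_zero_of_orthogonal {h : ℝ → ℝ} (hc : ContinuousOn h (Set.Icc (-1) 1))
    (horth : ∀ q : ℝ[X], ∫ s in (-1 : ℝ)..1, h s * q.eval s = 0) :
    ∀ s ∈ Set.Icc (-1 : ℝ) 1, h s = 0 := by
  have hle : (-1 : ℝ) ≤ 1 := by norm_num
  have hii : ∀ {f : ℝ → ℝ}, ContinuousOn f (Set.Icc (-1) 1) → IntervalIntegrable f volume (-1) 1 := by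
    intro f hf
    apply ContinuousOn.intervalIntegrable
    rwa [Set.uIcc_of_le hle]
  -- `∫ h² = 0`
  have hsq : ∫ s in (-1 : ℝ)..1, h s * h s = 0 := by
    by_contra hne
    set I : ℝ := ∫ s in (-1 : ℝ)..1, |h s| with hI
    have hI0 : 0 ≤ I := by
      apply intervalIntegral.integral_nonneg hle
      intro u _
      exact abs_nonneg _
    have hpos : 0 < |∫ s in (-1 : ℝ)..1, h s * h s| := abs_pos.mpr hne
    set ε : ℝ := |∫ s in (-1 : ℝ)..1, h s * h s| / (2 * (I + 1)) with hε
    have hεpos : 0 < ε := by positivity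
    obtain ⟨p, hp⟩ := exists_polynomial_near_of_continuousOn (-1) 1 h hc ε hεpos
    have e1 : ∫ s in (-1 : ℝ)..1, h s * h s =
        ∫ s in (-1 : ℝ)..1, h s * (h s - p.eval s) := by
      have : ∀ s, h s * (h s - p.eval s) = h s * h s - h s * p.eval s := fun s => by ring
      simp_rw [this]
      have h5 : ContinuousOn (fun s => h s * h s) (Set.Icc (-1) 1) := hc.mul hc
      have h6 : ContinuousOn (fun s => h s * p.eval s) (Set.Icc (-1) 1) :=
        hc.mul p.continuous.continuousOn
      rw [intervalIntegral.integral_sub (hii h5) (hii h6), horth p, sub_zero]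
    have e2 : |∫ s in (-1 : ℝ)..1, h s * (h s - p.eval s)| ≤ ε * I := by
      have h3 : |∫ s in (-1 : ℝ)..1, h s * (h s - p.eval s)| ≤
          ∫ s in (-1 : ℝ)..1, |h s * (h s - p.eval s)| :=
        intervalIntegral.abs_integral_le_integral_abs hle
      refine h3.trans ?_
      rw [hI, ← intervalIntegral.integral_const_mul]
      apply intervalIntegral.integral_mono_on hle
      · exact hii ((hc.mul (hc.sub p.continuous.continuousOn)).abs)
      · exact hii (hc.abs.const_mul ε) 
      · intro s hs
        rw [abs_mul, mul_comm]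
        apply mul_le_mul_of_nonneg_right _ (abs_nonneg _)
        rw [abs_sub_comm]
        exact (hp s hs).le
    rw [← e1] at e2
    have e3 : ε * I < |∫ s in (-1 : ℝ)..1, h s * h s| := by
      rw [hε, div_mul_eq_mul_div, div_lt_iff₀ (by positivity)]
      nlinarith
    linarith
  have hcont2 : ContinuousOn (fun s => h s * h s) (Set.Icc (-1) 1) := hc.mul hc
  intro s hs
  by_contra hne
  have hpos : 0 < ∫ s in (-1 : ℝ)..1, h s * h s := by
    apply intervalIntegral.integral_pos (by norm_num) hcont2
    · intro x _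
      exact mul_self_nonneg _
    · exact ⟨s, hs, mul_self_pos.mpr hne⟩
  linarith

/-- the weight `(1 - s²)^N` -/
lemma Wp_eval (N : ℕ) (s : ℝ) : (Wp N).eval s = (1 - s ^ 2) ^ N := by
  simp [Wp]

lemma Wp_eval_nonneg (N : ℕ) {s : ℝ} (hs : s ∈ Set.Icc (-1 : ℝ) 1) : 0 ≤ (Wp N).eval s := by
  rw [Wp_eval]
  apply pow_nonneg
  nlinarith [hs.1, hs.2]

lemma Wp_eval_pos (N : ℕ) {s : ℝ} (hs : s ∈ Set.Ioo (-1 : ℝ) 1) : 0 < (Wp N).eval s := by
  rw [Wp_eval]
  apply pow_pos
  nlinarith [hs.1, hs.2]

/-- the exponents `j < l` with `j ≡ l (mod 2)` -/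
abbrev Idx (l : ℕ) : Type := {j : Fin l // (j : ℕ) % 2 = l % 2}

/-- the polynomial with coefficients `c` -/
noncomputable def pol {l : ℕ} (c : Idx l → ℝ) : ℝ[X] := ∑ j : Idx l, C (c j) * X ^ ((j : Fin l) : ℕ)

lemma pol_eval {l : ℕ} (c : Idx l → ℝ) (s : ℝ) :
    (pol c).eval s = ∑ j : Idx l, c j * s ^ ((j : Fin l) : ℕ) := by
  unfold pol
  rw [eval_finsetSum]
  simp

lemma pol_degree_lt {l : ℕ} (c : Idx l → ℝ) : (pol c).degree < l := by
  unfold pol
  rw [← mem_degreeLT]
  apply Submodule.sum_mem
  intro j _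
  rw [mem_degreeLT]
  refine lt_of_le_of_lt (degree_C_mul_X_pow_le _ _) ?_
  exact_mod_cast (j : Fin l).isLt

lemma pol_coeff {l : ℕ} (c : Idx l → ℝ) (j : Idx l) : (pol c).coeff ((j : Fin l) : ℕ) = c j := by
  unfold pol
  rw [finsetSum_coeff]
  simp only [coeff_C_mul, coeff_X_pow]
  rw [Finset.sum_eq_single j]
  · simp
  · intro b _ hb
    have : ((j : Fin l) : ℕ) ≠ ((b : Fin l) : ℕ) := by
      intro h
      apply hb
      apply Subtype.ext
      exact Fin.ext h.symm
    simp [this]
  · simp

lemma pol_parity {l : ℕ} (c : Idx l → ℝ) (s : ℝ) :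
    (pol c).eval (-s) = (-1) ^ l * (pol c).eval s := by
  rw [pol_eval, pol_eval, Finset.mul_sum]
  apply Finset.sum_congr rfl
  intro j _
  have hj : (-1 : ℝ) ^ ((j : Fin l) : ℕ) = (-1) ^ l := by
    have := j.2
    rcases Nat.mod_two_eq_zero_or_one l with h | h
    · rw [Even.neg_one_pow (Nat.even_iff.mpr (this.trans h)),
        Even.neg_one_pow (Nat.even_iff.mpr h)]
    · rw [Odd.neg_one_pow (Nat.odd_iff.mpr (this.trans h)),
        Odd.neg_one_pow (Nat.odd_iff.mpr h)]
  rw [neg_pow, hj]
  ring

lemma pol_add_eval {l : ℕ} (c d : Idx l → ℝ) (s : ℝ) :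
    (pol (c + d)).eval s = (pol c).eval s + (pol d).eval s := by
  simp only [pol_eval, Pi.add_apply, add_mul, Finset.sum_add_distrib]

lemma pol_smul_eval {l : ℕ} (a : ℝ) (c : Idx l → ℝ) (s : ℝ) :
    (pol (a • c)).eval s = a * (pol c).eval s := by
  simp only [pol_eval, Pi.smul_apply, smul_eq_mul, Finset.mul_sum]
  apply Finset.sum_congr rfl
  intro j _
  ring

/-- integrals of odd functions vanish -/
lemma integral_odd {f : ℝ → ℝ} (hf : ∀ s ∈ Set.Icc (-1 : ℝ) 1, f (-s) = -f s) :
    ∫ s in (-1 : ℝ)..1, f s = 0 := by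
  have h1 : ∫ s in (-1 : ℝ)..1, f (-s) = ∫ s in (-1 : ℝ)..1, f s := by
    rw [intervalIntegral.integral_comp_neg]
    simp
  have h2 : ∫ s in (-1 : ℝ)..1, f (-s) = ∫ s in (-1 : ℝ)..1, -f s := by
    apply intervalIntegral.integral_congr
    intro s hs
    rw [Set.uIcc_of_le (by norm_num)] at hs
    exact hf s hs
  rw [intervalIntegral.integral_neg] at h2
  linarith

/-- **Uniqueness lemma.**  A continuous function `g` on `[-1,1]` of the parity of `l` which is
orthogonal to `D^l (1 - s²)^M` for all large `M` is a polynomial of degree less than `l`, with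
only exponents of the parity of `l`. -/
theorem exists_pol_of_orthogonal {l N : ℕ} {g : ℝ → ℝ} (hc : ContinuousOn g (Set.Icc (-1) 1))
    (hpar : ∀ s ∈ Set.Icc (-1 : ℝ) 1, g (-s) = (-1) ^ l * g s)
    (horth : ∀ M : ℕ, N + l ≤ M → ∫ s in (-1 : ℝ)..1, g s * (Dp l M).eval s = 0) :
    ∃ c : Idx l → ℝ, ∀ s ∈ Set.Icc (-1 : ℝ) 1, g s = (pol c).eval s := by
  have hle : (-1 : ℝ) ≤ 1 := by norm_num
  have hii : ∀ {f : ℝ → ℝ}, ContinuousOn f (Set.Icc (-1) 1) → IntervalIntegrable f volume (-1) 1 := by
    intro f hf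
    apply ContinuousOn.intervalIntegrable
    rwa [Set.uIcc_of_le hle]
  -- the Gram map
  let T : (Idx l → ℝ) →ₗ[ℝ] (Idx l → ℝ) :=
    { toFun := fun c i => ∫ s in (-1 : ℝ)..1, (pol c).eval s * (s ^ ((i : Fin l) : ℕ) * (Wp N).eval s)
      map_add' := by
        intro c d
        funext i
        simp only [Pi.add_apply]
        rw [← intervalIntegral.integral_add]
        · apply intervalIntegral.integral_congr
          intro s _
          simp only [pol_add_eval]
          ring
        · apply hii; fun_prop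
        · apply hii; fun_prop
      map_smul' := by
        intro a c
        funext i
        simp only [Pi.smul_apply, smul_eq_mul, RingHom.id_apply]
        rw [← intervalIntegral.integral_const_mul]
        apply intervalIntegral.integral_congr
        intro s _
        simp only [pol_smul_eval]
        ring }
  have hT : ∀ c i, T c i =
    ∫ s in (-1 : ℝ)..1, (pol c).eval s * (s ^ ((i : Fin l) : ℕ) * (Wp N).eval s) := fun _ _ => rfl
  have hinj : Function.Injective T := by
    rw [injective_iff_map_eq_zero]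
    intro c hc0
    have h1 : ∫ s in (-1 : ℝ)..1, (pol c).eval s * ((pol c).eval s * (Wp N).eval s) = 0 := by
      have h2 : ∑ i, c i * T c i = 0 := by simp [hc0]
      rw [← h2]
      simp_rw [hT, ← intervalIntegral.integral_const_mul]
      rw [← intervalIntegral.integral_finsetSum]
      · apply intervalIntegral.integral_congr
        intro s _
        simp only
        conv_lhs => rw [pol_eval c s]
        rw [← pol_eval c s]
        have : ∀ i : Idx l, c i * ((pol c).eval s * (s ^ ((i : Fin l) : ℕ) * (Wp N).eval s)) =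
            (c i * s ^ ((i : Fin l) : ℕ)) * ((pol c).eval s * (Wp N).eval s) := fun i => by ring
        simp_rw [this]
        rw [← Finset.sum_mul, ← pol_eval]
      · intro i _
        apply hii; fun_prop
    have h3 : ∀ s ∈ Set.Ioo (-1 : ℝ) 1, (pol c).eval s = 0 := by
      intro s hs
      by_contra hne
      have hpos : 0 < ∫ s in (-1 : ℝ)..1, (pol c).eval s * ((pol c).eval s * (Wp N).eval s) := by
        apply intervalIntegral.integral_pos (by norm_num)
        · fun_prop
        · intro x hx
          have := Wp_eval_nonneg N ⟨hx.1.le, hx.2⟩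
          rw [← mul_assoc]
          exact mul_nonneg (mul_self_nonneg _) this
        · refine ⟨s, ⟨hs.1.le, hs.2.le⟩, ?_⟩
          rw [← mul_assoc]
          exact mul_pos (mul_self_pos.mpr hne) (Wp_eval_pos N hs)
      linarith
    have h4 : pol c = 0 := by
      apply Polynomial.eq_zero_of_infinite_isRoot
      refine Set.Infinite.mono ?_ (Set.Ioo_infinite (by norm_num : (-1 : ℝ) < 1))
      intro s hs
      exact h3 s hs
    funext j
    rw [← pol_coeff c j, h4]
    simp
  have hsurj : Function.Surjective T := LinearMap.injective_iff_surjective.mp hinj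
  obtain ⟨c, hcT⟩ := hsurj (fun i => ∫ s in (-1 : ℝ)..1, g s * (s ^ ((i : Fin l) : ℕ) * (Wp N).eval s))
  refine ⟨c, ?_⟩
  -- the difference
  set h : ℝ → ℝ := fun s => g s - (pol c).eval s with hh
  have hhc : ContinuousOn h (Set.Icc (-1) 1) := hc.sub (pol c).continuous.continuousOn
  have hhpar : ∀ s ∈ Set.Icc (-1 : ℝ) 1, h (-s) = (-1) ^ l * h s := by
    intro s hs
    simp only [hh]
    rw [hpar s hs, pol_parity]
    ring
  -- all moments against the weight vanish
  have hmom : ∀ d : ℕ, ∫ s in (-1 : ℝ)..1, h s * (s ^ d * (Wp N).eval s) = 0 := by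
    intro d
    induction d using Nat.strong_induction_on with
    | _ d ih =>
      by_cases hpd : d % 2 = l % 2
      · rcases lt_or_ge d l with hdl | hdl
        · -- small exponents: by construction
          have h5 := congrFun hcT ⟨⟨d, hdl⟩, hpd⟩
          rw [hT] at h5
          simp only at h5
          have : ∀ s, h s * (s ^ d * (Wp N).eval s) =
              g s * (s ^ d * (Wp N).eval s) - (pol c).eval s * (s ^ d * (Wp N).eval s) := by
            intro s; simp only [hh]; ring
          simp_rw [this]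
          have c1 : ContinuousOn (fun s => g s * (s ^ d * (Wp N).eval s)) (Set.Icc (-1) 1) :=
            hc.mul (by fun_prop)
          have c2 : ContinuousOn (fun s => (pol c).eval s * (s ^ d * (Wp N).eval s))
            (Set.Icc (-1) 1) := by fun_prop
          rw [intervalIntegral.integral_sub (hii c1) (hii c2), h5, sub_self]
        · -- large exponents
          obtain ⟨i, hi⟩ : ∃ i, d = l + 2 * i := ⟨(d - l) / 2, by omega⟩
          obtain ⟨r, hr1, hr2, hr3⟩ := exists_factor l N i
          have hr4 : ∫ s in (-1 : ℝ)..1, h s * (Dp l (N + l + i)).eval s = 0 := by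
            have : ∀ s, h s * (Dp l (N + l + i)).eval s =
              g s * (Dp l (N + l + i)).eval s - (pol c).eval s * (Dp l (N + l + i)).eval s := by
              intro s; simp only [hh]; ring
            simp_rw [this]
            have c1 : ContinuousOn (fun s => g s * (Dp l (N + l + i)).eval s) (Set.Icc (-1) 1) :=
              hc.mul (by fun_prop)
            have c2 : ContinuousOn (fun s => (pol c).eval s * (Dp l (N + l + i)).eval s)
              (Set.Icc (-1) 1) := by fun_prop
            rw [intervalIntegral.integral_sub (hii c1) (hii c2), horth _ (by omega),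
              integral_poly_Dp (by omega) _ (pol_degree_lt c), sub_self]
          have hr5 : ∀ s, h s * (Dp l (N + l + i)).eval s =
              ∑ j ∈ Finset.range (d + 1), r.coeff j * (h s * (s ^ j * (Wp N).eval s)) := by
            intro s
            rw [hr1, eval_mul]
            have hdeg : r.natDegree < d + 1 := by omega
            rw [Polynomial.eval_eq_sum_range' hdeg]
            have : ((1 - X ^ 2 : ℝ[X]) ^ N).eval s = (Wp N).eval s := rfl
            rw [this, Finset.mul_sum, Finset.mul_sum]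
            apply Finset.sum_congr rfl
            intro j _
            ring
          simp_rw [hr5] at hr4
          rw [intervalIntegral.integral_finsetSum] at hr4
          · rw [Finset.sum_range_succ, Finset.sum_eq_zero, zero_add,
              intervalIntegral.integral_const_mul] at hr4
            · rcases mul_eq_zero.mp hr4 with h6 | h6
              · exfalso
                have : r.coeff d = r.leadingCoeff := by
                  rw [leadingCoeff, hr2, hi]
                rw [this] at h6
                exact leadingCoeff_ne_zero.mpr hr3 h6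
              · exact h6
            · intro j hj
              rw [intervalIntegral.integral_const_mul, ih j (Finset.mem_range.mp hj), mul_zero]
          · intro j _
            apply hii
            apply ContinuousOn.mul continuousOn_const
            exact hhc.mul (by fun_prop)
      · -- wrong parity: odd integrand
        apply integral_odd
        intro s hs
        rw [hhpar s hs, Wp_eval, Wp_eval, neg_pow s d, neg_sq]
        have : (-1 : ℝ) ^ l * (-1) ^ d = -1 := by
          rw [← pow_add]
          apply Odd.neg_one_pow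
          rw [Nat.odd_iff]
          omega
        calc (-1) ^ l * h s * ((-1) ^ d * s ^ d * (1 - s ^ 2) ^ N) =
            ((-1) ^ l * (-1) ^ d) * (h s * (s ^ d * (1 - s ^ 2) ^ N)) := by ring
          _ = _ := by rw [this]; ring
  -- hence `h * weight = 0`
  have hhw : ∀ s ∈ Set.Icc (-1 : ℝ) 1, h s * (Wp N).eval s = 0 := by
    apply eq_zero_of_orthogonal
    · exact hhc.mul (by fun_prop)
    · intro q
      have : ∀ s, h s * (Wp N).eval s * q.eval s =
          ∑ j ∈ Finset.range (q.natDegree + 1), q.coeff j * (h s * (s ^ j * (Wp N).eval s)) := by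
        intro s
        rw [Polynomial.eval_eq_sum_range (p := q), Finset.mul_sum]
        apply Finset.sum_congr rfl
        intro j _
        ring
      simp_rw [this]
      rw [intervalIntegral.integral_finsetSum]
      · apply Finset.sum_eq_zero
        intro j _
        rw [intervalIntegral.integral_const_mul, hmom j, mul_zero]
      · intro j _
        apply hii
        apply ContinuousOn.mul continuousOn_const
        exact hhc.mul (by fun_prop)
  have hh0 : ∀ s ∈ Set.Ioo (-1 : ℝ) 1, h s = 0 := by
    intro s hs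
    rcases mul_eq_zero.mp (hhw s ⟨hs.1.le, hs.2.le⟩) with h6 | h6
    · exact h6
    · exact absurd h6 (Wp_eval_pos N hs).ne'
  have hfin : Set.EqOn h (fun _ => 0) (Set.Icc (-1) 1) := by
    have hcl : closure (Set.Ioo (-1 : ℝ) 1) = Set.Icc (-1) 1 := closure_Ioo (by norm_num)
    refine Set.EqOn.of_subset_closure (s := Set.Ioo (-1 : ℝ) 1) (fun s hs => hh0 s hs) hhc
      continuousOn_const Set.Ioo_subset_Icc_self hcl.ge
  intro s hs
  have := hfin hs
  simp only [hh] at this
  linarith

end Pool.Agent.Helper48
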