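import Pool.Agent.Helper48.Ball
import Pool.Agent.Helper48.OneDim

/-!
One-dimensional marginals of the weights `(1 - |ξ|²)_+^β`.
-/

open MeasureTheory

namespace Pool.Agent.Helper48

/-- the normalising constant `∫_{ℝ^m} (1 - |y|²)_+^β dy` -/
noncomputable def Cst (m : ℕ) (β : ℝ) : ℝ := ∫ y : Fin m → ℝ, (max 0 (1 - ∑ i, y i ^ 2)) ^ β

lemma Cst_pos {m : ℕ} {β : ℝ} (hβ : 0 < β) : 0 < Cst m β := by
  unfold Cst
  have hcont : Continuous (fun y : Fin m → ℝ => (max 0 (1 - ∑ i, y i ^ 2)) ^ β) := by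
    apply Continuous.rpow_const (by fun_prop)
    intro x; right; exact hβ.le
  have hcs : HasCompactSupport (fun y : Fin m → ℝ => (max 0 (1 - ∑ i, y i ^ 2)) ^ β) := by
    apply HasCompactSupport.intro (isCompact_closedBall (0 : Fin m → ℝ) 1)
    intro x hx
    rw [mem_closedBall_zero_iff, not_le] at hx
    have h1 : 1 ≤ ∑ i, x i ^ 2 := by
      rcases Nat.eq_zero_or_pos m with hm | hm
      · subst hm
        have : x = 0 := Subsingleton.elim _ _
        rw [this, norm_zero] at hx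
        linarith
      · obtain ⟨i, hi⟩ : ∃ i, 1 < ‖x i‖ := by
          by_contra hcon
          push Not at hcon
          exact absurd ((pi_norm_le_iff_of_nonneg zero_le_one).mpr hcon) (not_le.mpr hx)
        have h2 : x i ^ 2 ≤ ∑ i, x i ^ 2 :=
          Finset.single_le_sum (f := fun i => x i ^ 2) (fun i _ => sq_nonneg _) (Finset.mem_univ i)
        have h3 : 1 ≤ x i ^ 2 := by
          rw [← sq_abs]
          rw [Real.norm_eq_abs] at hi
          nlinarith
        linarith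
    rw [max_eq_left (by linarith), Real.zero_rpow hβ.ne']
  apply hcont.integral_pos_of_hasCompactSupport_nonneg_nonzero hcs (x := 0)
  · intro y
    exact Real.rpow_nonneg (le_max_left _ _) _
  · simp

/-- scaling of the inner integral -/
lemma inner_scaling {m : ℕ} {β : ℝ} (hβ : 0 < β) (s : ℝ) :
    ∫ y : Fin m → ℝ, (max 0 (1 - (s ^ 2 + ∑ i, y i ^ 2))) ^ β =
      (max 0 (1 - s ^ 2)) ^ (β + m / 2) * Cst m β := by
  rcases le_or_gt (1 - s ^ 2) 0 with h | h
  · rw [max_eq_left h, Real.zero_rpow (by positivity), zero_mul]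
    have : ∀ y : Fin m → ℝ, (max 0 (1 - (s ^ 2 + ∑ i, y i ^ 2))) ^ β = 0 := by
      intro y
      have h1 : 0 ≤ ∑ i, y i ^ 2 := Finset.sum_nonneg fun i _ => sq_nonneg _
      rw [max_eq_left (by linarith), Real.zero_rpow hβ.ne']
    simp [this]
  · rw [max_eq_right h.le]
    set a : ℝ := Real.sqrt (1 - s ^ 2) with ha
    have ha0 : 0 < a := Real.sqrt_pos.mpr h
    have ha2 : a ^ 2 = 1 - s ^ 2 := Real.sq_sqrt h.le
    have h1 := Measure.integral_comp_smul (volume : Measure (Fin m → ℝ))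
      (fun y : Fin m → ℝ => (max 0 (1 - (s ^ 2 + ∑ i, y i ^ 2))) ^ β) a
    have h2 : ∀ y : Fin m → ℝ, (max 0 (1 - (s ^ 2 + ∑ i, (a • y) i ^ 2))) ^ β =
        (1 - s ^ 2) ^ β * (max 0 (1 - ∑ i, y i ^ 2)) ^ β := by
      intro y
      rw [← Real.mul_rpow h.le (le_max_left _ _), mul_max_of_nonneg _ _ h.le, mul_zero]
      congr 2
      simp only [Pi.smul_apply, smul_eq_mul, mul_pow]
      rw [← Finset.mul_sum, ha2]
      ring
    simp_rw [h2] at h1
    rw [integral_const_mul] at h1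
    have hfr : Module.finrank ℝ (Fin m → ℝ) = m := by simp
    rw [hfr, smul_eq_mul, abs_of_pos (by positivity)] at h1
    have h3 : (∫ y : Fin m → ℝ, (max 0 (1 - (s ^ 2 + ∑ i, y i ^ 2))) ^ β) =
        a ^ m * ((1 - s ^ 2) ^ β * Cst m β) := by
      unfold Cst
      rw [h1, ← mul_assoc, mul_inv_cancel₀ (by positivity), one_mul]
    rw [h3, Real.rpow_add h, ← ha2]
    have h4 : (a ^ 2) ^ ((m : ℝ) / 2) = a ^ m := by
      rw [← Real.rpow_natCast a 2, ← Real.rpow_mul ha0.le, ← Real.rpow_natCast a m]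
      congr 1
      push_cast
      ring
    rw [h4]
    ring

/-- coordinates in `ℝ^{m+1}`: the marginal of the weight in the first coordinate -/
lemma marginal_coord {m : ℕ} {β : ℝ} (hβ : 0 < β) {f : ℝ → ℝ} (hf : Continuous f) :
    ∫ ξ : V (m + 1), rho β ξ * f (ξ 0) =
      Cst m β * ∫ s : ℝ, (max 0 (1 - s ^ 2)) ^ (β + m / 2) * f s := by
  -- pass to the product measure
  have hmp1 := PiLp.volume_preserving_toLp (Fin (m + 1))
  have e1 : ∫ ξ : V (m + 1), rho β ξ * f (ξ 0) =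
      ∫ x : Fin (m + 1) → ℝ, (max 0 (1 - ∑ i, x i ^ 2)) ^ β * f (x 0) := by
    rw [← hmp1.integral_comp (MeasurableEquiv.toLp 2 (Fin (m + 1) → ℝ)).measurableEmbedding]
    congr 1
    funext x
    unfold rho
    rw [EuclideanSpace.norm_sq_eq]
    simp
  rw [e1]
  have hmp2 := volume_preserving_piFinSuccAbove (fun _ : Fin (m + 1) => ℝ) 0
  have e2 : ∫ x : Fin (m + 1) → ℝ, (max 0 (1 - ∑ i, x i ^ 2)) ^ β * f (x 0) =
      ∫ z : ℝ × (Fin m → ℝ), (max 0 (1 - (z.1 ^ 2 + ∑ i, z.2 i ^ 2))) ^ β * f z.1 := by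
    rw [← hmp2.integral_comp (MeasurableEquiv.piFinSuccAbove (fun _ => ℝ) 0).measurableEmbedding]
    congr 1
    funext x
    rw [Fin.sum_univ_succ]
    simp [MeasurableEquiv.piFinSuccAbove, Fin.insertNthEquiv, Fin.tail]
  rw [e2]
  have hcont : Continuous (fun z : ℝ × (Fin m → ℝ) =>
      (max 0 (1 - (z.1 ^ 2 + ∑ i, z.2 i ^ 2))) ^ β * f z.1) := by
    apply Continuous.mul _ (by fun_prop)
    apply Continuous.rpow_const (by fun_prop)
    intro x; right; exact hβ.le
  have hcs : HasCompactSupport (fun z : ℝ × (Fin m → ℝ) =>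
      (max 0 (1 - (z.1 ^ 2 + ∑ i, z.2 i ^ 2))) ^ β * f z.1) := by
    apply HasCompactSupport.intro (isCompact_closedBall (0 : ℝ × (Fin m → ℝ)) 1)
    intro z hz
    rw [mem_closedBall_zero_iff, not_le] at hz
    have h1 : 1 ≤ z.1 ^ 2 + ∑ i, z.2 i ^ 2 := by
      have hsum : 0 ≤ ∑ i, z.2 i ^ 2 := Finset.sum_nonneg fun i _ => sq_nonneg _
      rw [Prod.norm_def, lt_max_iff] at hz
      rcases hz with hz | hz
      · rw [Real.norm_eq_abs] at hz
        have : 1 ≤ z.1 ^ 2 := by
          rw [← sq_abs]; nlinarith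
        linarith
      · obtain ⟨i, hi⟩ : ∃ i, 1 < ‖z.2 i‖ := by
          by_contra hcon
          push Not at hcon
          exact absurd ((pi_norm_le_iff_of_nonneg zero_le_one).mpr hcon) (not_le.mpr hz)
        have h2 : z.2 i ^ 2 ≤ ∑ i, z.2 i ^ 2 :=
          Finset.single_le_sum (f := fun i => z.2 i ^ 2) (fun i _ => sq_nonneg _)
            (Finset.mem_univ i)
        have h3 : 1 ≤ z.2 i ^ 2 := by
          rw [← sq_abs]
          rw [Real.norm_eq_abs] at hi
          nlinarith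
        nlinarith [sq_nonneg z.1]
    rw [max_eq_left (by linarith), Real.zero_rpow hβ.ne', zero_mul]
  have hint : Integrable (fun z : ℝ × (Fin m → ℝ) =>
      (max 0 (1 - (z.1 ^ 2 + ∑ i, z.2 i ^ 2))) ^ β * f z.1) :=
    hcont.integrable_of_hasCompactSupport hcs
  rw [Measure.volume_eq_prod] at hint ⊢
  rw [integral_prod _ hint, ← integral_const_mul]
  congr 1
  funext s
  simp only
  rw [integral_mul_const, inner_scaling hβ]
  ring

/-- the marginal of the weight in the direction of a unit vector -/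
theorem marginal {m M : ℕ} (hM : (m : ℝ) / 2 < M) {f : ℝ → ℝ} (hf : Continuous f)
    {ω : V (m + 1)} (hω : ‖ω‖ = 1) :
    ∫ ξ : V (m + 1), rho ((M : ℝ) - m / 2) ξ * f (inner ℝ ω ξ) =
      Cst m ((M : ℝ) - m / 2) * ∫ s in (-1 : ℝ)..1, (Wp M).eval s * f s := by
  have hβ : (0 : ℝ) < (M : ℝ) - m / 2 := by linarith
  set β : ℝ := (M : ℝ) - m / 2 with hβdef
  -- rotate
  set e0 : V (m + 1) := EuclideanSpace.single 0 1 with he0
  have he0n : ‖e0‖ = 1 := by simp [he0]
  set U := (Submodule.span ℝ {e0 - ω})ᗮ.reflection with hU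
  have hUe : U e0 = ω := Submodule.reflection_sub (by rw [he0n, hω])
  have e1 : ∫ ξ : V (m + 1), rho β ξ * f (inner ℝ ω ξ) = ∫ ξ : V (m + 1), rho β ξ * f (ξ 0) := by
    have hmp := U.measurePreserving
    rw [← hmp.integral_comp U.toHomeomorph.measurableEmbedding]
    congr 1
    funext ξ
    have h1 : rho β (U ξ) = rho β ξ := by
      unfold rho; rw [U.norm_map]
    have h2 : inner ℝ ω (U ξ) = ξ 0 := by
      rw [← hUe, U.inner_map_map, he0, EuclideanSpace.inner_single_left]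
      simp
    rw [h1, h2]
  rw [e1, marginal_coord hβ hf]
  congr 1
  have e2 : β + (m : ℝ) / 2 = M := by rw [hβdef]; ring
  rw [e2]
  have hM0 : M ≠ 0 := by
    rintro rfl
    have : (0 : ℝ) ≤ (m : ℝ) / 2 := by positivity
    simp at hM
    linarith
  -- restrict to `[-1,1]`
  rw [intervalIntegral.integral_of_le (by norm_num), ← integral_indicator measurableSet_Ioc]
  congr 1
  funext s
  by_cases hs : s ∈ Set.Ioc (-1 : ℝ) 1
  · rw [Set.indicator_of_mem hs, Wp_eval]
    have h1 : 0 ≤ 1 - s ^ 2 := by nlinarith [hs.1, hs.2]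
    rw [max_eq_right h1, Real.rpow_natCast]
  · rw [Set.indicator_of_notMem hs]
    have h1 : 1 - s ^ 2 ≤ 0 := by
      rw [Set.mem_Ioc, not_and_or, not_lt, not_le] at hs
      rcases hs with hs | hs <;> nlinarith
    rw [max_eq_left h1, Real.rpow_natCast, zero_pow hM0, zero_mul]

end Pool.Agent.Helper48
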