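import Pool.Agent.Helper48.OneDimSeries

/-!
One-dimensional part, continued: coefficients which are polynomials in `1/k`.
-/

open Polynomial MeasureTheory intervalIntegral

namespace Pool.Agent.Helper48

/-- the admissible exponents of degree `l`: `2 ≤ a ≤ hi`, `a ≡ l (mod 2)` -/
def Adm (l hi : ℕ) (q : ℝ[X]) : Prop :=
  ∀ a : ℕ, q.coeff a ≠ 0 → 2 ≤ a ∧ a ≤ hi ∧ a % 2 = l % 2

lemma Adm.zero (l hi : ℕ) : Adm l hi 0 := by
  intro a ha
  simp at ha

lemma Adm.add {l hi : ℕ} {p q : ℝ[X]} (hp : Adm l hi p) (hq : Adm l hi q) : Adm l hi (p + q) := by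
  intro a ha
  rw [coeff_add] at ha
  by_cases h : p.coeff a = 0
  · apply hq a
    intro h'
    rw [h, h', add_zero] at ha
    exact ha rfl
  · exact hp a h

lemma Adm.smul {l hi : ℕ} {p : ℝ[X]} (c : ℝ) (hp : Adm l hi p) : Adm l hi (C c * p) := by
  intro a ha
  rw [coeff_C_mul] at ha
  exact hp a (fun h => ha (by rw [h, mul_zero]))

lemma Adm.mono {l hi hi' : ℕ} {p : ℝ[X]} (h : hi ≤ hi') (hp : Adm l hi p) : Adm l hi' p := by
  intro a ha
  obtain ⟨h1, h2, h3⟩ := hp a ha
  exact ⟨h1, h2.trans h, h3⟩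

lemma Adm.X_sq_mul {l hi : ℕ} {p : ℝ[X]} (hp : Adm l hi p) : Adm l (hi + 2) (X ^ 2 * p) := by
  intro a ha
  rw [coeff_X_pow_mul'] at ha
  split_ifs at ha with h2
  · obtain ⟨h3, h4, h5⟩ := hp _ ha
    refine ⟨h2, by omega, by omega⟩
  · exact absurd rfl ha

lemma Adm.monomial {l hi a : ℕ} (c : ℝ) (h1 : 2 ≤ a) (h2 : a ≤ hi) (h3 : a % 2 = l % 2) :
    Adm l hi (C c * X ^ a) := by
  intro b hb
  rw [coeff_C_mul_X_pow] at hb
  split_ifs at hb with h
  · rw [h]; exact ⟨h1, h2, h3⟩
  · exact absurd rfl hb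

lemma Adm.sum {l hi : ℕ} {ι : Type*} (s : Finset ι) (f : ι → ℝ[X]) (h : ∀ i ∈ s, Adm l hi (f i)) :
    Adm l hi (∑ i ∈ s, f i) := by
  classical
  induction s using Finset.induction_on with
  | empty => simpa using Adm.zero l hi
  | insert a s ha ih =>
    rw [Finset.sum_insert ha]
    exact (h a (Finset.mem_insert_self a s)).add
      (ih fun i hi => h i (Finset.mem_insert_of_mem hi))

/-! ### Integrals of monomials -/

lemma integral_pow_mul_cos (j : ℕ) {c : ℝ} (hc : c ≠ 0) (θ : ℝ) :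
    ∫ s in (-1 : ℝ)..1, s ^ (j + 1) * Real.cos (c * s - θ) =
      (Real.sin (c * 1 - θ) - (-1) ^ (j + 1) * Real.sin (c * (-1) - θ)) / c -
        (j + 1) / c * ∫ s in (-1 : ℝ)..1, s ^ j * Real.sin (c * s - θ) := by
  have hd : ∀ s : ℝ, HasDerivAt (fun s => Real.sin (c * s - θ) / c) (Real.cos (c * s - θ)) s := by
    intro s
    have h1 : HasDerivAt (fun s : ℝ => c * s - θ) c s := by
      simpa using ((hasDerivAt_id s).const_mul c).sub_const θ
    have h2 := h1.sin.div_const c
    rwa [mul_div_assoc, div_self hc, mul_one] at h2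
  have hp : ∀ s : ℝ, HasDerivAt (fun s : ℝ => s ^ (j + 1)) (((j : ℝ) + 1) * s ^ j) s := by
    intro s
    simpa using hasDerivAt_pow (j + 1) s
  have h := intervalIntegral.integral_mul_deriv_eq_deriv_mul (a := (-1 : ℝ)) (b := 1)
    (u := fun s => s ^ (j + 1)) (v := fun s => Real.sin (c * s - θ) / c)
    (u' := fun s => ((j : ℝ) + 1) * s ^ j) (v' := fun s => Real.cos (c * s - θ))
    (fun s _ => hp s) (fun s _ => hd s) (by apply Continuous.intervalIntegrable; fun_prop)
    (by apply Continuous.intervalIntegrable; fun_prop)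
  rw [h]
  have : ∀ s : ℝ, ((j : ℝ) + 1) * s ^ j * (Real.sin (c * s - θ) / c) =
      (((j : ℝ) + 1) / c) * (s ^ j * Real.sin (c * s - θ)) := fun s => by ring
  simp_rw [this]
  rw [intervalIntegral.integral_const_mul]
  ring

lemma integral_pow_mul_sin (j : ℕ) {c : ℝ} (hc : c ≠ 0) (θ : ℝ) :
    ∫ s in (-1 : ℝ)..1, s ^ (j + 1) * Real.sin (c * s - θ) =
      -(Real.cos (c * 1 - θ) - (-1) ^ (j + 1) * Real.cos (c * (-1) - θ)) / c +
        (j + 1) / c * ∫ s in (-1 : ℝ)..1, s ^ j * Real.cos (c * s - θ) := by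
  have hd : ∀ s : ℝ, HasDerivAt (fun s => -Real.cos (c * s - θ) / c) (Real.sin (c * s - θ)) s := by
    intro s
    have h1 : HasDerivAt (fun s : ℝ => c * s - θ) c s := by
      simpa using ((hasDerivAt_id s).const_mul c).sub_const θ
    have h2 := (h1.cos.neg).div_const c
    rwa [neg_mul, neg_neg, mul_div_assoc, div_self hc, mul_one] at h2
  have hp : ∀ s : ℝ, HasDerivAt (fun s : ℝ => s ^ (j + 1)) (((j : ℝ) + 1) * s ^ j) s := by
    intro s
    simpa using hasDerivAt_pow (j + 1) s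
  have h := intervalIntegral.integral_mul_deriv_eq_deriv_mul (a := (-1 : ℝ)) (b := 1)
    (u := fun s => s ^ (j + 1)) (v := fun s => -Real.cos (c * s - θ) / c)
    (u' := fun s => ((j : ℝ) + 1) * s ^ j) (v' := fun s => Real.sin (c * s - θ))
    (fun s _ => hp s) (fun s _ => hd s) (by apply Continuous.intervalIntegrable; fun_prop)
    (by apply Continuous.intervalIntegrable; fun_prop)
  rw [h]
  have : ∀ s : ℝ, ((j : ℝ) + 1) * s ^ j * (-Real.cos (c * s - θ) / c) =
      (-(((j : ℝ) + 1) / c)) * (s ^ j * Real.cos (c * s - θ)) := fun s => by ring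
  simp_rw [this]
  rw [intervalIntegral.integral_const_mul]
  ring

/-- `(-1)^k ∫ s^j cos(πks - lπ/2) = -2 sin(lπ/2)/(πk) + (admissible polynomial in 1/k)`,
for `j ≡ l (mod 2)`. -/
lemma exists_moment (l j : ℕ) (hj : j % 2 = l % 2) :
    ∃ q : ℝ[X], Adm l j q ∧ ∀ k : ℕ, 1 ≤ k →
      (-1) ^ k * ∫ s in (-1 : ℝ)..1, s ^ j * cs l k s =
        -(2 * Real.sin (l * (Real.pi / 2)) / Real.pi) * (k : ℝ)⁻¹ + q.eval ((k : ℝ)⁻¹) := by
  have hpi := Real.pi_pos
  have hsq : ∀ k : ℕ, ((-1 : ℝ) ^ k) * (-1) ^ k = 1 := by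
    intro k
    rw [← mul_pow]; norm_num
  have hne : ∀ k : ℕ, 1 ≤ k → Real.pi * (k : ℝ) ≠ 0 := by
    intro k hk
    have : (0 : ℝ) < k := by exact_mod_cast hk
    positivity
  -- `sin (lπ/2) = 0` for even `l`, `cos (lπ/2) = 0` for odd `l`
  have hsin : l % 2 = 0 → Real.sin (l * (Real.pi / 2)) = 0 := by
    intro h
    obtain ⟨i, hi⟩ := (Nat.even_iff.mpr h)
    have : (l : ℝ) * (Real.pi / 2) = (i : ℕ) * Real.pi := by rw [hi]; push_cast; ring
    rw [this, Real.sin_nat_mul_pi]
  have hcos : l % 2 = 1 → Real.cos (l * (Real.pi / 2)) = 0 := by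
    intro h
    obtain ⟨i, hi⟩ := (Nat.odd_iff.mpr h)
    rw [Real.cos_eq_zero_iff]
    refine ⟨i, ?_⟩
    rw [hi]; push_cast; ring
  induction j using Nat.strong_induction_on with
  | _ j ih =>
    match j, hj, ih with
    | 0, hj, _ =>
      refine ⟨0, Adm.zero _ _, ?_⟩
      intro k hk
      have h0 : Real.sin (l * (Real.pi / 2)) = 0 := hsin (by omega)
      have h1 : ∫ s in (-1 : ℝ)..1, s ^ 0 * cs l k s = 0 := by
        have : ∀ s : ℝ, s ^ 0 * cs l k s = Real.cos ((Real.pi * k) * s + (-(l * (Real.pi / 2)))) := by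
          intro s; unfold cs; rw [pow_zero, one_mul]; congr 1
        simp_rw [this]
        rw [integral_cos_affine (hne k hk)]
        have e1 : Real.pi * (k : ℝ) + -(l * (Real.pi / 2)) = Real.pi * k * 1 - l * (Real.pi / 2) := by
          ring
        have e2 : -(Real.pi * (k : ℝ)) + -(l * (Real.pi / 2)) =
            Real.pi * k * (-1) - l * (Real.pi / 2) := by ring
        rw [e1, e2, sin_bdry, sin_bdry', sub_self, zero_div]
      rw [h1, h0]
      simp
    | 1, hj, _ =>
      refine ⟨0, Adm.zero _ _, ?_⟩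
      intro k hk
      have hk0 := hne k hk
      have h0 : Real.cos (l * (Real.pi / 2)) = 0 := hcos (by omega)
      have h1 := integral_pow_mul_cos 0 hk0 (l * (Real.pi / 2))
      have h2 : ∫ s in (-1 : ℝ)..1, s ^ 0 * Real.sin (Real.pi * k * s - l * (Real.pi / 2)) = 0 := by
        have hd : ∀ s : ℝ, HasDerivAt (fun s => -Real.cos (Real.pi * k * s - l * (Real.pi / 2)) /
            (Real.pi * k)) (s ^ 0 * Real.sin (Real.pi * k * s - l * (Real.pi / 2))) s := by
          intro s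
          have h1 : HasDerivAt (fun s : ℝ => Real.pi * k * s - l * (Real.pi / 2)) (Real.pi * k) s := by
            simpa using ((hasDerivAt_id s).const_mul (Real.pi * (k : ℝ))).sub_const
              ((l : ℝ) * (Real.pi / 2))
          have h2 := (h1.cos.neg).div_const (Real.pi * k)
          rw [neg_mul, neg_neg, mul_div_assoc, div_self hk0, mul_one] at h2
          rwa [pow_zero, one_mul]
        rw [intervalIntegral.integral_eq_sub_of_hasDerivAt (fun s _ => hd s)
          (by apply Continuous.intervalIntegrable; fun_prop), cos_bdry, cos_bdry', sub_self]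
      have h3 : ∀ s : ℝ, s ^ 1 * cs l k s =
        s ^ (0 + 1) * Real.cos (Real.pi * k * s - l * (Real.pi / 2)) := fun s => rfl
      simp_rw [h3]
      rw [h1, h2, sin_bdry, sin_bdry']
      have hk' : (k : ℝ) ≠ 0 := by
        intro h; rw [h, mul_zero] at hk0; exact hk0 rfl
      simp only [zero_add, pow_one, mul_zero, sub_zero, eval_zero, add_zero]
      have := hsq k
      field_simp
      linear_combination (-2 * Real.sin (↑l * Real.pi / 2)) * this
    | (j + 2), hj, ih =>
      obtain ⟨q, hq, hqk⟩ := ih j (by omega) (by omega)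
      set σ := Real.sin (l * (Real.pi / 2)) with hσ
      set κ := Real.cos (l * (Real.pi / 2)) with hκ
      -- parity of `j`
      have hrec : ∀ k : ℕ, 1 ≤ k → (-1) ^ k * ∫ s in (-1 : ℝ)..1, s ^ (j + 2) * cs l k s =
          -(2 * σ / Real.pi) * (k : ℝ)⁻¹ + (2 * κ * (j + 2) / Real.pi ^ 2) * ((k : ℝ)⁻¹) ^ 2 -
          ((j + 2) * (j + 1) / Real.pi ^ 2) * ((k : ℝ)⁻¹) ^ 2 *
            ((-1) ^ k * ∫ s in (-1 : ℝ)..1, s ^ j * cs l k s) := by
        intro k hk
        have hk0 := hne k hk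
        have hk' : (k : ℝ) ≠ 0 := by
          intro h; rw [h, mul_zero] at hk0; exact hk0 rfl
        have h1 := integral_pow_mul_cos (j + 1) hk0 (l * (Real.pi / 2))
        have h2 := integral_pow_mul_sin j hk0 (l * (Real.pi / 2))
        have h3 : ∀ s : ℝ, s ^ (j + 2) * cs l k s =
          s ^ (j + 1 + 1) * Real.cos (Real.pi * k * s - l * (Real.pi / 2)) := fun s => rfl
        have h4 : ∀ s : ℝ, s ^ j * cs l k s =
          s ^ j * Real.cos (Real.pi * k * s - l * (Real.pi / 2)) := fun s => rfl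
        simp_rw [h3, h4]
        rw [h1, h2, sin_bdry, sin_bdry', cos_bdry, cos_bdry', ← hσ, ← hκ]
        set A := ∫ s in (-1 : ℝ)..1, s ^ j * Real.cos (Real.pi * k * s - l * (Real.pi / 2))
        have hs := hsq k
        have hpar : (σ = 0 ∧ (-1 : ℝ) ^ j = 1) ∨ (κ = 0 ∧ (-1 : ℝ) ^ j = -1) := by
          rcases Nat.mod_two_eq_zero_or_one l with h | h
          · left
            exact ⟨hsin h, Even.neg_one_pow (Nat.even_iff.mpr (by omega))⟩
          · right
            exact ⟨hcos h, Odd.neg_one_pow (Nat.odd_iff.mpr (by omega))⟩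
        rw [pow_succ (-1 : ℝ) (j + 1), pow_succ (-1 : ℝ) j]
        rcases hpar with ⟨h5, h6⟩ | ⟨h5, h6⟩
        · rw [h5, h6]
          push_cast
          field_simp
          linear_combination (2 * κ * (j + 2)) * hs
        · rw [h5, h6]
          push_cast
          field_simp
          linear_combination (-2 * σ * (k : ℝ) * Real.pi) * hs
      refine ⟨C (2 * κ * (j + 2) / Real.pi ^ 2) * X ^ 2 + 
        (C (((j + 2) * (j + 1) / Real.pi ^ 2) * (2 * σ / Real.pi)) * X ^ 3 + 
        C (-((j + 2) * (j + 1) / Real.pi ^ 2)) * (X ^ 2 * q)), ?_, ?_⟩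
      · apply Adm.add
        · rcases Nat.mod_two_eq_zero_or_one l with h | h
          · exact Adm.monomial _ le_rfl (by omega) (by omega)
          · have : κ = 0 := hcos h
            rw [this]
            simpa using Adm.zero _ _
        · apply Adm.add
          · rcases Nat.mod_two_eq_zero_or_one l with h | h
            · have : σ = 0 := hsin h
              rw [this]
              simpa using Adm.zero _ _
            · exact Adm.monomial _ (by omega) (by omega) (by omega)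
          · exact (hq.X_sq_mul).smul _
      · intro k hk
        rw [hrec k hk, hqk k hk]
        simp only [eval_add, eval_mul, eval_C, eval_pow, eval_X]
        ring

/-! ### Bernoulli polynomials: the converse -/

lemma bernoulli_natDegree_le (n : ℕ) : (Polynomial.bernoulli n).natDegree ≤ n := by
  unfold Polynomial.bernoulli
  apply Polynomial.natDegree_sum_le_of_forall_le
  intro i _
  exact (Polynomial.natDegree_monomial_le _).trans (Nat.sub_le _ _)

/-- For `a ≥ 2`, `a ≡ l (mod 2)`, the series `∑ (-1)^k k^{-a} cos(πks - lπ/2)` is a polynomial of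
degree at most `a` on `[-1,1]`. -/
lemma hasSum_inv_pow {l a : ℕ} (ha : 2 ≤ a) (hal : a % 2 = l % 2) :
    ∃ q : ℝ[X], q.natDegree ≤ a ∧ ∀ s ∈ Set.Icc (-1 : ℝ) 1,
      HasSum (fun k : ℕ => tm l (fun k => ((k : ℝ)⁻¹) ^ a) (k + 1) s) (q.eval s) := by
  have hx : ∀ s ∈ Set.Icc (-1 : ℝ) 1, (1 + s) / 2 ∈ Set.Icc (0 : ℝ) 1 := by
    intro s hs
    constructor <;> linarith [hs.1, hs.2]
  have hcomp : ∀ (p : ℚ[X]) (c : ℝ), p.natDegree ≤ a →
      (C c * (p.map (algebraMap ℚ ℝ)).comp (C (1 / 2) + C (1 / 2) * X)).natDegree ≤ a := by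
    intro p c hp
    refine (natDegree_C_mul_le _ _).trans ?_
    refine natDegree_comp_le.trans ?_
    have h1 : (p.map (algebraMap ℚ ℝ)).natDegree ≤ a := (natDegree_map_le).trans hp
    have h2 : (C (1 / 2 : ℝ) + C (1 / 2) * X).natDegree ≤ 1 := by
      rw [add_comm]; exact natDegree_linear_le
    calc _ ≤ a * 1 := Nat.mul_le_mul h1 h2
      _ = a := mul_one a
  rcases Nat.mod_two_eq_zero_or_one l with h | h
  · -- even
    obtain ⟨i, hi⟩ : ∃ i, a = 2 * i := ⟨a / 2, by omega⟩
    have hi0 : i ≠ 0 := by omega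
    set K : ℝ := (-1 : ℝ) ^ (i + 1) * (2 * Real.pi) ^ (2 * i) / 2 / ((2 * i).factorial : ℝ) with hK
    refine ⟨C (Real.cos (l * (Real.pi / 2)) * K) *
      ((Polynomial.bernoulli a).map (algebraMap ℚ ℝ)).comp (C (1 / 2) + C (1 / 2) * X),
      hcomp _ _ (bernoulli_natDegree_le a), ?_⟩
    intro s hs
    have h1 := hasSum_one_div_nat_pow_mul_cos hi0 (hx s hs)
    have h2 := (hasSum_nat_add_iff' 1).mpr h1
    have h3 := h2.mul_left (Real.cos (l * (Real.pi / 2)))
    have hterm : ∀ k : ℕ, tm l (fun k => ((k : ℝ)⁻¹) ^ a) (k + 1) s =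
        Real.cos (l * (Real.pi / 2)) * (1 / ((k + 1 : ℕ) : ℝ) ^ (2 * i) *
          Real.cos (2 * Real.pi * ((k + 1 : ℕ) : ℝ) * ((1 + s) / 2))) := by
      intro k
      unfold tm cs
      have e1 : 2 * Real.pi * ((k + 1 : ℕ) : ℝ) * ((1 + s) / 2) =
        Real.pi * ((k + 1 : ℕ) : ℝ) * s + ((k + 1 : ℕ) : ℝ) * Real.pi := by ring
      have hs0 : Real.sin (l * (Real.pi / 2)) = 0 := by
        obtain ⟨i, hi⟩ := (Nat.even_iff.mpr h)
        have : (l : ℝ) * (Real.pi / 2) = (i : ℕ) * Real.pi := by rw [hi]; push_cast; ring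
        rw [this, Real.sin_nat_mul_pi]
      rw [e1, Real.cos_add_nat_mul_pi, Real.cos_sub, hs0, hi]
      beta_reduce
      rw [inv_pow]
      ring
    have hval : Real.cos (l * (Real.pi / 2)) * (((-1 : ℝ) ^ (i + 1) * (2 * Real.pi) ^ (2 * i) / 2 /
        ((2 * i).factorial : ℝ) * (Polynomial.map (algebraMap ℚ ℝ)
          (Polynomial.bernoulli (2 * i))).eval ((1 + s) / 2)) - ∑ k ∈ Finset.range 1,
          1 / ((k : ℕ) : ℝ) ^ (2 * i) * Real.cos (2 * Real.pi * ((k : ℕ) : ℝ) * ((1 + s) / 2))) =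
        (C (Real.cos (l * (Real.pi / 2)) * K) *
      ((Polynomial.bernoulli a).map (algebraMap ℚ ℝ)).comp (C (1 / 2) + C (1 / 2) * X)).eval s := by
      rw [eval_mul, eval_C, eval_comp, ← hK, hi]
      have e2 : (C (1 / 2 : ℝ) + C (1 / 2) * X).eval s = (1 + s) / 2 := by
        simp only [eval_add, eval_mul, eval_C, eval_X]; ring
      rw [e2]
      have e3 : (2 * i) ≠ 0 := by omega
      simp only [Finset.range_one, Finset.sum_singleton, Nat.cast_zero, ne_eq, e3,
        not_false_eq_true, zero_pow, div_zero, zero_mul, sub_zero]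
      ring
    rw [hval] at h3
    rw [funext hterm]
    exact h3
  · -- odd
    obtain ⟨i, hi⟩ : ∃ i, a = 2 * i + 1 := ⟨a / 2, by omega⟩
    have hi0 : i ≠ 0 := by omega
    set K : ℝ := (-1 : ℝ) ^ (i + 1) * (2 * Real.pi) ^ (2 * i + 1) / 2 /
      ((2 * i + 1).factorial : ℝ) with hK
    refine ⟨C (Real.sin (l * (Real.pi / 2)) * K) *
      ((Polynomial.bernoulli a).map (algebraMap ℚ ℝ)).comp (C (1 / 2) + C (1 / 2) * X),
      hcomp _ _ (bernoulli_natDegree_le a), ?_⟩
    intro s hs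
    have h1 := hasSum_one_div_nat_pow_mul_sin hi0 (hx s hs)
    have h2 := (hasSum_nat_add_iff' 1).mpr h1
    have h3 := h2.mul_left (Real.sin (l * (Real.pi / 2)))
    have hterm : ∀ k : ℕ, tm l (fun k => ((k : ℝ)⁻¹) ^ a) (k + 1) s =
        Real.sin (l * (Real.pi / 2)) * (1 / ((k + 1 : ℕ) : ℝ) ^ (2 * i + 1) *
          Real.sin (2 * Real.pi * ((k + 1 : ℕ) : ℝ) * ((1 + s) / 2))) := by
      intro k
      unfold tm cs
      have e1 : 2 * Real.pi * ((k + 1 : ℕ) : ℝ) * ((1 + s) / 2) =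
        Real.pi * ((k + 1 : ℕ) : ℝ) * s + ((k + 1 : ℕ) : ℝ) * Real.pi := by ring
      have hs0 : Real.cos (l * (Real.pi / 2)) = 0 := by
        obtain ⟨i, hi⟩ := (Nat.odd_iff.mpr h)
        rw [Real.cos_eq_zero_iff]
        refine ⟨i, ?_⟩
        rw [hi]; push_cast; ring
      rw [e1, Real.sin_add_nat_mul_pi, Real.cos_sub, hs0, hi]
      beta_reduce
      rw [inv_pow]
      ring
    have hval : Real.sin (l * (Real.pi / 2)) * (((-1 : ℝ) ^ (i + 1) * (2 * Real.pi) ^ (2 * i + 1) / 2 /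
        ((2 * i + 1).factorial : ℝ) * (Polynomial.map (algebraMap ℚ ℝ)
          (Polynomial.bernoulli (2 * i + 1))).eval ((1 + s) / 2)) - ∑ k ∈ Finset.range 1,
          1 / ((k : ℕ) : ℝ) ^ (2 * i + 1) *
            Real.sin (2 * Real.pi * ((k : ℕ) : ℝ) * ((1 + s) / 2))) =
        (C (Real.sin (l * (Real.pi / 2)) * K) *
      ((Polynomial.bernoulli a).map (algebraMap ℚ ℝ)).comp (C (1 / 2) + C (1 / 2) * X)).eval s := by
      rw [eval_mul, eval_C, eval_comp, ← hK, hi]
      have e2 : (C (1 / 2 : ℝ) + C (1 / 2) * X).eval s = (1 + s) / 2 := by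
        simp only [eval_add, eval_mul, eval_C, eval_X]; ring
      rw [e2]
      have e3 : (2 * i + 1) ≠ 0 := by omega
      simp only [Finset.range_one, Finset.sum_singleton, Nat.cast_zero, ne_eq, e3,
        not_false_eq_true, zero_pow, div_zero, zero_mul, sub_zero]
      ring
    rw [hval] at h3
    rw [funext hterm]
    exact h3

/-- forward direction: orthogonality forces the coefficients to be admissible polynomials in
`1/k`. -/
theorem coeff_of_orthogonal {l N : ℕ} {m : ℕ → ℝ} (hm : Summable fun k : ℕ => |m (k + 1)|)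
    (horth : ∀ M : ℕ, N + l ≤ M → ∫ s in (-1 : ℝ)..1, ser l m s * (Dp l M).eval s = 0) :
    ∃ q : ℝ[X], Adm l (l - 2) q ∧ ∀ k : ℕ, 1 ≤ k → m k = q.eval ((k : ℝ)⁻¹) := by
  obtain ⟨c, hc⟩ := exists_pol_of_orthogonal (ser_continuous (l := l) hm).continuousOn
    (fun s _ => ser_neg s) horth
  have hmom : ∀ j : Idx l, ∃ q : ℝ[X], Adm l ((j : Fin l) : ℕ) q ∧ ∀ k : ℕ, 1 ≤ k →
      (-1) ^ k * ∫ s in (-1 : ℝ)..1, s ^ ((j : Fin l) : ℕ) * cs l k s =
        -(2 * Real.sin (l * (Real.pi / 2)) / Real.pi) * (k : ℝ)⁻¹ + q.eval ((k : ℝ)⁻¹) :=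
    fun j => exists_moment l _ j.2
  choose q hq hqk using hmom
  refine ⟨∑ j : Idx l, C (c j) * q j, ?_, ?_⟩
  · apply Adm.sum
    intro j _
    apply ((hq j).smul (c j)).mono
    have h1 := (j : Fin l).isLt
    have h2 := j.2
    omega
  · intro k hk
    have h1 := integral_ser_mul_cs (l := l) hm hk
    have hsq : ((-1 : ℝ) ^ k) * (-1) ^ k = 1 := by
      rw [← mul_pow]; norm_num
    have h2 : ∫ s in (-1 : ℝ)..1, ser l m s * cs l k s =
        ∑ j : Idx l, c j * ∫ s in (-1 : ℝ)..1, s ^ ((j : Fin l) : ℕ) * cs l k s := by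
      simp_rw [← intervalIntegral.integral_const_mul]
      rw [← intervalIntegral.integral_finsetSum]
      · apply intervalIntegral.integral_congr
        intro s hs
        rw [Set.uIcc_of_le (by norm_num)] at hs
        simp only
        rw [hc s hs, pol_eval, Finset.sum_mul]
        apply Finset.sum_congr rfl
        intro j _
        ring
      · intro j _
        apply Continuous.intervalIntegrable
        have := cs_continuous l k
        fun_prop
    have h3 : m k = ∑ j : Idx l, c j * ((-1) ^ k *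
        ∫ s in (-1 : ℝ)..1, s ^ ((j : Fin l) : ℕ) * cs l k s) := by
      have : m k = (-1) ^ k * ((-1) ^ k * m k) := by
        rw [← mul_assoc, hsq, one_mul]
      rw [this, ← h1, h2, Finset.mul_sum]
      apply Finset.sum_congr rfl
      intro j _
      ring
    -- the `1/k` terms cancel
    have h4 : Real.sin (l * (Real.pi / 2)) * ∑ j : Idx l, c j = 0 := by
      have h5 : ∑ j : Idx l, c j = ser l m 1 := by
        rw [hc 1 ⟨by norm_num, le_rfl⟩, pol_eval]
        simp
      have h6 : ser l m 1 = Real.cos (l * (Real.pi / 2)) * ∑' k : ℕ, m (k + 1) := by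
        unfold ser
        rw [← tsum_mul_left]
        congr 1
        ext k
        unfold tm cs
        rw [cos_bdry]
        have hsq' : ((-1 : ℝ) ^ (k + 1)) * (-1) ^ (k + 1) = 1 := by
          rw [← mul_pow]; norm_num
        linear_combination (m (k + 1) * Real.cos (l * (Real.pi / 2))) * hsq'
      rw [h5, h6, ← mul_assoc]
      have h7 : Real.sin (l * (Real.pi / 2)) * Real.cos (l * (Real.pi / 2)) = 0 := by
        have h8 := Real.sin_two_mul (l * (Real.pi / 2))
        have h9 : 2 * ((l : ℝ) * (Real.pi / 2)) = l * Real.pi := by ring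
        rw [h9, Real.sin_nat_mul_pi] at h8
        linarith
      rw [h7, zero_mul]
    rw [h3, eval_finsetSum]
    have h10 : ∀ j : Idx l, c j * ((-1) ^ k *
        ∫ s in (-1 : ℝ)..1, s ^ ((j : Fin l) : ℕ) * cs l k s) =
        c j * (-(2 * Real.sin (l * (Real.pi / 2)) / Real.pi) * (k : ℝ)⁻¹) +
          (C (c j) * q j).eval ((k : ℝ)⁻¹) := by
      intro j
      rw [hqk j k hk, eval_mul, eval_C]
      ring
    simp_rw [h10]
    rw [Finset.sum_add_distrib, ← Finset.sum_mul]
    have h11 : (∑ j : Idx l, c j) * (-(2 * Real.sin (l * (Real.pi / 2)) / Real.pi) * (k : ℝ)⁻¹) = 0 := by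
      have : (∑ j : Idx l, c j) * (-(2 * Real.sin (l * (Real.pi / 2)) / Real.pi) * (k : ℝ)⁻¹) =
        (Real.sin (l * (Real.pi / 2)) * ∑ j : Idx l, c j) * (-(2 / Real.pi) * (k : ℝ)⁻¹) := by ring
      rw [this, h4, zero_mul]
    rw [h11, zero_add]

/-- converse direction: admissible coefficients give a series orthogonal to `D^l W_M`. -/
theorem orthogonal_of_coeff {l : ℕ} (hl : 1 ≤ l) {m : ℕ → ℝ} {q : ℝ[X]} (hq : Adm l (l - 2) q)
    (hmk : ∀ k : ℕ, 1 ≤ k → m k = q.eval ((k : ℝ)⁻¹)) {M : ℕ} (hM : l ≤ M) :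
    ∫ s in (-1 : ℝ)..1, ser l m s * (Dp l M).eval s = 0 := by
  have hex : ∀ a : ℕ, ∃ p : ℝ[X], a ∈ q.support → (p.natDegree ≤ a ∧ ∀ s ∈ Set.Icc (-1 : ℝ) 1,
      HasSum (fun k : ℕ => tm l (fun k => ((k : ℝ)⁻¹) ^ a) (k + 1) s) (p.eval s)) := by
    intro a
    by_cases ha : a ∈ q.support
    · obtain ⟨h1, h2, h3⟩ := hq a (mem_support_iff.mp ha)
      obtain ⟨p, hp⟩ := hasSum_inv_pow h1 h3
      exact ⟨p, fun _ => hp⟩
    · exact ⟨0, fun h => absurd h ha⟩
  choose p hp using hex
  set P : ℝ[X] := ∑ a ∈ q.support, C (q.coeff a) * p a with hP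
  have hser : ∀ s ∈ Set.Icc (-1 : ℝ) 1, ser l m s = P.eval s := by
    intro s hs
    unfold ser
    apply HasSum.tsum_eq
    rw [hP, eval_finsetSum]
    have h1 : ∀ k : ℕ, tm l m (k + 1) s =
        ∑ a ∈ q.support, q.coeff a * tm l (fun k => ((k : ℝ)⁻¹) ^ a) (k + 1) s := by
      intro k
      unfold tm
      rw [hmk (k + 1) (by omega), Polynomial.eval_eq_sum, Polynomial.sum, Finset.mul_sum,
        Finset.sum_mul]
      apply Finset.sum_congr rfl
      intro a _
      ring
    rw [funext h1]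
    apply hasSum_sum
    intro a ha
    rw [eval_mul, eval_C]
    exact ((hp a ha).2 s hs).mul_left _
  have hdeg : P.degree < l := by
    rw [← mem_degreeLT, hP]
    apply Submodule.sum_mem
    intro a ha
    rw [mem_degreeLT]
    obtain ⟨h1, h2, h3⟩ := hq a (mem_support_iff.mp ha)
    refine lt_of_le_of_lt degree_le_natDegree ?_
    have h4 : (C (q.coeff a) * p a).natDegree ≤ a :=
      (natDegree_C_mul_le _ _).trans (hp a ha).1
    exact_mod_cast lt_of_le_of_lt h4 (by omega)
  rw [← integral_poly_Dp hM P hdeg]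
  apply intervalIntegral.integral_congr
  intro s hs
  rw [Set.uIcc_of_le (by norm_num)] at hs
  simp only
  rw [hser s hs]

end Pool.Agent.Helper48
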