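import Pool.Agent.Helper48.OneDim

/-!
One-dimensional part, continued: trigonometric series whose sum is a polynomial on `[-1,1]`.
-/

open Polynomial MeasureTheory intervalIntegral

namespace Pool.Agent.Helper48

/-- the function `cos (π k s - l π/2)` -/
noncomputable def cs (l k : ℕ) (s : ℝ) : ℝ := Real.cos (Real.pi * k * s - l * (Real.pi / 2))

lemma cs_continuous (l k : ℕ) : Continuous (cs l k) := by unfold cs; fun_prop

lemma abs_cs_le (l k : ℕ) (s : ℝ) : |cs l k s| ≤ 1 := Real.abs_cos_le_one _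

lemma cos_add_nat_mul_pi' (x : ℝ) (l : ℕ) : Real.cos (x + l * Real.pi) = (-1) ^ l * Real.cos x :=
  Real.cos_add_nat_mul_pi x l

lemma cs_neg (l k : ℕ) (s : ℝ) : cs l k (-s) = (-1) ^ l * cs l k s := by
  unfold cs
  rw [← Real.cos_add_nat_mul_pi, ← Real.cos_neg]
  congr 1
  ring

/-- boundary values: `cos (± π k - lπ/2) = (-1)^k cos(lπ/2)` -/
lemma cos_bdry (l k : ℕ) :
    Real.cos (Real.pi * k * 1 - l * (Real.pi / 2)) = (-1) ^ k * Real.cos (l * (Real.pi / 2)) := by
  have : Real.pi * k * 1 - l * (Real.pi / 2) = -(l * (Real.pi / 2)) + k * Real.pi := by ring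
  rw [this, Real.cos_add_nat_mul_pi, Real.cos_neg]

lemma cos_bdry' (l k : ℕ) :
    Real.cos (Real.pi * k * (-1) - l * (Real.pi / 2)) = (-1) ^ k * Real.cos (l * (Real.pi / 2)) := by
  have : Real.pi * k * (-1) - l * (Real.pi / 2) = -(l * (Real.pi / 2) + k * Real.pi) := by ring
  rw [this, Real.cos_neg, Real.cos_add_nat_mul_pi]

lemma sin_bdry (l k : ℕ) :
    Real.sin (Real.pi * k * 1 - l * (Real.pi / 2)) = -((-1) ^ k * Real.sin (l * (Real.pi / 2))) := by
  have : Real.pi * k * 1 - l * (Real.pi / 2) = -(l * (Real.pi / 2)) + k * Real.pi := by ring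
  rw [this, Real.sin_add_nat_mul_pi, Real.sin_neg]
  ring

lemma sin_bdry' (l k : ℕ) :
    Real.sin (Real.pi * k * (-1) - l * (Real.pi / 2)) =
      -((-1) ^ k * Real.sin (l * (Real.pi / 2))) := by
  have : Real.pi * k * (-1) - l * (Real.pi / 2) = -(l * (Real.pi / 2) + k * Real.pi) := by ring
  rw [this, Real.sin_neg, Real.sin_add_nat_mul_pi]

/-! ### Orthogonality -/

lemma integral_cos_affine {c d : ℝ} (hc : c ≠ 0) :
    ∫ s in (-1 : ℝ)..1, Real.cos (c * s + d) = (Real.sin (c + d) - Real.sin (-c + d)) / c := by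
  have h : ∀ s : ℝ, HasDerivAt (fun s => Real.sin (c * s + d) / c) (Real.cos (c * s + d)) s := by
    intro s
    have h1 : HasDerivAt (fun s : ℝ => c * s + d) c s := by
      simpa using ((hasDerivAt_id s).const_mul c).add_const d
    have h2 := h1.sin.div_const c
    rwa [mul_div_assoc, div_self hc, mul_one] at h2
  rw [intervalIntegral.integral_eq_sub_of_hasDerivAt (fun s _ => h s)
    (by apply Continuous.intervalIntegrable; fun_prop)]
  simp only [mul_one, mul_neg]
  ring

lemma cos_mul_cos_aux (A B : ℝ) :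
    Real.cos A * Real.cos B = (1 / 2) * Real.cos (A - B) + (1 / 2) * Real.cos (A + B) := by
  rw [Real.cos_sub, Real.cos_add]
  ring

lemma integral_cs_mul_cs {l j k : ℕ} (hj : 1 ≤ j) (hk : 1 ≤ k) :
    ∫ s in (-1 : ℝ)..1, cs l j s * cs l k s = if j = k then 1 else 0 := by
  have hpi := Real.pi_pos
  have hj' : (1 : ℝ) ≤ j := by exact_mod_cast hj
  have hk' : (1 : ℝ) ≤ k := by exact_mod_cast hk
  have e : ∀ s : ℝ, cs l j s * cs l k s =
      (1 / 2) * Real.cos ((Real.pi * ((j : ℝ) - k)) * s + 0) +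
      (1 / 2) * Real.cos ((Real.pi * ((j : ℝ) + k)) * s + (-(l * Real.pi))) := by
    intro s
    unfold cs
    have h1 : (Real.pi * ((j : ℝ) - k)) * s + 0 =
      (Real.pi * j * s - l * (Real.pi / 2)) - (Real.pi * k * s - l * (Real.pi / 2)) := by ring
    have h2 : (Real.pi * ((j : ℝ) + k)) * s + (-(l * Real.pi)) =
      (Real.pi * j * s - l * (Real.pi / 2)) + (Real.pi * k * s - l * (Real.pi / 2)) := by ring
    rw [h1, h2]
    exact cos_mul_cos_aux _ _
  simp_rw [e]
  rw [intervalIntegral.integral_add (by apply Continuous.intervalIntegrable; fun_prop)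
    (by apply Continuous.intervalIntegrable; fun_prop), intervalIntegral.integral_const_mul,
    intervalIntegral.integral_const_mul]
  have hsum : ∫ s in (-1 : ℝ)..1, Real.cos ((Real.pi * ((j : ℝ) + k)) * s + (-(l * Real.pi))) = 0 := by
    rw [integral_cos_affine (by positivity)]
    have h1 : Real.pi * ((j : ℝ) + k) + (-(l * Real.pi)) = (((j + k : ℤ) - l : ℤ) : ℝ) * Real.pi := by
      push_cast; ring
    have h2 : -(Real.pi * ((j : ℝ) + k)) + (-(l * Real.pi)) =
        ((-(j + k : ℤ) - l : ℤ) : ℝ) * Real.pi := by push_cast; ring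
    rw [h1, h2, Real.sin_int_mul_pi, Real.sin_int_mul_pi]
    simp
  rw [hsum]
  split_ifs with hjk
  · subst hjk
    simp
    norm_num
  · have hne : (j : ℝ) - k ≠ 0 := by
      intro h0
      apply hjk
      have : (j : ℝ) = k := by linarith
      exact_mod_cast this
    rw [integral_cos_affine (mul_ne_zero hpi.ne' hne)]
    have h1 : Real.pi * ((j : ℝ) - k) + 0 = (((j : ℤ) - k : ℤ) : ℝ) * Real.pi := by
      push_cast; ring
    have h2 : -(Real.pi * ((j : ℝ) - k)) + 0 = ((-((j : ℤ) - k) : ℤ) : ℝ) * Real.pi := by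
      push_cast; ring
    rw [h1, h2, Real.sin_int_mul_pi, Real.sin_int_mul_pi]
    simp

/-! ### The series -/

/-- the `k`-th term `(-1)^k m_k cos(π k s - lπ/2)` -/
noncomputable def tm (l : ℕ) (m : ℕ → ℝ) (k : ℕ) (s : ℝ) : ℝ := (-1) ^ k * m k * cs l k s

/-- the sum over `k ≥ 1` -/
noncomputable def ser (l : ℕ) (m : ℕ → ℝ) (s : ℝ) : ℝ := ∑' k : ℕ, tm l m (k + 1) s

lemma abs_tm_le (l : ℕ) (m : ℕ → ℝ) (k : ℕ) (s : ℝ) : |tm l m k s| ≤ |m k| := by
  unfold tm
  rw [abs_mul, abs_mul, abs_pow, abs_neg, abs_one, one_pow, one_mul]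
  calc |m k| * |cs l k s| ≤ |m k| * 1 := mul_le_mul_of_nonneg_left (abs_cs_le l k s) (abs_nonneg _)
    _ = |m k| := mul_one _

lemma tm_continuous (l : ℕ) (m : ℕ → ℝ) (k : ℕ) : Continuous (tm l m k) := by
  unfold tm
  exact continuous_const.mul (cs_continuous l k)

variable {l : ℕ} {m : ℕ → ℝ}

lemma summable_tm (hm : Summable fun k : ℕ => |m (k + 1)|) (s : ℝ) :
    Summable fun k : ℕ => tm l m (k + 1) s :=
  Summable.of_norm_bounded hm fun k => abs_tm_le l m (k + 1) s

lemma ser_continuous (hm : Summable fun k : ℕ => |m (k + 1)|) : Continuous (ser l m) :=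
  continuous_tsum (fun k => tm_continuous l m (k + 1)) hm fun k s => abs_tm_le l m (k + 1) s

lemma ser_neg (s : ℝ) : ser l m (-s) = (-1) ^ l * ser l m s := by
  unfold ser
  rw [← tsum_mul_left]
  congr 1
  ext k
  unfold tm
  rw [cs_neg]
  ring

lemma hasSum_integral_tm (hm : Summable fun k : ℕ => |m (k + 1)|) {φ : ℝ → ℝ} (hφ : Continuous φ) :
    HasSum (fun k : ℕ => ∫ s in (-1 : ℝ)..1, tm l m (k + 1) s * φ s)
      (∫ s in (-1 : ℝ)..1, ser l m s * φ s) := by
  apply intervalIntegral.hasSum_integral_of_dominated_convergence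
    (fun (k : ℕ) (s : ℝ) => |m (k + 1)| * |φ s|)
  · intro k
    exact ((tm_continuous l m (k + 1)).mul hφ).aestronglyMeasurable
  · intro k
    filter_upwards with s _
    rw [Real.norm_eq_abs, abs_mul]
    exact mul_le_mul_of_nonneg_right (abs_tm_le l m (k + 1) s) (abs_nonneg _)
  · filter_upwards with s _
    exact hm.mul_right _
  · simp_rw [tsum_mul_right]
    apply Continuous.intervalIntegrable
    fun_prop
  · filter_upwards with s _
    exact (summable_tm hm s).hasSum.mul_right _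

/-- the coefficients are recovered by integration -/
lemma integral_ser_mul_cs (hm : Summable fun k : ℕ => |m (k + 1)|) {k : ℕ} (hk : 1 ≤ k) :
    ∫ s in (-1 : ℝ)..1, ser l m s * cs l k s = (-1) ^ k * m k := by
  have h := hasSum_integral_tm (l := l) hm (cs_continuous l k)
  have h2 : ∀ j : ℕ, ∫ s in (-1 : ℝ)..1, tm l m (j + 1) s * cs l k s =
      if j = k - 1 then (-1) ^ k * m k else 0 := by
    intro j
    unfold tm
    have : ∀ s : ℝ, (-1) ^ (j + 1) * m (j + 1) * cs l (j + 1) s * cs l k s =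
        ((-1) ^ (j + 1) * m (j + 1)) * (cs l (j + 1) s * cs l k s) := fun s => by ring
    simp_rw [this]
    rw [intervalIntegral.integral_const_mul, integral_cs_mul_cs (by omega) hk]
    by_cases hjk : j + 1 = k
    · have : j = k - 1 := by omega
      rw [if_pos hjk, if_pos this, hjk, mul_one]
    · have : ¬ j = k - 1 := by omega
      rw [if_neg hjk, if_neg this, mul_zero]
  simp_rw [h2] at h
  exact h.unique (hasSum_ite_eq (k - 1) _) 

/-- pairing of the series with `D^l W_M` -/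
lemma hasSum_Dp (hm : Summable fun k : ℕ => |m (k + 1)|) {M : ℕ} (hM : l ≤ M) :
    HasSum (fun k : ℕ => (-1) ^ (k + 1) * m (k + 1) * ((-(Real.pi * ((k + 1 : ℕ) : ℝ))) ^ l *
        ∫ s in (-1 : ℝ)..1, Real.cos (Real.pi * ((k + 1 : ℕ) : ℝ) * s) * (Wp M).eval s))
      (∫ s in (-1 : ℝ)..1, ser l m s * (Dp l M).eval s) := by
  have h := hasSum_integral_tm (l := l) hm (Dp l M).continuous
  convert h using 2 with k
  have : ∀ s : ℝ, tm l m (k + 1) s * (Dp l M).eval s = ((-1) ^ (k + 1) * m (k + 1)) *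
      (Real.cos (Real.pi * ((k + 1 : ℕ) : ℝ) * s - l * (Real.pi / 2)) * (Dp l M).eval s) := by
    intro s; unfold tm cs; ring
  simp_rw [this]
  rw [intervalIntegral.integral_const_mul, integral_cos_Dp _ hM]

end Pool.Agent.Helper48
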