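import Pool.Agent.Helper48.Functional
import Pool.Agent.Helper48.Marginal
import Pool.Agent.Helper48.Facts

/-!
Evaluation of the functional `D(L,1,M-m/2)` for a measure carried by the spheres of radius `πk`.
-/

open MeasureTheory

namespace Pool.Agent.Helper48

lemma cint {X : Type*} [MeasurableSpace X] (μ : Measure X) (f : X → ℝ) :
    ∫ x, ((f x : ℝ) : ℂ) ∂μ = ((∫ x, f x ∂μ : ℝ) : ℂ) := integral_ofReal

/-! ### Marginals -/

section marg

variable {m : ℕ}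

lemma exists_unit (t : V (m + 1)) : ∃ ω : V (m + 1), ‖ω‖ = 1 ∧ t = ‖t‖ • ω := by
  by_cases h : t = 0
  · refine ⟨EuclideanSpace.single 0 1, by simp, by simp [h]⟩
  · refine ⟨‖t‖⁻¹ • t, ?_, ?_⟩
    · rw [norm_smul, norm_inv, norm_norm, inv_mul_cancel₀ (norm_ne_zero_iff.mpr h)]
    · rw [smul_smul, mul_inv_cancel₀ (norm_ne_zero_iff.mpr h), one_smul]

/-- `∫ cos (c s) (1-s²)^M ds` -/
noncomputable def FM (M : ℕ) (c : ℝ) : ℝ :=
  ∫ s in (-1 : ℝ)..1, Real.cos (c * s) * (Wp M).eval s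

lemma integral_sin_Wp (M : ℕ) (c : ℝ) :
    ∫ s in (-1 : ℝ)..1, (Wp M).eval s * Real.sin (c * s) = 0 := by
  apply integral_odd
  intro s _
  rw [Wp_eval, Wp_eval, mul_neg, Real.sin_neg]
  ring

lemma FF_one {M : ℕ} (hM : (m : ℝ) / 2 < M) (t : V (m + 1)) :
    FF 1 ((M : ℝ) - m / 2) t = ((Cst m ((M : ℝ) - m / 2) * FM M ‖t‖ : ℝ) : ℂ) := by
  have hβ : (0 : ℝ) < (M : ℝ) - m / 2 := by linarith
  obtain ⟨ω, hω, ht⟩ := exists_unit t
  have hc := marginal hM (f := fun s => Real.cos (‖t‖ * s)) (by fun_prop) hω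
  have hs := marginal hM (f := fun s => Real.sin (‖t‖ * s)) (by fun_prop) hω
  rw [integral_sin_Wp, mul_zero] at hs
  have hin : ∀ ξ : V (m + 1), inner ℝ t ξ = ‖t‖ * inner ℝ ω ξ := by
    intro ξ
    conv_lhs => rw [ht]
    rw [inner_smul_left]
    rfl
  have hex : ∀ ξ : V (m + 1), (pe 1 ξ * rho ((M : ℝ) - m / 2) ξ) • ex t ξ =
      ((rho ((M : ℝ) - m / 2) ξ * Real.cos (‖t‖ * inner ℝ ω ξ) : ℝ) : ℂ) -
        Complex.I * ((rho ((M : ℝ) - m / 2) ξ * Real.sin (‖t‖ * inner ℝ ω ξ) : ℝ) : ℂ) := by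
    intro ξ
    rw [pe_one, one_mul, Complex.real_smul]
    unfold ex
    rw [hin]
    have : -(Complex.I * (((‖t‖ * inner ℝ ω ξ : ℝ)) : ℂ)) =
      ((-(‖t‖ * inner ℝ ω ξ) : ℝ) : ℂ) * Complex.I := by push_cast; ring
    rw [this, Complex.exp_mul_I, ← Complex.ofReal_cos, ← Complex.ofReal_sin, Real.cos_neg,
      Real.sin_neg]
    push_cast
    ring
  unfold FF
  rw [funext hex]
  have i1 : Integrable (fun ξ : V (m + 1) =>
      rho ((M : ℝ) - m / 2) ξ * Real.cos (‖t‖ * inner ℝ ω ξ)) :=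
    integrable_rho_smul hβ (by fun_prop)
  have i2 : Integrable (fun ξ : V (m + 1) =>
      rho ((M : ℝ) - m / 2) ξ * Real.sin (‖t‖ * inner ℝ ω ξ)) :=
    integrable_rho_smul hβ (by fun_prop)
  rw [integral_sub i1.ofReal (i2.ofReal.const_mul _), integral_const_mul]
  have e1 : ∫ ξ : V (m + 1), ((rho ((M : ℝ) - m / 2) ξ * Real.cos (‖t‖ * inner ℝ ω ξ) : ℝ) : ℂ) =
      ((∫ ξ : V (m + 1), rho ((M : ℝ) - m / 2) ξ * Real.cos (‖t‖ * inner ℝ ω ξ) : ℝ) : ℂ) :=
    integral_ofReal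
  have e2 : ∫ ξ : V (m + 1), ((rho ((M : ℝ) - m / 2) ξ * Real.sin (‖t‖ * inner ℝ ω ξ) : ℝ) : ℂ) =
      ((∫ ξ : V (m + 1), rho ((M : ℝ) - m / 2) ξ * Real.sin (‖t‖ * inner ℝ ω ξ) : ℝ) : ℂ) :=
    integral_ofReal
  rw [e1, e2, hc, hs]
  have e3 : ∫ s in (-1 : ℝ)..1, (Wp M).eval s * Real.cos (‖t‖ * s) = FM M ‖t‖ := by
    unfold FM
    congr 1
    funext s
    ring
  rw [e3]
  simp

/-- coordinates -/
lemma marginal_coordinate {M : ℕ} (hM : (m : ℝ) / 2 < M) {f : ℝ → ℝ} (hf : Continuous f)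
    (i : Fin (m + 1)) :
    ∫ ξ : V (m + 1), rho ((M : ℝ) - m / 2) ξ * f (ξ i) =
      Cst m ((M : ℝ) - m / 2) * ∫ s in (-1 : ℝ)..1, (Wp M).eval s * f s := by
  have h := marginal hM hf (ω := EuclideanSpace.single i 1) (by simp)
  rw [← h]
  congr 1
  funext ξ
  simp [EuclideanSpace.inner_single_left]

lemma integral_rho {M : ℕ} (hM : (m : ℝ) / 2 < M) :
    ∫ ξ : V (m + 1), rho ((M : ℝ) - m / 2) ξ =
      Cst m ((M : ℝ) - m / 2) * ∫ s in (-1 : ℝ)..1, (Wp M).eval s := by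
  have h := marginal_coordinate hM (f := fun _ => 1) continuous_const (0 : Fin (m + 1))
  simpa using h

lemma integral_rho_norm_sq {M : ℕ} (hM : (m : ℝ) / 2 < M) :
    ∫ ξ : V (m + 1), rho ((M : ℝ) - m / 2) ξ * ‖ξ‖ ^ 2 =
      (m + 1) * (Cst m ((M : ℝ) - m / 2) * ∫ s in (-1 : ℝ)..1, (Wp M).eval s * s ^ 2) := by
  have hβ : (0 : ℝ) < (M : ℝ) - m / 2 := by linarith
  have h1 : ∀ ξ : V (m + 1), rho ((M : ℝ) - m / 2) ξ * ‖ξ‖ ^ 2 =
      ∑ i, rho ((M : ℝ) - m / 2) ξ * (ξ i) ^ 2 := by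
    intro ξ
    rw [EuclideanSpace.norm_sq_eq, Finset.mul_sum]
    simp
  rw [funext h1, integral_finsetSum]
  · have h2 : ∀ i : Fin (m + 1), ∫ ξ : V (m + 1), rho ((M : ℝ) - m / 2) ξ * (ξ i) ^ 2 =
        Cst m ((M : ℝ) - m / 2) * ∫ s in (-1 : ℝ)..1, (Wp M).eval s * s ^ 2 := fun i =>
      marginal_coordinate hM (f := fun s => s ^ 2) (by fun_prop) i
    simp_rw [h2]
    simp
  · intro i _
    exact integrable_rho_smul hβ (by fun_prop)

lemma integral_AL_nil {M : ℕ} (hM : (m : ℝ) / 2 < M) :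
    ∫ ξ : V (m + 1), (pe 1 ξ * rho ((M : ℝ) - m / 2) ξ) • AL [] ξ =
      (((m + 1) * (Cst m ((M : ℝ) - m / 2) * ∫ s in (-1 : ℝ)..1, (Wp M).eval s * s ^ 2) : ℝ) : ℂ) := by
  rw [← integral_rho_norm_sq hM, ← cint]
  congr 1
  funext ξ
  have : AL ([] : List (Fin (m + 1))) ξ = ((‖ξ‖ ^ 2 : ℝ) : ℂ) := rfl
  rw [this, pe_one, one_mul, Complex.real_smul]
  push_cast
  rfl

lemma integral_AL_one {M : ℕ} (hM : (m : ℝ) / 2 < M) (j : Fin (m + 1)) :
    ∫ ξ : V (m + 1), (pe 1 ξ * rho ((M : ℝ) - m / 2) ξ) • AL [j] ξ = 0 := by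
  have h := marginal_coordinate hM (f := fun s => s) continuous_id j
  have h0 : ∫ s in (-1 : ℝ)..1, (Wp M).eval s * s = 0 := by
    apply integral_odd
    intro s _
    rw [Wp_eval, Wp_eval]
    ring
  rw [h0, mul_zero] at h
  have h1 : ∀ ξ : V (m + 1), (pe 1 ξ * rho ((M : ℝ) - m / 2) ξ) • AL [j] ξ =
      2 * Complex.I * ((rho ((M : ℝ) - m / 2) ξ * ξ j : ℝ) : ℂ) := by
    intro ξ
    have : AL [j] ξ = 2 * Complex.I * (ξ j : ℂ) := rfl
    rw [this, pe_one, one_mul, Complex.real_smul]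
    push_cast
    ring
  rw [funext h1, integral_const_mul, cint, h]
  simp

lemma integral_AL_two {M : ℕ} (hM : (m : ℝ) / 2 < M) (i j : Fin (m + 1)) :
    ∫ ξ : V (m + 1), (pe 1 ξ * rho ((M : ℝ) - m / 2) ξ) • AL [i, j] ξ =
      ((-(2 * (if i = j then 1 else 0) * (Cst m ((M : ℝ) - m / 2) *
        ∫ s in (-1 : ℝ)..1, (Wp M).eval s)) : ℝ) : ℂ) := by
  rw [← integral_rho hM]
  have h1 : ∀ ξ : V (m + 1), (pe 1 ξ * rho ((M : ℝ) - m / 2) ξ) • AL [i, j] ξ =
      (((-(2 * (if i = j then 1 else 0))) * rho ((M : ℝ) - m / 2) ξ : ℝ) : ℂ) := by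
    intro ξ
    have : AL [i, j] ξ = if i = j then -2 else 0 := rfl
    rw [this, pe_one, one_mul, Complex.real_smul]
    split_ifs
    · push_cast; ring
    · push_cast; ring
  rw [funext h1, cint, integral_const_mul]
  congr 1
  ring

lemma integral_AL_ge {M : ℕ} {L : List (Fin (m + 1))} (hL : 3 ≤ L.length) :
    ∫ ξ : V (m + 1), (pe 1 ξ * rho ((M : ℝ) - m / 2) ξ) • AL L ξ = 0 := by
  match L, hL with
  | (i :: j :: k :: L), _ =>
    have h1 : ∀ ξ : V (m + 1),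
        (pe 1 ξ * rho ((M : ℝ) - m / 2) ξ) • AL (i :: j :: k :: L) ξ = 0 := by
      intro ξ
      have : AL (i :: j :: k :: L) ξ = 0 := rfl
      rw [this, smul_zero]
    rw [funext h1]
    exact integral_zero _ _

end marg

/-! ### Spheres -/

section spheres

variable {n : ℕ}

/-- the sphere of radius `πk` -/
def Sp (n k : ℕ) : Set (V n) := Metric.sphere 0 (Real.pi * k)

lemma mem_Sp {k : ℕ} {t : V n} : t ∈ Sp n k ↔ ‖t‖ = Real.pi * k := by
  unfold Sp; rw [mem_sphere_zero_iff_norm]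

lemma measurableSet_Sp (k : ℕ) : MeasurableSet (Sp n k) := Metric.isClosed_sphere.measurableSet

lemma Sp_zero : Sp n 0 = {0} := by
  ext t
  rw [mem_Sp]
  simp

lemma Sp_disjoint : Pairwise (Function.onFun Disjoint (Sp n)) := by
  intro j k hjk
  rw [Function.onFun, Set.disjoint_left]
  intro t h1 h2
  rw [mem_Sp] at h1 h2
  rw [h1] at h2
  have h3 : (j : ℝ) = k := mul_left_cancel₀ Real.pi_ne_zero h2
  exact hjk (by exact_mod_cast h3)

variable {lam : Measure (V n)} [IsFiniteMeasure lam]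

omit [IsFiniteMeasure lam] in
lemma hasSum_spheres (hsupp : lam {t | ∀ k : ℕ, ‖t‖ ≠ Real.pi * k} = 0) {F : Type*}
    [NormedAddCommGroup F] [NormedSpace ℝ F] {G : V n → F} (hG : Integrable G lam) :
    HasSum (fun k : ℕ => ∫ t in Sp n k, G t ∂lam) (∫ t, G t ∂lam) := by
  have h := hasSum_integral_iUnion (measurableSet_Sp (n := n)) Sp_disjoint hG.integrableOn
  have h2 : ∫ t in ⋃ k, Sp n k, G t ∂lam = ∫ t, G t ∂lam := by
    rw [Measure.restrict_eq_self_of_ae_mem]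
    rw [ae_iff]
    convert hsupp using 2
    ext t
    simp [mem_Sp]
  rwa [h2] at h

/-- the normalised moments over the sphere of radius `πk` -/
noncomputable def mom (lam : Measure (V n)) (L : List (Fin n)) (k : ℕ) : ℝ :=
  ∫ t in Sp n k, (L.map (fun j => t j / (Real.pi * k))).prod ∂lam

/-- real monomials -/
noncomputable def PR (L : List (Fin n)) (t : V n) : ℝ := (L.map fun j => t j).prod

lemma PL_eq (L : List (Fin n)) (t : V n) : PL L t = (PR L t : ℂ) := by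
  induction L with
  | nil => simp [PL, PR]
  | cons j L ih =>
    have h1 : PL (j :: L) t = (t j : ℂ) * PL L t := rfl
    have h2 : PR (j :: L) t = t j * PR L t := by simp [PR]
    rw [h1, h2, ih]
    push_cast
    rfl

lemma prod_div (L : List (Fin n)) (t : V n) (c : ℝ) :
    (L.map (fun j => t j / c)).prod = PR L t / c ^ L.length := by
  induction L with
  | nil => simp [PR]
  | cons j L ih =>
    have h2 : PR (j :: L) t = t j * PR L t := by simp [PR]
    rw [List.map_cons, List.prod_cons, ih, h2, List.length_cons, pow_succ]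
    field_simp

lemma abs_prod_le (L : List (Fin n)) {t : V n} {c : ℝ} (hc : 0 < c) (ht : ‖t‖ = c) :
    |(L.map (fun j => t j / c)).prod| ≤ 1 := by
  induction L with
  | nil => simp
  | cons j L ih =>
    rw [List.map_cons, List.prod_cons, abs_mul, abs_div, abs_of_pos hc]
    have h1 : |t j| / c ≤ 1 := by
      rw [div_le_one hc, ← ht]
      simpa using PiLp.norm_apply_le t j
    calc |t j| / c * |(L.map (fun j => t j / c)).prod| ≤ 1 * 1 := by
          apply mul_le_mul h1 ih (abs_nonneg _) zero_le_one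
      _ = 1 := one_mul 1

lemma abs_mom_le (L : List (Fin n)) {k : ℕ} (hk : 1 ≤ k) : |mom lam L k| ≤ lam.real (Sp n k) := by
  have hc : 0 < Real.pi * k := mul_pos Real.pi_pos (by exact_mod_cast hk)
  unfold mom
  have h := norm_setIntegral_le_of_norm_le_const (μ := lam) (s := Sp n k) (C := 1)
    (f := fun t => (L.map (fun j => t j / (Real.pi * k))).prod) (measure_lt_top _ _)
    (fun t ht => abs_prod_le L hc (mem_Sp.mp ht))
  simpa using h

omit [IsFiniteMeasure lam] in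
lemma summable_real_Sp [IsFiniteMeasure lam] : Summable fun k : ℕ => lam.real (Sp n (k + 1)) := by
  have h : HasSum (fun k : ℕ => ∫ t in Sp n k, (1 : ℝ) ∂lam) (∫ t in ⋃ k, Sp n k, (1 : ℝ) ∂lam) :=
    hasSum_integral_iUnion (measurableSet_Sp (n := n)) Sp_disjoint
      (integrable_const (1 : ℝ)).integrableOn
  have h2 := (summable_nat_add_iff 1).mpr h.summable
  simpa using h2

lemma summable_mom (L : List (Fin n)) : Summable fun k : ℕ => |mom lam L (k + 1)| :=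
  Summable.of_nonneg_of_le (fun _ => abs_nonneg _) (fun k => abs_mom_le L (by omega))
    summable_real_Sp

end spheres

end Pool.Agent.Helper48
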