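import Mathlib

/-!
Polar decomposition of a complex measure, and integration against a complex measure given by a
unimodular density.
-/

open MeasureTheory

namespace Pool.Agent.Helper48

variable {X : Type*} [MeasurableSpace X]

lemma withDensityᵥ_rnDeriv_complex (c : ComplexMeasure X) (μ : Measure X) [SigmaFinite μ]
    (h : c ≪ᵥ μ.toENNRealVectorMeasure) : μ.withDensityᵥ (c.rnDeriv μ) = c := by
  rw [ComplexMeasure.absolutelyContinuous_ennreal_iff] at h
  conv_rhs => rw [← c.toComplexMeasure_to_signedMeasure]
  ext i hi : 1
  rw [SignedMeasure.toComplexMeasure_apply]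
  apply Complex.ext
  · rw [withDensityᵥ_apply (c.integrable_rnDeriv μ) hi, ← RCLike.re_eq_complex_re,
      ← integral_re (c.integrable_rnDeriv μ).integrableOn, RCLike.re_eq_complex_re,
      ← withDensityᵥ_apply _ hi]
    · change (μ.withDensityᵥ (c.re.rnDeriv μ)) i = _
      rw [SignedMeasure.withDensityᵥ_rnDeriv_eq _ _ h.1]
    · exact SignedMeasure.integrable_rnDeriv _ _
  · rw [withDensityᵥ_apply (c.integrable_rnDeriv μ) hi, ← RCLike.im_eq_complex_im,
      ← integral_im (c.integrable_rnDeriv μ).integrableOn, RCLike.im_eq_complex_im,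
      ← withDensityᵥ_apply _ hi]
    · change (μ.withDensityᵥ (c.im.rnDeriv μ)) i = _
      rw [SignedMeasure.withDensityᵥ_rnDeriv_eq _ _ h.2]
    · exact SignedMeasure.integrable_rnDeriv _ _

/-- polar decomposition of a complex measure of finite variation -/
lemma exists_polar (ν : ComplexMeasure X) [IsFiniteMeasure ν.variation] :
    ∃ h : X → ℂ, Measurable h ∧ (∀ t, ‖h t‖ = 1) ∧ ν = ν.variation.withDensityᵥ h := by
  set lam := ν.variation with hlam
  have hac : ν ≪ᵥ lam.toENNRealVectorMeasure := VectorMeasure.absolutelyContinuous ν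
  have h1 := withDensityᵥ_rnDeriv_complex ν lam hac
  set g := ν.rnDeriv lam with hg
  have hgi : Integrable g lam := ν.integrable_rnDeriv lam
  have hvar : lam = lam.withDensity (fun x => ‖g x‖ₑ) := by
    rw [← Measure.variation_withDensityᵥ hgi, h1]
  have h2 : (fun _ : X => (1 : ENNReal)) =ᵐ[lam] fun x => ‖g x‖ₑ := by
    rw [← withDensity_eq_iff_of_sigmaFinite aemeasurable_const hgi.aestronglyMeasurable.enorm]
    rw [← hvar]
    exact withDensity_one
  set g' := hgi.aestronglyMeasurable.mk g with hg'
  have hg'm : Measurable g' := hgi.aestronglyMeasurable.stronglyMeasurable_mk.measurable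
  have hgg' : g =ᵐ[lam] g' := hgi.aestronglyMeasurable.ae_eq_mk
  refine ⟨fun x => if ‖g' x‖ = 1 then g' x else 1, ?_, ?_, ?_⟩
  · exact Measurable.ite (measurableSet_eq_fun hg'm.norm measurable_const) hg'm measurable_const
  · intro t
    simp only
    split_ifs with h
    · exact h
    · simp
  · rw [← h1]
    apply WithDensityᵥEq.congr_ae
    filter_upwards [h2, hgg'] with x hx hx'
    have : ‖g' x‖ = 1 := by
      rw [← hx']
      have h3 : ‖g x‖ₑ = 1 := hx.symm
      rw [← ofReal_norm, ← ENNReal.ofReal_one] at h3
      exact (ENNReal.ofReal_eq_ofReal_iff (norm_nonneg _) zero_le_one).mp h3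
    rw [if_pos this, hx']

/-- integration against a complex measure with unimodular density -/
lemma integral_unimodular (μ : Measure X) [IsFiniteMeasure μ] {h : X → ℂ} (hm : Measurable h)
    (hh : ∀ᵐ t ∂μ, ‖h t‖ = 1) {g : X → ℂ} (hg : Integrable g μ) :
    ∫ᵛ t, g t ∂[ContinuousLinearMap.mul ℝ ℂ; μ.withDensityᵥ h] = ∫ t, g t * h t ∂μ := by
  have hhi : Integrable h μ := by
    apply Integrable.of_bound hm.aestronglyMeasurable 1
    filter_upwards [hh] with t ht using ht.le
  have hvar : (μ.withDensityᵥ h).variation = μ := by
    rw [Measure.variation_withDensityᵥ hhi]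
    have : (fun x => ‖h x‖ₑ) =ᵐ[μ] fun _ => (1 : ENNReal) := by
      filter_upwards [hh] with t ht
      rw [← ofReal_norm, ht, ENNReal.ofReal_one]
    rw [withDensity_congr_ae this]
    exact withDensity_one
  set ν : ComplexMeasure X := μ.withDensityᵥ h with hν
  have hh' : ∀ᵐ t ∂ν.variation, ‖h t‖ = 1 := by rw [hvar]; exact hh
  have hfin : IsFiniteMeasure ν.variation := by rw [hvar]; infer_instance
  have hmul : ∀ {f : X → ℂ}, Integrable f ν.variation →
      Integrable (fun t => f t * h t) ν.variation := by
    intro f hf
    refine hf.mul_bdd (c := 1) hm.aestronglyMeasurable ?_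
    filter_upwards [hh'] with t ht using ht.le
  have key : ∀ {f : X → ℂ}, Integrable f ν.variation →
      ∫ᵛ t, f t ∂[ContinuousLinearMap.mul ℝ ℂ; ν] = ∫ t, f t * h t ∂ν.variation := by
    intro f hf
    apply hf.induction (P := fun f => ∫ᵛ t, f t ∂[ContinuousLinearMap.mul ℝ ℂ; ν] =
      ∫ t, f t * h t ∂ν.variation)
    · intro c s hs hc
      have : IsFiniteMeasure (ν.variation.restrict s) := ⟨by simp⟩
      rw [VectorMeasure.integral_indicator_const _ hs]
      have e1 : (fun t => s.indicator (fun _ => c) t * h t) = s.indicator (fun t => c * h t) := by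
        funext t
        by_cases ht : t ∈ s
        · simp [ht]
        · simp [ht]
      rw [e1, integral_indicator hs, integral_const_mul, hvar, hν, withDensityᵥ_apply hhi hs]
      rfl
    · intro f g _ f_int g_int hf hg
      have e1 : ∀ t, (f + g) t * h t = f t * h t + g t * h t := fun t => by
        rw [Pi.add_apply]; ring
      simp_rw [e1]
      rw [integral_add (hmul f_int) (hmul g_int), ← hf, ← hg]
      exact VectorMeasure.integral_fun_add f_int g_int
    · apply isClosed_eq
      · exact VectorMeasure.continuous_integral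
      · apply LipschitzWith.continuous (K := 1)
        apply LipschitzWith.mk_one
        intro f g
        have hfi := L1.integrable_coeFn f
        have hgi := L1.integrable_coeFn g
        rw [dist_eq_norm, dist_eq_norm, L1.norm_eq_integral_norm,
          ← integral_sub (hmul hfi) (hmul hgi)]
        refine (norm_integral_le_integral_norm _).trans (le_of_eq ?_)
        apply integral_congr_ae
        filter_upwards [hh', Lp.coeFn_sub f g] with t ht1 ht2
        rw [ht2, ← sub_mul, norm_mul, ht1, mul_one]
        rfl
    · intro f g hfg _ hf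
      rw [← VectorMeasure.integral_congr_ae hfg, hf]
      apply integral_congr_ae
      filter_upwards [hfg] with t ht
      rw [ht]
  have h5 := key (f := g) (by rw [hvar]; exact hg)
  rw [h5, hvar]

end Pool.Agent.Helper48
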